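import Pool.Agent.NH64.GM.Stm

/-!
GM7: two matrix lemmas (interpolation of two weighted contractions, and equality of the
spectral measures in the case of equality).
-/

open scoped BigOperators

namespace Pool.Agent.NH64.GM.Mat

/-- weighted Cauchy-Schwarz. -/
lemma cs {ι : Type*} (s : Finset ι) (a x y : ι → ℝ) (ha : ∀ i, 0 < a i) :
    (∑ i ∈ s, x i * y i) ^ 2 ≤ (∑ i ∈ s, a i * x i ^ 2) * ∑ i ∈ s, (a i)⁻¹ * y i ^ 2 := by
  have h := Finset.sum_mul_sq_le_sq_mul_sq s (fun i => Real.sqrt (a i) * x i)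
    (fun i => (Real.sqrt (a i))⁻¹ * y i)
  have e1 : ∀ i, Real.sqrt (a i) * x i * ((Real.sqrt (a i))⁻¹ * y i) = x i * y i := by
    intro i
    have : Real.sqrt (a i) ≠ 0 := (Real.sqrt_pos.2 (ha i)).ne'
    field_simp
  have e2 : ∀ i, (Real.sqrt (a i) * x i) ^ 2 = a i * x i ^ 2 := by
    intro i
    rw [mul_pow, Real.sq_sqrt (ha i).le]
  have e3 : ∀ i, ((Real.sqrt (a i))⁻¹ * y i) ^ 2 = (a i)⁻¹ * y i ^ 2 := by
    intro i
    rw [mul_pow, inv_pow, Real.sq_sqrt (ha i).le]
  simp only [e1, e2, e3] at h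
  exact h

/-- the adjoint relation. -/
lemma adj {m k : ℕ} (N : Fin m → Fin k → ℝ) (s : Fin m → ℝ) (t : Fin k → ℝ) :
    ∑ i, s i * (∑ j, N i j * t j) = ∑ j, (∑ i, N i j * s i) * t j := by
  simp only [Finset.mul_sum, Finset.sum_mul]
  rw [Finset.sum_comm]
  refine Finset.sum_congr rfl fun j _ => Finset.sum_congr rfl fun i _ => by ring

/-- from `q² ≤ p q'` style bounds: if `r ≥ 0`, `r² ≤ p * r` then `r ≤ p`. -/
lemma le_of_sq_le {r p : ℝ} (hr : 0 ≤ r) (hp : 0 ≤ p) (h : r ^ 2 ≤ p * r) : r ≤ p := by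
  rcases hr.eq_or_lt with h0 | h0
  · rw [← h0]; exact hp
  · exact le_of_mul_le_mul_right (by nlinarith [h]) h0

/-- transposed inequality. -/
lemma transp {m k : ℕ} (a : Fin m → ℝ) (b : Fin k → ℝ) (N : Fin m → Fin k → ℝ)
    (ha : ∀ i, 0 < a i) (hb : ∀ j, 0 < b j)
    (h2 : ∀ t : Fin k → ℝ, ∑ i, (a i)⁻¹ * (∑ j, N i j * t j) ^ 2 ≤ ∑ j, (b j)⁻¹ * t j ^ 2)
    (s : Fin m → ℝ) :
    ∑ j, b j * (∑ i, N i j * s i) ^ 2 ≤ ∑ i, a i * s i ^ 2 := by
  set r : Fin k → ℝ := fun j => ∑ i, N i j * s i with hr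
  have e1 : ∑ j, b j * r j ^ 2 = ∑ i, s i * (∑ j, N i j * (b j * r j)) := by
    rw [adj]
    refine Finset.sum_congr rfl fun j _ => ?_
    simp only [hr]; ring
  have e2 := cs Finset.univ a s (fun i => ∑ j, N i j * (b j * r j)) ha
  have e3 := h2 (fun j => b j * r j)
  have e4 : ∑ j, (b j)⁻¹ * (b j * r j) ^ 2 = ∑ j, b j * r j ^ 2 := by
    refine Finset.sum_congr rfl fun j _ => ?_
    have := (hb j).ne'
    field_simp
  rw [e4] at e3
  have p0 : 0 ≤ ∑ i, a i * s i ^ 2 :=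
    Finset.sum_nonneg fun i _ => mul_nonneg (ha i).le (sq_nonneg _)
  have r0 : 0 ≤ ∑ j, b j * r j ^ 2 :=
    Finset.sum_nonneg fun i _ => mul_nonneg (hb i).le (sq_nonneg _)
  refine le_of_sq_le r0 p0 ?_
  calc (∑ j, b j * r j ^ 2) ^ 2 = (∑ i, s i * (∑ j, N i j * (b j * r j))) ^ 2 := by rw [e1]
    _ ≤ _ := e2
    _ ≤ _ := mul_le_mul_of_nonneg_left e3 p0

theorem interp : St_interp := by
  intro m k a b N ha hb h1 h2
  let M : Matrix (Fin m) (Fin k) ℝ := Matrix.of N
  let X : Matrix (Fin k) (Fin k) ℝ := 1 - M.transpose * M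
  have hX : X.IsHermitian := by
    show X.conjTranspose = X
    rw [Matrix.conjTranspose_eq_transpose_of_trivial]
    simp [X, Matrix.transpose_sub, Matrix.transpose_mul]
  -- quadratic form
  have hquad : ∀ t : Fin k → ℝ, t ⬝ᵥ (X.mulVec t) =
      ∑ j, t j ^ 2 - ∑ i, (∑ j, N i j * t j) ^ 2 := by
    intro t
    have e1 : X.mulVec t = t - M.transpose.mulVec (M.mulVec t) := by
      simp [X, Matrix.sub_mulVec, Matrix.mulVec_mulVec]
    rw [e1, dotProduct_sub, Matrix.dotProduct_mulVec, Matrix.vecMul_transpose]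
    congr 1
    · simp only [dotProduct, pow_two]
    · simp only [dotProduct, Matrix.mulVec, pow_two, M, Matrix.of_apply]
  have hpsd : X.PosSemidef := by
    rw [hX.posSemidef_iff_eigenvalues_nonneg]
    intro l
    show 0 ≤ hX.eigenvalues l
    have hv := hX.mulVec_eigenvectorBasis l
    set v : Fin k → ℝ := ⇑(hX.eigenvectorBasis l) with hvdef
    set lam : ℝ := hX.eigenvalues l with hlam
    have hv0 : v ≠ 0 := by
      intro h0
      have h3 : hX.eigenvectorBasis l = 0 := by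
        ext j
        have := congrFun h0 j
        simpa [hvdef] using this
      have h4 := hX.eigenvectorBasis.orthonormal.1 l
      rw [h3] at h4
      simp at h4
    have hv' : X.mulVec v = lam • v := by simpa using hv
    -- N^T N v = (1 - lam) v
    have hNN : ∀ s : Fin k → ℝ, ∑ i, (∑ j, N i j * s j) * (∑ j, N i j * v j)
        = (1 - lam) * ∑ j, s j * v j := by
      intro s
      have e1 : s ⬝ᵥ (X.mulVec v) = s ⬝ᵥ v - (M.mulVec s) ⬝ᵥ (M.mulVec v) := by
        have e1 : X.mulVec v = v - M.transpose.mulVec (M.mulVec v) := by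
          simp [X, Matrix.sub_mulVec, Matrix.mulVec_mulVec]
        rw [e1, dotProduct_sub, Matrix.dotProduct_mulVec, Matrix.vecMul_transpose]
      rw [hv', dotProduct_smul] at e1
      have e2 : s ⬝ᵥ v = ∑ j, s j * v j := rfl
      have e3 : (M.mulVec s) ⬝ᵥ (M.mulVec v) =
          ∑ i, (∑ j, N i j * s j) * (∑ j, N i j * v j) := rfl
      rw [e2, e3, smul_eq_mul] at e1
      linarith
    have hq0 : 0 < ∑ j, (b j)⁻¹ * v j ^ 2 := by
      obtain ⟨j, hj⟩ := Function.ne_iff.1 hv0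
      refine Finset.sum_pos' (fun i _ => mul_nonneg (inv_pos.2 (hb i)).le (sq_nonneg _))
        ⟨j, Finset.mem_univ _, mul_pos (inv_pos.2 (hb j)) (by
          have hj' : v j ≠ 0 := hj
          positivity)⟩
    have c1 := hNN (fun j => (b j)⁻¹ * v j)
    have c2 := cs Finset.univ a (fun i => ∑ j, N i j * ((b j)⁻¹ * v j))
      (fun i => ∑ j, N i j * v j) ha
    have c3 := h1 (fun j => (b j)⁻¹ * v j)
    have c4 := h2 v
    have c5 : ∑ j, b j * ((b j)⁻¹ * v j) ^ 2 = ∑ j, (b j)⁻¹ * v j ^ 2 := by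
      refine Finset.sum_congr rfl fun j _ => ?_
      have := (hb j).ne'
      field_simp
    have c6 : ∑ j, (b j)⁻¹ * v j * v j = ∑ j, (b j)⁻¹ * v j ^ 2 := by
      refine Finset.sum_congr rfl fun j _ => ?_
      ring
    rw [c5] at c3
    rw [c6] at c1
    set q := ∑ j, (b j)⁻¹ * v j ^ 2 with hq
    have n1 : 0 ≤ ∑ i, a i * (∑ j, N i j * ((b j)⁻¹ * v j)) ^ 2 :=
      Finset.sum_nonneg fun i _ => mul_nonneg (ha i).le (sq_nonneg _)
    have n2 : 0 ≤ ∑ i, (a i)⁻¹ * (∑ j, N i j * v j) ^ 2 :=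
      Finset.sum_nonneg fun i _ => mul_nonneg (inv_pos.2 (ha i)).le (sq_nonneg _)
    have c7 : ((1 - lam) * q) ^ 2 ≤ q * q := by
      calc ((1 - lam) * q) ^ 2 = _ := by rw [← c1]
        _ ≤ _ := c2
        _ ≤ q * q := mul_le_mul c3 c4 n2 hq0.le
    have c8 : (1 - lam) ^ 2 ≤ 1 := by
      have h5 : (1 - lam) ^ 2 * q ^ 2 ≤ 1 * q ^ 2 := by nlinarith [c7]
      exact le_of_mul_le_mul_right h5 (by positivity)
    nlinarith [c8, abs_le_one_iff_mul_self_le_one.2 (by nlinarith [c8] : (1 - lam) * (1 - lam) ≤ 1),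
      (abs_le.1 (abs_le_one_iff_mul_self_le_one.2
        (by nlinarith [c8] : (1 - lam) * (1 - lam) ≤ 1))).2]
  intro t
  have h := hpsd.dotProduct_mulVec_nonneg t
  have h' : 0 ≤ t ⬝ᵥ (X.mulVec t) := by simpa using h
  rw [hquad] at h'
  linarith

/-- One step: multiplying by the diagonal matrices. -/
lemma step {m k : ℕ} (a : Fin m → ℝ) (b : Fin k → ℝ) (N : Fin m → Fin k → ℝ)
    (ha : ∀ i, 0 < a i) (hb : ∀ j, 0 < b j)
    (h1 : ∀ t : Fin k → ℝ, ∑ i, a i * (∑ j, N i j * t j) ^ 2 ≤ ∑ j, b j * t j ^ 2)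
    (h2 : ∀ t : Fin k → ℝ, ∑ i, (a i)⁻¹ * (∑ j, N i j * t j) ^ 2 ≤ ∑ j, (b j)⁻¹ * t j ^ 2)
    (α : Fin m → ℝ) (β : Fin k → ℝ) (e1 : ∀ j, ∑ i, N i j * α i = β j)
    (e2 : ∀ i, ∑ j, N i j * β j = α i) :
    (∀ j, ∑ i, N i j * (a i * α i) = b j * β j) ∧
      (∀ i, ∑ j, N i j * (b j * β j) = a i * α i) := by
  -- the two transposed inequalities
  have t2 := transp a b N ha hb h2
  have t1 := transp (fun i => (a i)⁻¹) (fun j => (b j)⁻¹) N (fun i => inv_pos.2 (ha i))
    (fun j => inv_pos.2 (hb j)) (by simpa only [inv_inv] using h1)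
  have q1 : ∑ i, a i * α i ^ 2 ≤ ∑ j, b j * β j ^ 2 := by
    have := h1 β
    simpa only [e2] using this
  have q2 : ∑ j, b j * β j ^ 2 ≤ ∑ i, a i * α i ^ 2 := by
    have := t2 α
    simpa only [e1] using this
  have q : ∑ i, a i * α i ^ 2 = ∑ j, b j * β j ^ 2 := le_antisymm q1 q2
  constructor
  · have s1 := t1 (fun i => a i * α i)
    have s1' : ∑ i, (a i)⁻¹ * (a i * α i) ^ 2 = ∑ i, a i * α i ^ 2 := by
      refine Finset.sum_congr rfl fun i _ => ?_
      have := (ha i).ne'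
      field_simp
    rw [s1'] at s1
    have s2 : ∑ j, (∑ i, N i j * (a i * α i)) * β j = ∑ i, a i * α i ^ 2 := by
      rw [← adj]
      refine Finset.sum_congr rfl fun i _ => ?_
      rw [e2]; ring
    have s3 : ∑ j, (b j)⁻¹ * (∑ i, N i j * (a i * α i) - b j * β j) ^ 2 =
        ∑ j, (b j)⁻¹ * (∑ i, N i j * (a i * α i)) ^ 2
          - 2 * ∑ j, (∑ i, N i j * (a i * α i)) * β j + ∑ j, b j * β j ^ 2 := by
      rw [Finset.mul_sum, ← Finset.sum_sub_distrib, ← Finset.sum_add_distrib]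
      refine Finset.sum_congr rfl fun j _ => ?_
      have := (hb j).ne'
      field_simp
      ring
    have s4 : ∑ j, (b j)⁻¹ * (∑ i, N i j * (a i * α i) - b j * β j) ^ 2 ≤ 0 := by
      rw [s3]; linarith
    have s5 := (Finset.sum_eq_zero_iff_of_nonneg (fun j _ =>
      mul_nonneg (inv_pos.2 (hb j)).le (sq_nonneg _))).1 (le_antisymm s4
        (Finset.sum_nonneg fun j _ => mul_nonneg (inv_pos.2 (hb j)).le (sq_nonneg _)))
    intro j
    have s6 := s5 j (Finset.mem_univ _)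
    rcases mul_eq_zero.1 s6 with h | h
    · exact absurd h (inv_pos.2 (hb j)).ne'
    · have := pow_eq_zero_iff (two_ne_zero) |>.1 h
      linarith
  · have s1 := h2 (fun j => b j * β j)
    have s1' : ∑ j, (b j)⁻¹ * (b j * β j) ^ 2 = ∑ j, b j * β j ^ 2 := by
      refine Finset.sum_congr rfl fun i _ => ?_
      have := (hb i).ne'
      field_simp
    rw [s1'] at s1
    have s2 : ∑ i, α i * (∑ j, N i j * (b j * β j)) = ∑ j, b j * β j ^ 2 := by
      rw [adj]
      refine Finset.sum_congr rfl fun i _ => ?_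
      rw [e1]; ring
    have s3 : ∑ i, (a i)⁻¹ * (∑ j, N i j * (b j * β j) - a i * α i) ^ 2 =
        ∑ i, (a i)⁻¹ * (∑ j, N i j * (b j * β j)) ^ 2
          - 2 * ∑ i, α i * (∑ j, N i j * (b j * β j)) + ∑ i, a i * α i ^ 2 := by
      rw [Finset.mul_sum, ← Finset.sum_sub_distrib, ← Finset.sum_add_distrib]
      refine Finset.sum_congr rfl fun i _ => ?_
      have := (ha i).ne'
      field_simp
      ring
    have s4 : ∑ i, (a i)⁻¹ * (∑ j, N i j * (b j * β j) - a i * α i) ^ 2 ≤ 0 := by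
      rw [s3]; linarith
    have s5 := (Finset.sum_eq_zero_iff_of_nonneg (fun j _ =>
      mul_nonneg (inv_pos.2 (ha j)).le (sq_nonneg _))).1 (le_antisymm s4
        (Finset.sum_nonneg fun j _ => mul_nonneg (inv_pos.2 (ha j)).le (sq_nonneg _)))
    intro i
    have s6 := s5 i (Finset.mem_univ _)
    rcases mul_eq_zero.1 s6 with h | h
    · exact absurd h (inv_pos.2 (ha i)).ne'
    · have := pow_eq_zero_iff (two_ne_zero) |>.1 h
      linarith

theorem LA : St_LA := by
  intro m k a b N α β ha hb h1 h2 e1 hn g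
  have hc := interp m k a b N ha hb h1 h2
  -- N β = α
  have e2 : ∀ i, ∑ j, N i j * β j = α i := by
    have s1 := hc β
    have s2 : ∑ i, α i * (∑ j, N i j * β j) = ∑ j, β j ^ 2 := by
      rw [adj]
      refine Finset.sum_congr rfl fun j _ => ?_
      rw [e1]; ring
    have s3 : ∑ i, (∑ j, N i j * β j - α i) ^ 2 =
        ∑ i, (∑ j, N i j * β j) ^ 2 - 2 * ∑ i, α i * (∑ j, N i j * β j) + ∑ i, α i ^ 2 := by
      rw [Finset.mul_sum, ← Finset.sum_sub_distrib, ← Finset.sum_add_distrib]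
      refine Finset.sum_congr rfl fun i _ => ?_
      ring
    have s4 : ∑ i, (∑ j, N i j * β j - α i) ^ 2 ≤ 0 := by
      rw [s3]; linarith
    have s5 := (Finset.sum_eq_zero_iff_of_nonneg (fun j _ => (sq_nonneg _))).1 (le_antisymm s4
        (Finset.sum_nonneg fun j _ => (sq_nonneg _)))
    intro i
    have s6 := s5 i (Finset.mem_univ _)
    have := pow_eq_zero_iff (two_ne_zero) |>.1 s6
    linarith
  -- powers
  have hpow : ∀ n : ℕ, (∀ j, ∑ i, N i j * (a i ^ n * α i) = b j ^ n * β j) ∧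
      (∀ i, ∑ j, N i j * (b j ^ n * β j) = a i ^ n * α i) := by
    intro n
    induction n with
    | zero => simpa using ⟨e1, e2⟩
    | succ n ih =>
      have := step a b N ha hb h1 h2 (fun i => a i ^ n * α i) (fun j => b j ^ n * β j)
        ih.1 ih.2
      refine ⟨fun j => ?_, fun i => ?_⟩
      · rw [pow_succ', mul_assoc, ← this.1 j]
        refine Finset.sum_congr rfl fun i _ => ?_
        ring
      · rw [pow_succ', mul_assoc, ← this.2 i]
        refine Finset.sum_congr rfl fun i _ => ?_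
        ring
  have hmom : ∀ n : ℕ, ∑ i, a i ^ n * α i ^ 2 = ∑ j, b j ^ n * β j ^ 2 := by
    intro n
    have s1 : ∑ i, α i * (∑ j, N i j * (b j ^ n * β j)) = ∑ j, b j ^ n * β j ^ 2 := by
      rw [adj]
      refine Finset.sum_congr rfl fun j _ => ?_
      rw [e1]; ring
    rw [← s1]
    refine Finset.sum_congr rfl fun i _ => ?_
    rw [(hpow n).2]; ring
  have hpoly : ∀ P : Polynomial ℝ, ∑ i, P.eval (a i) * α i ^ 2 = ∑ j, P.eval (b j) * β j ^ 2 := by
    intro P
    induction P using Polynomial.induction_on' with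
    | add p q hp hq =>
      simp only [Polynomial.eval_add, add_mul, Finset.sum_add_distrib, hp, hq]
    | monomial n c =>
      simp only [Polynomial.eval_monomial, mul_assoc, ← Finset.mul_sum, hmom]
  let S : Finset ℝ := Finset.univ.image a ∪ Finset.univ.image b
  let P : Polynomial ℝ := Lagrange.interpolate S id g
  have hP : ∀ x ∈ S, P.eval x = g x := by
    intro x hx
    have := Lagrange.eval_interpolate_at_node (s := S) (v := id) (i := x) g
      (Function.injective_id.injOn) hx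
    exact this
  have := hpoly P
  have l1 : ∀ i, P.eval (a i) = g (a i) := fun i => hP _ (by
    simp only [S, Finset.mem_union, Finset.mem_image, Finset.mem_univ, true_and]
    exact Or.inl ⟨i, rfl⟩)
  have l2 : ∀ j, P.eval (b j) = g (b j) := fun j => hP _ (by
    simp only [S, Finset.mem_union, Finset.mem_image, Finset.mem_univ, true_and]
    exact Or.inr ⟨j, rfl⟩)
  simpa only [l1, l2] using this

end Pool.Agent.NH64.GM.Mat

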