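import Pool.Agent.NH64.GM.Stm
import Pool.Agent.NH64.GM.Mat

/-!
GM8: comparison of frames.
-/

open scoped InnerProductSpace BigOperators

namespace Pool.Agent.NH64.GM.Comp

variable {E : Type} [NormedAddCommGroup E] [InnerProductSpace ℝ E] [FiniteDimensional ℝ E]

/-- Exchanging the two bodies. -/
lemma swap {K T : Set E} {m : ℕ} {a : Fin m → ℝ} {e f : Fin m → E} (h : Fr K T a e f) :
    Fr T K (fun i => (a i)⁻¹) e f where
  pos := fun i => inv_pos.2 (h.pos i)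
  dual := h.dual
  F1 := h.F2
  F2 := by simpa only [inv_inv] using h.F1
  F3 := by simpa only [inv_inv] using h.F4
  F4 := h.F3

/-- Points of the span of a frame lying in `K`. -/
lemma memK (hb : St_bip E) {K T : Set E} (hK : IsBody K) {m : ℕ} {a : Fin m → ℝ}
    {e f : Fin m → E} (h : Fr K T a e f) (t : Fin m → ℝ) (ht : ∑ j, a j * t j ^ 2 ≤ 1) :
    ∑ j, t j • e j ∈ K := by
  rw [← (hb K hK).1]
  intro y hy
  have h3 := h.F3 y hy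
  have e1 : ⟪y, ∑ j, t j • e j⟫_ℝ = ∑ j, t j * ⟪e j, y⟫_ℝ := by
    rw [inner_sum]
    refine Finset.sum_congr rfl fun j _ => ?_
    rw [inner_smul_right, real_inner_comm]
  have c := Mat.cs Finset.univ a t (fun j => ⟪e j, y⟫_ℝ) h.pos
  have n1 : 0 ≤ ∑ j, a j * t j ^ 2 :=
    Finset.sum_nonneg fun i _ => mul_nonneg (h.pos i).le (sq_nonneg _)
  have n2 : 0 ≤ ∑ j, (a j)⁻¹ * ⟪e j, y⟫_ℝ ^ 2 :=
    Finset.sum_nonneg fun i _ => mul_nonneg (inv_pos.2 (h.pos i)).le (sq_nonneg _)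
  rw [e1]
  have c2 : (∑ j, t j * ⟪e j, y⟫_ℝ) ^ 2 ≤ 1 := c.trans (mul_le_one₀ ht n2 h3)
  exact (abs_le.1 ((sq_le_one_iff_abs_le_one _).1 c2)).2

/-- The coordinates of `∑ t_j e'_j` in another frame. -/
lemma inner_sum_smul {m : ℕ} (e' : Fin m → E) (t : Fin m → ℝ) (y : E) :
    ⟪∑ j, t j • e' j, y⟫_ℝ = ∑ j, ⟪e' j, y⟫_ℝ * t j := by
  rw [sum_inner]
  refine Finset.sum_congr rfl fun j _ => ?_
  rw [real_inner_smul_left, mul_comm]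

lemma compK (hb : St_bip E) {K T : Set E} (hK : IsBody K) {m : ℕ} {a : Fin m → ℝ}
    {e f : Fin m → E} {k : ℕ} {b : Fin k → ℝ} {e' f' : Fin k → E}
    (h : Fr K T a e f) (h' : Fr K T b e' f') (t : Fin k → ℝ) :
    ∑ i, a i * (∑ j, ⟪e' j, f i⟫_ℝ * t j) ^ 2 ≤ ∑ j, b j * t j ^ 2 := by
  set q := ∑ j, b j * t j ^ 2 with hq
  have q0 : 0 ≤ q := Finset.sum_nonneg fun i _ => mul_nonneg (h'.pos i).le (sq_nonneg _)
  rcases q0.eq_or_lt with h0 | h0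
  · have h1 := (Finset.sum_eq_zero_iff_of_nonneg (fun j _ =>
      mul_nonneg (h'.pos j).le (sq_nonneg (t j)))).1 (hq.symm.trans h0.symm)
    have h2 : ∀ j, t j = 0 := by
      intro j
      rcases mul_eq_zero.1 (h1 j (Finset.mem_univ _)) with h3 | h3
      · exact absurd h3 (h'.pos j).ne'
      · exact pow_eq_zero_iff (two_ne_zero) |>.1 h3
    simp [h2, ← h0]
  · set s := (Real.sqrt q)⁻¹ with hs
    have hs2 : s ^ 2 * q = 1 := by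
      rw [hs, inv_pow, Real.sq_sqrt q0]
      exact inv_mul_cancel₀ h0.ne'
    have m1 : ∑ j, b j * (s * t j) ^ 2 ≤ 1 := by
      have : ∑ j, b j * (s * t j) ^ 2 = s ^ 2 * q := by
        rw [hq, Finset.mul_sum]
        refine Finset.sum_congr rfl fun j _ => by ring
      rw [this, hs2]
    have m2 := h.F1 _ (memK hb hK h' (fun j => s * t j) m1)
    have m3 : ∑ i, a i * ⟪∑ j, (s * t j) • e' j, f i⟫_ℝ ^ 2 =
        s ^ 2 * ∑ i, a i * (∑ j, ⟪e' j, f i⟫_ℝ * t j) ^ 2 := by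
      rw [Finset.mul_sum]
      refine Finset.sum_congr rfl fun i _ => ?_
      rw [inner_sum_smul]
      have : ∑ j, ⟪e' j, f i⟫_ℝ * (s * t j) = s * ∑ j, ⟪e' j, f i⟫_ℝ * t j := by
        rw [Finset.mul_sum]
        refine Finset.sum_congr rfl fun j _ => by ring
      rw [this]; ring
    rw [m3, ← hs2] at m2
    have s0 : 0 < s ^ 2 := by
      have : 0 < Real.sqrt q := Real.sqrt_pos.2 h0
      positivity
    exact le_of_mul_le_mul_left m2 s0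

theorem mem (hb : St_bip E) : St_mem E := by
  intro K T hK hT m a e f h x hx
  have key : ∀ (K T : Set E), IsBody K → IsBody T → ∀ (a : Fin m → ℝ), Fr K T a e f →
      (x ∈ K ↔ ∑ i, a i * ⟪x, f i⟫_ℝ ^ 2 ≤ 1) := by
    intro K T hK hT a h
    constructor
    · exact fun hxK => h.F1 x hxK
    · intro hs
      have := memK hb hK h (fun i => ⟪x, f i⟫_ℝ) hs
      rw [At] at hx
      rw [hx]; exact this
  exact ⟨key K T hK hT a h, key T K hT hK _ (swap h)⟩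

theorem comp (hb : St_bip E) (hi : St_interp) : St_comp E := by
  intro K T hK hT m a e f k b e' f' h h' t
  have c1 := fun t => compK hb hK h h' t
  have c2 := fun t => compK hb hT (swap h) (swap h') t
  have c3 := hi m k a b (fun i j => ⟪e' j, f i⟫_ℝ) h.pos h'.pos c1 c2
  refine ⟨c1 t, c2 t, c3 t, ?_⟩
  intro l hl
  have el : ∀ (A x y : ℝ), 0 < A → (x + y) ^ 2 / (A + l) ≤ A⁻¹ * x ^ 2 + l⁻¹ * y ^ 2 := by
    intro A x y hA
    have hAl : 0 < A + l := by positivity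
    rw [div_le_iff₀ hAl]
    have : (A⁻¹ * x ^ 2 + l⁻¹ * y ^ 2) * (A + l) - (x + y) ^ 2 =
        (l * x - A * y) ^ 2 / (A * l) := by
      field_simp
      ring
    have h2 : 0 ≤ (l * x - A * y) ^ 2 / (A * l) := by positivity
    linarith
  have s1 : ∀ i, (∑ j, ⟪e' j, f i⟫_ℝ * t j) =
      (∑ j, ⟪e' j, f i⟫_ℝ * (b j / (b j + l) * t j)) +
      (∑ j, ⟪e' j, f i⟫_ℝ * (l / (b j + l) * t j)) := by
    intro i
    rw [← Finset.sum_add_distrib]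
    refine Finset.sum_congr rfl fun j _ => ?_
    have : b j + l ≠ 0 := (add_pos (h'.pos j) hl).ne'
    field_simp
  have s2 : ∑ i, (∑ j, ⟪e' j, f i⟫_ℝ * t j) ^ 2 / (a i + l) ≤
      ∑ i, (a i)⁻¹ * (∑ j, ⟪e' j, f i⟫_ℝ * (b j / (b j + l) * t j)) ^ 2 +
      l⁻¹ * ∑ i, (∑ j, ⟪e' j, f i⟫_ℝ * (l / (b j + l) * t j)) ^ 2 := by
    rw [Finset.mul_sum, ← Finset.sum_add_distrib]
    refine Finset.sum_le_sum fun i _ => ?_
    rw [s1 i]
    exact el (a i) _ _ (h.pos i)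
  have s3 := c2 (fun j => b j / (b j + l) * t j)
  have s4 := c3 (fun j => l / (b j + l) * t j)
  have s5 : ∑ j, (b j)⁻¹ * (b j / (b j + l) * t j) ^ 2 +
      l⁻¹ * ∑ j, (l / (b j + l) * t j) ^ 2 = ∑ j, t j ^ 2 / (b j + l) := by
    rw [Finset.mul_sum, ← Finset.sum_add_distrib]
    refine Finset.sum_congr rfl fun j _ => ?_
    have hb0 : b j ≠ 0 := (h'.pos j).ne'
    have : b j + l ≠ 0 := (add_pos (h'.pos j) hl).ne'
    have hl' : l ≠ 0 := hl.ne'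
    field_simp
    try ring
  rw [← s5]
  refine s2.trans (add_le_add s3 ?_)
  exact mul_le_mul_of_nonneg_left s4 (inv_pos.2 hl).le

/-- The values read off two frames at the same point agree. -/
lemma val_aux (hb : St_bip E) (hi : St_interp) (hl : St_LA) {K T : Set E} (hK : IsBody K)
    (hT : IsBody T) {m : ℕ} {a : Fin m → ℝ} {e f : Fin m → E} {k : ℕ} {b : Fin k → ℝ}
    {e' f' : Fin k → E} (h : Fr K T a e f) (h' : Fr K T b e' f') {x : E} (hx : At e f x)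
    (hx' : At e' f' x) (g : ℝ → ℝ) :
    ∑ i, g (a i) * ⟪x, f i⟫_ℝ ^ 2 = ∑ j, g (b j) * ⟪x, f' j⟫_ℝ ^ 2 := by
  have c := comp hb hi K T hK hT m a e f k b e' f' h h'
  have c' := comp hb hi K T hK hT k b e' f' m a e f h' h
  have n1 : ∀ i, ∑ j, ⟪e' j, f i⟫_ℝ * ⟪x, f' j⟫_ℝ = ⟪x, f i⟫_ℝ := by
    intro i
    rw [← inner_sum_smul e' (fun j => ⟪x, f' j⟫_ℝ) (f i)]
    rw [At] at hx'
    rw [← hx']
  have n2 : ∀ j, ∑ i, ⟪e i, f' j⟫_ℝ * ⟪x, f i⟫_ℝ = ⟪x, f' j⟫_ℝ := by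
    intro i
    rw [← inner_sum_smul e (fun j => ⟪x, f j⟫_ℝ) (f' i)]
    rw [At] at hx
    rw [← hx]
  have i1 : ∑ i, ⟪x, f i⟫_ℝ ^ 2 ≤ ∑ j, ⟪x, f' j⟫_ℝ ^ 2 := by
    have := (c (fun j => ⟪x, f' j⟫_ℝ)).2.2.1
    simpa only [n1] using this
  have i2 : ∑ j, ⟪x, f' j⟫_ℝ ^ 2 ≤ ∑ i, ⟪x, f i⟫_ℝ ^ 2 := by
    have := (c' (fun j => ⟪x, f j⟫_ℝ)).2.2.1
    simpa only [n2] using this
  have i3 := le_antisymm i1 i2
  -- the transpose
  have t1 := Mat.transp (fun _ : Fin m => (1 : ℝ)) (fun _ : Fin k => (1 : ℝ))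
    (fun i j => ⟪e' j, f i⟫_ℝ) (fun _ => one_pos) (fun _ => one_pos)
    (fun t => by simpa using (c t).2.2.1) (fun i => ⟪x, f i⟫_ℝ)
  have t2 : ∑ j, (∑ i, ⟪e' j, f i⟫_ℝ * ⟪x, f i⟫_ℝ) ^ 2 ≤ ∑ i, ⟪x, f i⟫_ℝ ^ 2 := by
    simpa using t1
  have t3 : ∑ j, (∑ i, ⟪e' j, f i⟫_ℝ * ⟪x, f i⟫_ℝ) * ⟪x, f' j⟫_ℝ =
      ∑ i, ⟪x, f i⟫_ℝ ^ 2 := by
    rw [← Mat.adj]
    refine Finset.sum_congr rfl fun i _ => ?_
    rw [n1]; ring
  have s3 : ∑ j, (∑ i, ⟪e' j, f i⟫_ℝ * ⟪x, f i⟫_ℝ - ⟪x, f' j⟫_ℝ) ^ 2 =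
      ∑ j, (∑ i, ⟪e' j, f i⟫_ℝ * ⟪x, f i⟫_ℝ) ^ 2 -
        2 * ∑ j, (∑ i, ⟪e' j, f i⟫_ℝ * ⟪x, f i⟫_ℝ) * ⟪x, f' j⟫_ℝ +
        ∑ j, ⟪x, f' j⟫_ℝ ^ 2 := by
    rw [Finset.mul_sum, ← Finset.sum_sub_distrib, ← Finset.sum_add_distrib]
    refine Finset.sum_congr rfl fun i _ => ?_
    ring
  have s4 : ∑ j, (∑ i, ⟪e' j, f i⟫_ℝ * ⟪x, f i⟫_ℝ - ⟪x, f' j⟫_ℝ) ^ 2 ≤ 0 := by
    rw [s3]; linarith
  have s5 := (Finset.sum_eq_zero_iff_of_nonneg (fun j _ => (sq_nonneg _))).1 (le_antisymm s4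
      (Finset.sum_nonneg fun j _ => (sq_nonneg _)))
  have s6 : ∀ j, ∑ i, ⟪e' j, f i⟫_ℝ * ⟪x, f i⟫_ℝ = ⟪x, f' j⟫_ℝ := by
    intro j
    have := pow_eq_zero_iff (two_ne_zero) |>.1 (s5 j (Finset.mem_univ _))
    linarith
  exact hl m k a b (fun i j => ⟪e' j, f i⟫_ℝ) (fun i => ⟪x, f i⟫_ℝ) (fun j => ⟪x, f' j⟫_ℝ)
    h.pos h'.pos (fun t => (c t).1) (fun t => (c t).2.1) s6 i3 g

theorem val (hb : St_bip E) (hi : St_interp) (hl : St_LA) : St_val E := by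
  intro K T hK hT m a e f h x hx φ
  have hex : ∃ r : ℝ, ∃ (m : ℕ) (a : Fin m → ℝ) (e f : Fin m → E),
      Fr K T a e f ∧ At e f x ∧ r = ∑ i, φ (a i) * ⟪x, f i⟫_ℝ ^ 2 :=
    ⟨_, m, a, e, f, h, hx, rfl⟩
  have hM : Mv K T φ x = hex.choose := by
    rw [Mv, dif_pos hex]
  obtain ⟨k, b, e', f', h', hx', hr⟩ := hex.choose_spec
  rw [hM, hr]
  exact val_aux hb hi hl hK hT h' h hx' hx φ

end Pool.Agent.NH64.GM.Comp
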