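import Pool.Agent.NH64.GM.Stm

/-!
# Project GM, module GM11: convexity of `Mv`

`conv : St_conv E` from `St_comp`, `St_val`, `St_cont`, `St_dir` and `St_LA`.
-/

open scoped InnerProductSpace BigOperators Topology
open Filter

namespace Pool.Agent.NH64.GM.Conv

open Pool.Agent.NH64.GM

set_option linter.unusedSectionVars false

variable {E : Type} [NormedAddCommGroup E] [InnerProductSpace ℝ E]

theorem inner_sum {K T : Set E} {m : ℕ} {a : Fin m → ℝ} {e f : Fin m → E} (h : Fr K T a e f)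
    (t : Fin m → ℝ) (j : Fin m) : ⟪∑ i, t i • e i, f j⟫_ℝ = t j := by
  rw [_root_.sum_inner, Finset.sum_eq_single j]
  · rw [real_inner_smul_left, h.dual, if_pos rfl, mul_one]
  · intro i _ hij
    rw [real_inner_smul_left, h.dual, if_neg hij, mul_zero]
  · intro h'; exact absurd (Finset.mem_univ j) h'

theorem at_add {m : ℕ} {e f : Fin m → E} {x y : E} (hx : At e f x) (hy : At e f y) :
    At e f (x + y) := by
  unfold At at *
  conv_lhs => rw [hx, hy]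
  rw [← Finset.sum_add_distrib]
  refine Finset.sum_congr rfl (fun i _ => ?_)
  rw [_root_.inner_add_left, add_smul]

theorem at_single {K T : Set E} {m : ℕ} {a : Fin m → ℝ} {e f : Fin m → E} (h : Fr K T a e f)
    (t : ℝ) (j : Fin m) : At e f (t • e j) := by
  show t • e j = ∑ i, ⟪t • e j, f i⟫_ℝ • e i
  rw [Finset.sum_eq_single j]
  · rw [real_inner_smul_left, h.dual, if_pos rfl, mul_one]
  · intro i _ hij
    rw [real_inner_smul_left, h.dual, if_neg (Ne.symm hij), mul_zero, zero_smul]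
  · intro h'; exact absurd (Finset.mem_univ j) h'

theorem inner_at {m : ℕ} {e f : Fin m → E} {x : E} (hx : At e f x) (y : E) :
    ⟪x, y⟫_ℝ = ∑ i, ⟪x, f i⟫_ℝ * ⟪e i, y⟫_ℝ := by
  have h : x = ∑ i, ⟪x, f i⟫_ℝ • e i := hx
  conv_lhs => rw [h]
  rw [_root_.sum_inner]
  refine Finset.sum_congr rfl (fun i _ => ?_)
  rw [real_inner_smul_left]

theorem e_sq {K T : Set E} {m : ℕ} {a : Fin m → ℝ} {e f : Fin m → E} (h : Fr K T a e f)
    {y : E} (hyK : y ∈ pol K) (hyT : y ∈ pol T) : ∑ i, ⟪e i, y⟫_ℝ ^ 2 ≤ 1 := by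
  have h1 := h.F3 y hyK
  have h2 := h.F4 y hyT
  have h3 : 2 * ∑ i, ⟪e i, y⟫_ℝ ^ 2 ≤
      ∑ i, (a i)⁻¹ * ⟪e i, y⟫_ℝ ^ 2 + ∑ i, a i * ⟪e i, y⟫_ℝ ^ 2 := by
    rw [Finset.mul_sum, ← Finset.sum_add_distrib]
    refine Finset.sum_le_sum (fun i _ => ?_)
    rw [← add_mul]
    refine mul_le_mul_of_nonneg_right ?_ (sq_nonneg _)
    have h4 := h.pos i
    have h5 : (a i)⁻¹ + a i - 2 = (a i - 1) ^ 2 / a i := by
      field_simp
      ring
    have h6 : 0 ≤ (a i - 1) ^ 2 / a i := by positivity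
    linarith
  linarith

/-- `n x ≥ c ‖x‖²`. -/
theorem coercive {K T : Set E} (hK : IsBody K) (hT : IsBody T) :
    ∃ c : ℝ, 0 < c ∧ ∀ x : E, ∀ (m : ℕ) (a : Fin m → ℝ) (e f : Fin m → E), Fr K T a e f →
      At e f x → c * ‖x‖ ^ 2 ≤ ∑ i, ⟪x, f i⟫_ℝ ^ 2 := by
  obtain ⟨R₁, hR₁⟩ := hK.compact.isBounded.exists_norm_le
  obtain ⟨R₂, hR₂⟩ := hT.compact.isBounded.exists_norm_le
  obtain ⟨R, hR0, hRK, hRT⟩ : ∃ R : ℝ, 0 < R ∧ (∀ x ∈ K, ‖x‖ ≤ R) ∧ (∀ x ∈ T, ‖x‖ ≤ R) := by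
    refine ⟨max 1 (max R₁ R₂), lt_of_lt_of_le one_pos (le_max_left _ _), fun x hx => ?_,
      fun x hx => ?_⟩
    · exact (hR₁ x hx).trans ((le_max_left _ _).trans (le_max_right _ _))
    · exact (hR₂ x hx).trans ((le_max_right _ _).trans (le_max_right _ _))
  refine ⟨(R ^ 2)⁻¹, by positivity, ?_⟩
  intro x m a e f hf hx
  by_cases hx0 : x = 0
  · rw [hx0]
    simp
  have hn : 0 < ‖x‖ := norm_pos_iff.2 hx0
  obtain ⟨y, hy⟩ : ∃ y : E, y = (R * ‖x‖)⁻¹ • x := ⟨_, rfl⟩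
  have hyn : ‖y‖ = R⁻¹ := by
    rw [hy, norm_smul, Real.norm_of_nonneg (by positivity)]
    field_simp
  have hyB : ∀ z : E, ‖z‖ ≤ R → ⟪z, y⟫_ℝ ≤ 1 := by
    intro z hz
    refine (real_inner_le_norm z y).trans ?_
    rw [hyn]
    calc ‖z‖ * R⁻¹ ≤ R * R⁻¹ := mul_le_mul_of_nonneg_right hz (by positivity)
      _ = 1 := mul_inv_cancel₀ hR0.ne'
  have h1 := e_sq hf (fun z hz => hyB z (hRK z hz)) (fun z hz => hyB z (hRT z hz))
  have h2 : ⟪x, y⟫_ℝ = ‖x‖ / R := by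
    rw [hy, real_inner_smul_right, real_inner_self_eq_norm_sq]
    field_simp
  have h3 : ⟪x, y⟫_ℝ ^ 2 ≤ (∑ i, ⟪x, f i⟫_ℝ ^ 2) * ∑ i, ⟪e i, y⟫_ℝ ^ 2 := by
    rw [inner_at hx y]
    exact Finset.sum_mul_sq_le_sq_mul_sq _ _ _
  have h4 : 0 ≤ ∑ i, ⟪x, f i⟫_ℝ ^ 2 := Finset.sum_nonneg (fun i _ => sq_nonneg _)
  have h5 : (R ^ 2)⁻¹ * ‖x‖ ^ 2 = ⟪x, y⟫_ℝ ^ 2 := by
    rw [h2]
    field_simp
  rw [h5]
  exact h3.trans (mul_le_of_le_one_right h4 h1)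

theorem exists_min [FiniteDimensional ℝ E] {Φ : E → ℝ} (hΦ : Continuous Φ) (c C : ℝ)
    (hc : 0 < c) (h : ∀ x, c * ‖x‖ ^ 2 - C * ‖x‖ ≤ Φ x) : ∃ x₀, ∀ x, Φ x₀ ≤ Φ x := by
  have : ProperSpace E := FiniteDimensional.proper ℝ E
  refine hΦ.exists_forall_le ?_
  refine tendsto_atTop_mono h ?_
  have h1 : Tendsto (fun r : ℝ => c * r ^ 2 - C * r) atTop atTop := by
    have h2 : (fun r : ℝ => c * r ^ 2 - C * r) = fun r => r * (c * r + -C) := by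
      funext r
      ring
    rw [h2]
    exact tendsto_id.atTop_mul_atTop₀
      (tendsto_atTop_add_const_right _ _ (tendsto_id.const_mul_atTop hc))
  exact h1.comp tendsto_norm_cocompact_atTop

theorem quad_zero (p q : ℝ) (hq : 0 < q) (h : ∀ t : ℝ, 0 ≤ t * p + t ^ 2 * q) : p = 0 := by
  have h1 := h (-p / (2 * q))
  have h2 : -p / (2 * q) * p + (-p / (2 * q)) ^ 2 * q = -(p ^ 2 / (4 * q)) := by
    field_simp
    ring
  rw [h2] at h1
  have h3 : p ^ 2 / (4 * q) ≤ 0 := by linarith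
  have h4 : p ^ 2 ≤ 0 := by
    by_contra h5
    push Not at h5
    have : 0 < p ^ 2 / (4 * q) := by positivity
    linarith
  exact pow_eq_zero_iff (two_ne_zero) |>.1 (le_antisymm h4 (sq_nonneg p))

/-- The transpose of a contraction is a contraction. -/
theorem transpose_contr {m k : ℕ} (N : Fin m → Fin k → ℝ)
    (h : ∀ t : Fin k → ℝ, ∑ i, (∑ j, N i j * t j) ^ 2 ≤ ∑ j, t j ^ 2) (s : Fin m → ℝ) :
    ∑ j, (∑ i, N i j * s i) ^ 2 ≤ ∑ i, s i ^ 2 := by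
  set t : Fin k → ℝ := fun j => ∑ i, N i j * s i with ht
  have h1 : ∑ j, t j ^ 2 = ∑ i, s i * ∑ j, N i j * t j := by
    have h2 : ∀ j, t j ^ 2 = ∑ i, s i * (N i j * t j) := by
      intro j
      rw [sq]
      conv_lhs => rw [ht]
      show (∑ i, N i j * s i) * t j = _
      rw [Finset.sum_mul]
      exact Finset.sum_congr rfl (fun i _ => by ring)
    rw [Finset.sum_congr rfl (fun j _ => h2 j), Finset.sum_comm]
    exact Finset.sum_congr rfl (fun i _ => by rw [Finset.mul_sum])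
  have h3 := Finset.sum_mul_sq_le_sq_mul_sq Finset.univ s (fun i => ∑ j, N i j * t j)
  rw [← h1] at h3
  have h4 := h t
  have h5 : 0 ≤ ∑ i, s i ^ 2 := Finset.sum_nonneg (fun i _ => sq_nonneg _)
  have h6 : 0 ≤ ∑ j, t j ^ 2 := Finset.sum_nonneg (fun i _ => sq_nonneg _)
  have h7 : (∑ j, t j ^ 2) ^ 2 ≤ (∑ i, s i ^ 2) * ∑ j, t j ^ 2 :=
    h3.trans (mul_le_mul_of_nonneg_left h4 h5)
  show ∑ j, t j ^ 2 ≤ _
  by_contra h8
  push Not at h8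
  nlinarith

variable [FiniteDimensional ℝ E]

/-- The case of `phi` bounded below by a positive number. -/
theorem conv_pos (hc : St_comp E) (hv : St_val E) (hcont : St_cont E) (hd : St_dir E)
    (hl : St_LA) {K T : Set E} (hK : IsBody K) (hT : IsBody T) (hall : AllFr K T)
    (A₀ : ℝ) (L : Finset ℝ) (A : ℝ → ℝ) (hL : ∀ l ∈ L, 0 < l) (ε : ℝ) (hε : 0 < ε)
    (hφ : ∀ s, 0 < s → ε ≤ phi A₀ L A s)
    (m : ℕ) (a : Fin m → ℝ) (e f : Fin m → E) (hf : Fr K T a e f) (x₀ : E) (hx₀ : At e f x₀)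
    (x : E) :
    2 * ∑ i, phi A₀ L A (a i) * ⟪x₀, f i⟫_ℝ * ⟪x, f i⟫_ℝ - Mv K T (phi A₀ L A) x₀
      ≤ Mv K T (phi A₀ L A) x := by
  set φ : ℝ → ℝ := phi A₀ L A with hφd
  set M : E → ℝ := Mv K T φ with hM
  have hMv : ∀ (m : ℕ) (a : Fin m → ℝ) (e f : Fin m → E), Fr K T a e f → ∀ x, At e f x →
      M x = ∑ i, φ (a i) * ⟪x, f i⟫_ℝ ^ 2 := fun m a e f hf x hx => hv K T hK hT m a e f hf x hx φ
  set α : Fin m → ℝ := fun i => φ (a i) * ⟪x₀, f i⟫_ℝ with hα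
  set y : E := ∑ i, α i • f i with hy
  have hyx : ∀ x : E, ⟪y, x⟫_ℝ = ∑ i, φ (a i) * ⟪x₀, f i⟫_ℝ * ⟪x, f i⟫_ℝ := by
    intro x
    rw [hy, _root_.sum_inner]
    refine Finset.sum_congr rfl (fun i _ => ?_)
    rw [real_inner_smul_left, real_inner_comm]
  have hMc : Continuous M := hcont K T hK hT hall A₀ L A hL
  obtain ⟨c, hc0, hcoer⟩ := coercive hK hT
  have hMlow : ∀ x, ε * c * ‖x‖ ^ 2 ≤ M x := by
    intro x
    obtain ⟨k, b, e', f', hf', hx'⟩ := hall x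
    rw [hMv k b e' f' hf' x hx']
    calc ε * c * ‖x‖ ^ 2 = ε * (c * ‖x‖ ^ 2) := by ring
      _ ≤ ε * ∑ i, ⟪x, f' i⟫_ℝ ^ 2 :=
          mul_le_mul_of_nonneg_left (hcoer x k b e' f' hf' hx') hε.le
      _ = ∑ i, ε * ⟪x, f' i⟫_ℝ ^ 2 := by rw [Finset.mul_sum]
      _ ≤ _ := Finset.sum_le_sum (fun i _ =>
          mul_le_mul_of_nonneg_right (hφ _ (hf'.pos i)) (sq_nonneg _))
  have hΦc : Continuous (fun x : E => M x / 2 - ⟪y, x⟫_ℝ) :=
    (hMc.div_const 2).sub (continuous_const.inner continuous_id)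
  obtain ⟨xs, hxs⟩ := exists_min hΦc (ε * c / 2) ‖y‖ (by positivity) (fun x => by
    have h1 := hMlow x
    have h2 := real_inner_le_norm y x
    show ε * c / 2 * ‖x‖ ^ 2 - ‖y‖ * ‖x‖ ≤ M x / 2 - ⟪y, x⟫_ℝ
    linarith)
  obtain ⟨k, b, e', f', hf', hxs', τ, hτ0, hτ, hlim⟩ := hd K T hK hT hall xs (∑ i, α i • e i)
  set d : Fin k → ℝ := fun j => ⟪xs, f' j⟫_ℝ with hdd
  set β : Fin k → ℝ := fun j => φ (b j) * d j with hβ
  have hφb : ∀ j, 0 < φ (b j) := fun j => lt_of_lt_of_le hε (hφ _ (hf'.pos j))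
  have hφa : ∀ j, 0 < φ (a j) := fun j => lt_of_lt_of_le hε (hφ _ (hf.pos j))
  -- (1)
  have h1 : ∀ j, β j = ⟪y, e' j⟫_ℝ := by
    intro j
    have h2 : ∀ t : ℝ, M (xs + t • e' j) = M xs + 2 * t * β j + t ^ 2 * φ (b j) := by
      intro t
      rw [hMv k b e' f' hf' _ (at_add hxs' (at_single hf' t j)), hMv k b e' f' hf' xs hxs']
      have h3 : ∀ i, φ (b i) * ⟪xs + t • e' j, f' i⟫_ℝ ^ 2 = φ (b i) * ⟪xs, f' i⟫_ℝ ^ 2 +
          (if j = i then 2 * t * β j + t ^ 2 * φ (b j) else 0) := by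
        intro i
        rw [_root_.inner_add_left, real_inner_smul_left, hf'.dual]
        by_cases hij : j = i
        · rw [if_pos hij, if_pos hij, ← hij]
          show φ (b j) * (⟪xs, f' j⟫_ℝ + t * 1) ^ 2 = φ (b j) * ⟪xs, f' j⟫_ℝ ^ 2 +
            (2 * t * (φ (b j) * ⟪xs, f' j⟫_ℝ) + t ^ 2 * φ (b j))
          ring
        · rw [if_neg hij, if_neg hij]
          ring
      rw [Finset.sum_congr rfl (fun i _ => h3 i), Finset.sum_add_distrib,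
        Finset.sum_ite_eq Finset.univ j (fun _ => 2 * t * β j + t ^ 2 * φ (b j)),
        if_pos (Finset.mem_univ j)]
      ring
    have h4 := quad_zero (β j - ⟪y, e' j⟫_ℝ) (φ (b j) / 2) (by have := hφb j; linarith)
      (fun t => by
        have h5 := hxs (xs + t • e' j)
        simp only [h2 t] at h5
        rw [_root_.inner_add_right, real_inner_smul_right] at h5
        linarith)
    linarith
  -- the matrix
  set N : Fin m → Fin k → ℝ := fun i j => ⟪e' j, f i⟫_ℝ with hN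
  have hcomp := hc K T hK hT m a e f k b e' f' hf hf'
  have hβN : ∀ j, ∑ i, N i j * α i = β j := by
    intro j
    rw [h1 j, hyx]
    refine Finset.sum_congr rfl (fun i _ => ?_)
    show ⟪e' j, f i⟫_ℝ * (φ (a i) * ⟪x₀, f i⟫_ℝ) = φ (a i) * ⟪x₀, f i⟫_ℝ * ⟪e' j, f i⟫_ℝ
    ring
  have hβα : ∑ j, β j ^ 2 ≤ ∑ i, α i ^ 2 := by
    have h2 := transpose_contr N (fun t => (hcomp t).2.2.1) α
    rw [Finset.sum_congr rfl (fun j _ => by rw [hβN j])] at h2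
    exact h2
  -- (2)
  have h2 : ∑ i, α i ^ 2 ≤ ∑ j, β j * ⟪∑ i, α i • e i, f' j⟫_ℝ := by
    have h3 : ⟪y, ∑ i, α i • e i⟫_ℝ = ∑ i, α i ^ 2 := by
      rw [hyx]
      refine Finset.sum_congr rfl (fun i _ => ?_)
      rw [inner_sum hf]
      show α i * α i = _
      ring
    have h4 := hlim A₀ L A hL
    have h5 := ge_of_tendsto' h4 (fun k => by
      show 2 * ∑ i, α i ^ 2 ≤ (M (xs + τ k • ∑ i, α i • e i) - M xs) / τ k
      rw [le_div_iff₀ (hτ0 k), ← h3]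
      have h6 := hxs (xs + τ k • ∑ i, α i • e i)
      rw [_root_.inner_add_right, real_inner_smul_right] at h6
      linarith)
    have h7 : ∑ j, β j * ⟪∑ i, α i • e i, f' j⟫_ℝ =
        ∑ i, phi A₀ L A (b i) * ⟪xs, f' i⟫_ℝ * ⟪∑ i, α i • e i, f' i⟫_ℝ := rfl
    rw [h7]
    linarith
  have h3 : ∑ j, ⟪∑ i, α i • e i, f' j⟫_ℝ ^ 2 ≤ ∑ i, α i ^ 2 := by
    have h4 := (hc K T hK hT k b e' f' m a e f hf' hf α).2.2.1
    refine le_trans (le_of_eq ?_) h4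
    refine Finset.sum_congr rfl (fun j _ => ?_)
    congr 1
    rw [_root_.sum_inner]
    refine Finset.sum_congr rfl (fun i _ => ?_)
    rw [real_inner_smul_left, mul_comm]
  have h4 : ∑ i, α i ^ 2 = ∑ j, β j ^ 2 := by
    have h5 := Finset.sum_mul_sq_le_sq_mul_sq Finset.univ β (fun j => ⟪∑ i, α i • e i, f' j⟫_ℝ)
    have h6 : 0 ≤ ∑ i, α i ^ 2 := Finset.sum_nonneg (fun i _ => sq_nonneg _)
    have h7 : 0 ≤ ∑ j, β j ^ 2 := Finset.sum_nonneg (fun i _ => sq_nonneg _)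
    refine le_antisymm ?_ hβα
    have h8 : (∑ i, α i ^ 2) ^ 2 ≤ (∑ j, β j ^ 2) * ∑ i, α i ^ 2 := by
      refine le_trans ?_ (h5.trans (mul_le_mul_of_nonneg_left h3 h7))
      exact pow_le_pow_left₀ h6 h2 2
    by_contra h9
    push Not at h9
    nlinarith
  -- (3)
  have h5 := hl m k a b N α β hf.pos hf'.pos (fun t => (hcomp t).1) (fun t => (hcomp t).2.1)
    hβN h4 (fun s => (φ s)⁻¹)
  have h6 : ∑ i, (φ (a i))⁻¹ * α i ^ 2 = M x₀ := by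
    rw [hMv m a e f hf x₀ hx₀]
    refine Finset.sum_congr rfl (fun i _ => ?_)
    show (φ (a i))⁻¹ * (φ (a i) * ⟪x₀, f i⟫_ℝ) ^ 2 = _
    have := (hφa i).ne'
    field_simp
  have h7 : ∑ j, (φ (b j))⁻¹ * β j ^ 2 = M xs := by
    rw [hMv k b e' f' hf' xs hxs']
    refine Finset.sum_congr rfl (fun i _ => ?_)
    show (φ (b i))⁻¹ * (φ (b i) * ⟪xs, f' i⟫_ℝ) ^ 2 = _
    have := (hφb i).ne'
    field_simp
  have h8 : ⟪y, xs⟫_ℝ = M xs := by
    rw [real_inner_comm, inner_at hxs' y, hMv k b e' f' hf' xs hxs']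
    refine Finset.sum_congr rfl (fun i _ => ?_)
    rw [real_inner_comm y (e' i), ← h1 i]
    show ⟪xs, f' i⟫_ℝ * (φ (b i) * ⟪xs, f' i⟫_ℝ) = _
    ring
  have h9 := hxs x
  rw [h8] at h9
  rw [hyx] at h9
  have h10 : M x₀ = M xs := by rw [← h6, ← h7]; exact h5
  linarith

theorem conv (hc : St_comp E) (hv : St_val E) (hcont : St_cont E) (hd : St_dir E)
    (hl : St_LA) : St_conv E := by
  intro K T hK hT hall A₀ L A hL hφ m a e f hf x₀ hx₀ x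
  have hMval : ∀ (ε : ℝ) (m : ℕ) (a : Fin m → ℝ) (e f : Fin m → E), Fr K T a e f →
      ∀ x, At e f x → Mv K T (phi (A₀ + ε) L A) x = Mv K T (phi A₀ L A) x +
        ε * ∑ i, ⟪x, f i⟫_ℝ ^ 2 := by
    intro ε m a e f hf x hx
    rw [hv K T hK hT m a e f hf x hx, hv K T hK hT m a e f hf x hx, Finset.mul_sum,
      ← Finset.sum_add_distrib]
    refine Finset.sum_congr rfl (fun i _ => ?_)
    unfold phi
    ring
  obtain ⟨k, b, e', f', hf', hx'⟩ := hall x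
  set B : ℝ := 2 * (∑ i, ⟪x₀, f i⟫_ℝ * ⟪x, f i⟫_ℝ) - (∑ i, ⟪x₀, f i⟫_ℝ ^ 2) -
    ∑ i, ⟪x, f' i⟫_ℝ ^ 2 with hB
  have key : ∀ ε : ℝ, 0 < ε →
      (2 * ∑ i, phi A₀ L A (a i) * ⟪x₀, f i⟫_ℝ * ⟪x, f i⟫_ℝ - Mv K T (phi A₀ L A) x₀ -
        Mv K T (phi A₀ L A) x) + ε * B ≤ 0 := by
    intro ε hε
    have h1 := conv_pos hc hv hcont hd hl hK hT hall (A₀ + ε) L A hL ε hε (fun s hs => by
      have h2 := hφ s hs
      unfold phi at *
      linarith) m a e f hf x₀ hx₀ x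
    rw [hMval ε m a e f hf x₀ hx₀, hMval ε k b e' f' hf' x hx'] at h1
    have h3 : ∑ i, phi (A₀ + ε) L A (a i) * ⟪x₀, f i⟫_ℝ * ⟪x, f i⟫_ℝ =
        ∑ i, phi A₀ L A (a i) * ⟪x₀, f i⟫_ℝ * ⟪x, f i⟫_ℝ +
          ε * ∑ i, ⟪x₀, f i⟫_ℝ * ⟪x, f i⟫_ℝ := by
      rw [Finset.mul_sum, ← Finset.sum_add_distrib]
      refine Finset.sum_congr rfl (fun i _ => ?_)
      unfold phi
      ring
    rw [h3] at h1
    rw [hB]
    linarith
  have h4 : Tendsto (fun ε : ℝ => (2 * ∑ i, phi A₀ L A (a i) * ⟪x₀, f i⟫_ℝ * ⟪x, f i⟫_ℝ -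
      Mv K T (phi A₀ L A) x₀ - Mv K T (phi A₀ L A) x) + ε * B) (𝓝[>] 0)
      (𝓝 ((2 * ∑ i, phi A₀ L A (a i) * ⟪x₀, f i⟫_ℝ * ⟪x, f i⟫_ℝ -
      Mv K T (phi A₀ L A) x₀ - Mv K T (phi A₀ L A) x) + 0 * B)) :=
    (tendsto_const_nhds.add ((tendsto_id.mul_const B))).mono_left nhdsWithin_le_nhds
  have h5 := le_of_tendsto h4 (eventually_nhdsWithin_of_forall (fun ε hε => key ε hε))
  linarith

end Pool.Agent.NH64.GM.Conv
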