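import Pool.Agent.NH64.GM.Stm

/-!
# Project GM, module GM9: compactness of frames

`cpt : St_cpt E`.
-/

open scoped InnerProductSpace BigOperators Topology
open Filter

namespace Pool.Agent.NH64.GM.Cpt

open Pool.Agent.NH64.GM

set_option linter.unusedSectionVars false

variable {E : Type} [NormedAddCommGroup E] [InnerProductSpace ℝ E]

/-- Bounds for frames. -/
theorem bounds {K T : Set E} (hK : IsBody K) (hT : IsBody T) : ∃ r : ℝ, 0 < r ∧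
    ∀ (m : ℕ) (a : Fin m → ℝ) (e f : Fin m → E), Fr K T a e f →
      ∀ i, ‖e i‖ ≤ r⁻¹ ∧ ‖f i‖ ≤ r⁻¹ ∧ r ^ 4 ≤ a i ∧ a i ≤ (r ^ 4)⁻¹ := by
  obtain ⟨R₁, hR₁⟩ := hK.compact.isBounded.exists_norm_le
  obtain ⟨R₂, hR₂⟩ := hT.compact.isBounded.exists_norm_le
  obtain ⟨s₁, hs₁, hb₁⟩ := Metric.isOpen_iff.1 isOpen_interior 0 hK.zero_mem
  obtain ⟨s₂, hs₂, hb₂⟩ := Metric.isOpen_iff.1 isOpen_interior 0 hT.zero_mem
  obtain ⟨R, hR0, hRK, hRT⟩ : ∃ R : ℝ, 0 < R ∧ (∀ x ∈ K, ‖x‖ ≤ R) ∧ (∀ x ∈ T, ‖x‖ ≤ R) := by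
    refine ⟨max 1 (max R₁ R₂), lt_of_lt_of_le one_pos (le_max_left _ _), fun x hx => ?_,
      fun x hx => ?_⟩
    · exact (hR₁ x hx).trans ((le_max_left _ _).trans (le_max_right _ _))
    · exact (hR₂ x hx).trans ((le_max_right _ _).trans (le_max_right _ _))
  obtain ⟨r, hr⟩ : ∃ r : ℝ, r = min (min (s₁ / 2) (s₂ / 2)) R⁻¹ := ⟨_, rfl⟩
  have hr0 : 0 < r := by
    rw [hr]
    exact lt_min (lt_min (by linarith) (by linarith)) (by positivity)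
  have h1 : ∀ x : E, ‖x‖ ≤ r → x ∈ K := by
    intro x hx
    refine interior_subset (hb₁ ?_)
    rw [Metric.mem_ball, dist_zero_right]
    have : r ≤ s₁ / 2 := by rw [hr]; exact (min_le_left _ _).trans (min_le_left _ _)
    linarith
  have h2 : ∀ x : E, ‖x‖ ≤ r → x ∈ T := by
    intro x hx
    refine interior_subset (hb₂ ?_)
    rw [Metric.mem_ball, dist_zero_right]
    have : r ≤ s₂ / 2 := by rw [hr]; exact (min_le_left _ _).trans (min_le_right _ _)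
    linarith
  have hin : ∀ x y : E, ‖x‖ ≤ R → ‖y‖ ≤ r → ⟪x, y⟫_ℝ ≤ 1 := by
    intro x y hx hy
    have hrR : r ≤ R⁻¹ := by rw [hr]; exact min_le_right _ _
    calc ⟪x, y⟫_ℝ ≤ ‖x‖ * ‖y‖ := real_inner_le_norm x y
      _ ≤ R * R⁻¹ := mul_le_mul hx (hy.trans hrR) (norm_nonneg _) hR0.le
      _ = 1 := mul_inv_cancel₀ hR0.ne'
  have h3 : ∀ y : E, ‖y‖ ≤ r → y ∈ pol K := fun y hy x hx => hin x y (hRK x hx) hy
  have h4 : ∀ y : E, ‖y‖ ≤ r → y ∈ pol T := fun y hy x hx => hin x y (hRT x hx) hy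
  refine ⟨r, hr0, ?_⟩
  intro m a e f hf i
  have ha := hf.pos i
  -- general estimate
  have gen : ∀ (b : Fin m → ℝ) (g : Fin m → E), (∀ j, 0 < b j) →
      (∀ x : E, ‖x‖ ≤ r → ∑ j, b j * ⟪x, g j⟫_ℝ ^ 2 ≤ 1) → b i * (r ^ 2 * ‖g i‖ ^ 2) ≤ 1 := by
    intro b g hb hg
    by_cases h0 : g i = 0
    · rw [h0]
      simp
    have hn : 0 < ‖g i‖ := norm_pos_iff.2 h0
    have h5 := hg ((r * ‖g i‖⁻¹) • g i) (by
      rw [norm_smul, Real.norm_of_nonneg (by positivity)]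
      have : r * ‖g i‖⁻¹ * ‖g i‖ = r := by field_simp
      rw [this])
    have h6 := Finset.single_le_sum (f := fun j => b j * ⟪(r * ‖g i‖⁻¹) • g i, g j⟫_ℝ ^ 2)
      (fun j _ => mul_nonneg (hb j).le (sq_nonneg _)) (Finset.mem_univ i)
    have h7 : b i * ⟪(r * ‖g i‖⁻¹) • g i, g i⟫_ℝ ^ 2 = b i * (r ^ 2 * ‖g i‖ ^ 2) := by
      rw [real_inner_smul_left, real_inner_self_eq_norm_sq]
      field_simp
    rw [← h7]
    exact h6.trans h5
  have g1 := gen a f hf.pos (fun x hx => hf.F1 x (h1 x hx))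
  have g2 := gen (fun j => (a j)⁻¹) f (fun j => inv_pos.2 (hf.pos j))
    (fun x hx => hf.F2 x (h2 x hx))
  have g3 := gen (fun j => (a j)⁻¹) e (fun j => inv_pos.2 (hf.pos j))
    (fun x hx => by
      refine le_trans (le_of_eq ?_) (hf.F3 x (h3 x hx))
      exact Finset.sum_congr rfl (fun j _ => by rw [real_inner_comm]))
  have g4 := gen a e hf.pos
    (fun x hx => by
      refine le_trans (le_of_eq ?_) (hf.F4 x (h4 x hx))
      exact Finset.sum_congr rfl (fun j _ => by rw [real_inner_comm]))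
  have key : ∀ g : E, a i * (r ^ 2 * ‖g‖ ^ 2) ≤ 1 → (a i)⁻¹ * (r ^ 2 * ‖g‖ ^ 2) ≤ 1 →
      ‖g‖ ≤ r⁻¹ := by
    intro g k1 k2
    have k3 : (r ^ 2 * ‖g‖ ^ 2) ^ 2 ≤ 1 := by
      have : (r ^ 2 * ‖g‖ ^ 2) ^ 2 =
          (a i * (r ^ 2 * ‖g‖ ^ 2)) * ((a i)⁻¹ * (r ^ 2 * ‖g‖ ^ 2)) := by field_simp
      rw [this]
      exact mul_le_one₀ k1 (by positivity) k2
    have k4 : r * ‖g‖ ≤ 1 := by
      by_contra h
      push Not at h
      have h8 : 1 < (r * ‖g‖) ^ 4 := one_lt_pow₀ h (by norm_num)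
      have h9 : (r * ‖g‖) ^ 4 = (r ^ 2 * ‖g‖ ^ 2) ^ 2 := by ring
      linarith
    calc ‖g‖ = r⁻¹ * (r * ‖g‖) := by field_simp
      _ ≤ r⁻¹ * 1 := mul_le_mul_of_nonneg_left k4 (by positivity)
      _ = r⁻¹ := mul_one _
  have ke := key (e i) g4 g3
  have kf := key (f i) g1 g2
  have hef : 1 ≤ ‖e i‖ * ‖f i‖ := by
    have := real_inner_le_norm (e i) (f i)
    rw [hf.dual, if_pos rfl] at this
    exact this
  have hfr : r ≤ ‖f i‖ := by
    have h5 : ‖e i‖ * ‖f i‖ ≤ r⁻¹ * ‖f i‖ := mul_le_mul_of_nonneg_right ke (norm_nonneg _)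
    have h6 : 1 ≤ r⁻¹ * ‖f i‖ := hef.trans h5
    calc r = r * 1 := (mul_one r).symm
      _ ≤ r * (r⁻¹ * ‖f i‖) := mul_le_mul_of_nonneg_left h6 hr0.le
      _ = ‖f i‖ := by field_simp
  have h5 : r ^ 4 ≤ r ^ 2 * ‖f i‖ ^ 2 := by
    have : r ^ 2 ≤ ‖f i‖ ^ 2 := pow_le_pow_left₀ hr0.le hfr 2
    nlinarith [sq_nonneg r]
  refine ⟨ke, kf, ?_, ?_⟩
  · have h6 : (a i)⁻¹ * r ^ 4 ≤ 1 :=
      (mul_le_mul_of_nonneg_left h5 (inv_pos.2 ha).le).trans g2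
    calc r ^ 4 = a i * ((a i)⁻¹ * r ^ 4) := by field_simp
      _ ≤ a i * 1 := mul_le_mul_of_nonneg_left h6 ha.le
      _ = a i := mul_one _
  · have h6 : a i * r ^ 4 ≤ 1 := (mul_le_mul_of_nonneg_left h5 ha.le).trans g1
    calc a i = (a i * r ^ 4) * (r ^ 4)⁻¹ := by field_simp
      _ ≤ 1 * (r ^ 4)⁻¹ := mul_le_mul_of_nonneg_right h6 (by positivity)
      _ = (r ^ 4)⁻¹ := one_mul _

variable [FiniteDimensional ℝ E]

/-- A frame has at most `dim E` vectors. -/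
theorem card_le {K T : Set E} {m : ℕ} {a : Fin m → ℝ} {e f : Fin m → E} (h : Fr K T a e f) :
    m ≤ Module.finrank ℝ E := by
  have hli : LinearIndependent ℝ e := by
    rw [Fintype.linearIndependent_iff]
    intro g hg i
    have h1 : ⟪∑ j, g j • e j, f i⟫_ℝ = g i := by
      rw [_root_.sum_inner, Finset.sum_eq_single i]
      · rw [real_inner_smul_left, h.dual, if_pos rfl, mul_one]
      · intro j _ hij
        rw [real_inner_smul_left, h.dual, if_neg hij, mul_zero]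
      · intro h'; exact absurd (Finset.mem_univ i) h'
    rw [hg, _root_.inner_zero_left] at h1
    exact h1.symm
  have := hli.fintype_card_le_finrank
  simpa using this

theorem cpt : St_cpt E := by
  intro K T hK hT hall x x₀ hx
  obtain ⟨r, hr0, hbd⟩ := bounds hK hT
  choose m a e f hfr hat using fun k => hall (x k)
  -- a value of `m` which occurs infinitely often
  obtain ⟨M, hM⟩ : ∃ M : ℕ, ∃ᶠ k in atTop, m k = M := by
    by_contra hcon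
    push Not at hcon
    have h1 : ∀ M ∈ Finset.range (Module.finrank ℝ E + 1), ∀ᶠ k in atTop, m k ≠ M := by
      intro M _
      have h2 := hcon M
      exact h2
    have h2 := (Finset.eventually_all (Finset.range (Module.finrank ℝ E + 1))).2 h1
    obtain ⟨k, hk⟩ := h2.exists
    exact hk (m k) (Finset.mem_range.2 (Nat.lt_succ_of_le (card_le (hfr k)))) rfl
  obtain ⟨ψ₁, hψ₁, hmψ⟩ := extraction_of_frequently_atTop hM
  have hex : ∀ k, ∃ (a' : Fin M → ℝ) (e' f' : Fin M → E), Fr K T a' e' f' ∧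
      At e' f' (x (ψ₁ k)) := by
    intro k
    have h1 : ∃ (a' : Fin (m (ψ₁ k)) → ℝ) (e' f' : Fin (m (ψ₁ k)) → E), Fr K T a' e' f' ∧
      At e' f' (x (ψ₁ k)) := ⟨_, _, _, hfr (ψ₁ k), hat (ψ₁ k)⟩
    rw [hmψ k] at h1
    exact h1
  choose a' e' f' hfr' hat' using hex
  have : ProperSpace E := FiniteDimensional.proper ℝ E
  have hcpt : IsCompact ((Set.pi Set.univ fun _ : Fin M => Set.Icc (r ^ 4) (r ^ 4)⁻¹) ×ˢ
      ((Set.pi Set.univ fun _ : Fin M => Metric.closedBall (0 : E) r⁻¹) ×ˢ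
        (Set.pi Set.univ fun _ : Fin M => Metric.closedBall (0 : E) r⁻¹))) :=
    (isCompact_univ_pi fun _ => isCompact_Icc).prod
      ((isCompact_univ_pi fun _ => isCompact_closedBall _ _).prod
        (isCompact_univ_pi fun _ => isCompact_closedBall _ _))
  obtain ⟨⟨a₀, e₀, f₀⟩, hmem, ψ₂, hψ₂, hlim⟩ := hcpt.tendsto_subseq
    (x := fun k => (a' k, e' k, f' k)) (fun k => by
      refine ⟨fun i _ => ?_, fun i _ => ?_, fun i _ => ?_⟩
      · exact ⟨(hbd M _ _ _ (hfr' k) i).2.2.1, (hbd M _ _ _ (hfr' k) i).2.2.2⟩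
      · show e' k i ∈ Metric.closedBall (0 : E) r⁻¹
        rw [Metric.mem_closedBall, dist_zero_right]
        exact (hbd M _ _ _ (hfr' k) i).1
      · show f' k i ∈ Metric.closedBall (0 : E) r⁻¹
        rw [Metric.mem_closedBall, dist_zero_right]
        exact (hbd M _ _ _ (hfr' k) i).2.1)
  have ha : Tendsto (fun k => a' (ψ₂ k)) atTop (𝓝 a₀) := (continuous_fst.tendsto _).comp hlim
  have he : Tendsto (fun k => e' (ψ₂ k)) atTop (𝓝 e₀) :=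
    ((continuous_fst.comp continuous_snd).tendsto _).comp hlim
  have hf : Tendsto (fun k => f' (ψ₂ k)) atTop (𝓝 f₀) :=
    ((continuous_snd.comp continuous_snd).tendsto _).comp hlim
  have ha' : ∀ i, Tendsto (fun k => a' (ψ₂ k) i) atTop (𝓝 (a₀ i)) := tendsto_pi_nhds.1 ha
  have he' : ∀ i, Tendsto (fun k => e' (ψ₂ k) i) atTop (𝓝 (e₀ i)) := tendsto_pi_nhds.1 he
  have hf' : ∀ i, Tendsto (fun k => f' (ψ₂ k) i) atTop (𝓝 (f₀ i)) := tendsto_pi_nhds.1 hf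
  have ha0 : ∀ i, 0 < a₀ i := fun i =>
    lt_of_lt_of_le (by positivity) ((hmem.1 i (Set.mem_univ i)).1)
  have hainv : ∀ i, Tendsto (fun k => (a' (ψ₂ k) i)⁻¹) atTop (𝓝 (a₀ i)⁻¹) := fun i =>
    (ha' i).inv₀ (ha0 i).ne'
  have hxx : Tendsto (fun k => x (ψ₁ (ψ₂ k))) atTop (𝓝 x₀) :=
    hx.comp (hψ₁.comp hψ₂).tendsto_atTop
  refine ⟨M, fun k => a' (ψ₂ k), fun k => e' (ψ₂ k), fun k => f' (ψ₂ k), a₀, e₀, f₀, ψ₁ ∘ ψ₂,
    hψ₁.comp hψ₂, fun k => ⟨hfr' (ψ₂ k), hat' (ψ₂ k)⟩, ⟨ha0, ?_, ?_, ?_, ?_, ?_⟩, ?_, ha, he, hf⟩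
  · intro i j
    have h1 : Tendsto (fun k => ⟪e' (ψ₂ k) i, f' (ψ₂ k) j⟫_ℝ) atTop (𝓝 ⟪e₀ i, f₀ j⟫_ℝ) :=
      (he' i).inner (hf' j)
    have h2 : (fun k => ⟪e' (ψ₂ k) i, f' (ψ₂ k) j⟫_ℝ) = fun _ => if i = j then (1 : ℝ) else 0 := by
      funext k
      exact (hfr' (ψ₂ k)).dual i j
    rw [h2] at h1
    exact tendsto_nhds_unique h1 tendsto_const_nhds
  · intro y hy
    refine le_of_tendsto' (tendsto_finsetSum _ (fun i _ =>
      (ha' i).mul ((tendsto_const_nhds.inner (hf' i)).pow 2))) (fun k => (hfr' (ψ₂ k)).F1 y hy)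
  · intro y hy
    refine le_of_tendsto' (tendsto_finsetSum _ (fun i _ =>
      (hainv i).mul ((tendsto_const_nhds.inner (hf' i)).pow 2))) (fun k => (hfr' (ψ₂ k)).F2 y hy)
  · intro y hy
    refine le_of_tendsto' (tendsto_finsetSum _ (fun i _ =>
      (hainv i).mul (((he' i).inner tendsto_const_nhds).pow 2))) (fun k => (hfr' (ψ₂ k)).F3 y hy)
  · intro y hy
    refine le_of_tendsto' (tendsto_finsetSum _ (fun i _ =>
      (ha' i).mul (((he' i).inner tendsto_const_nhds).pow 2))) (fun k => (hfr' (ψ₂ k)).F4 y hy)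
  · have h1 : Tendsto (fun k => ∑ i, ⟪x (ψ₁ (ψ₂ k)), f' (ψ₂ k) i⟫_ℝ • e' (ψ₂ k) i) atTop
        (𝓝 (∑ i, ⟪x₀, f₀ i⟫_ℝ • e₀ i)) :=
      tendsto_finsetSum _ (fun i _ => (hxx.inner (hf' i)).smul (he' i))
    have h2 : (fun k => ∑ i, ⟪x (ψ₁ (ψ₂ k)), f' (ψ₂ k) i⟫_ℝ • e' (ψ₂ k) i) =
        fun k => x (ψ₁ (ψ₂ k)) := by
      funext k
      exact (hat' (ψ₂ k)).symm
    rw [h2] at h1
    exact tendsto_nhds_unique hxx h1

end Pool.Agent.NH64.GM.Cpt
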