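import Pool.Agent.NH64.GM.Stm

/-!
# Project GM, module GM12: the decomposition

`decomp : St_decomp E` from `St_mem`, `St_comp`, `St_val` and `St_conv`.
-/

open scoped InnerProductSpace BigOperators Topology
open Filter

namespace Pool.Agent.NH64.GM.Decomp

open Pool.Agent.NH64.GM

/-! ### Functions `phi` with prescribed zeros -/

/-- Multiplication of `phi A₀ L C` by `1 - c/(s+l)`. -/
theorem mulstep (A₀ : ℝ) (L : Finset ℝ) (C : ℝ → ℝ) (l c : ℝ) (hl : 0 < l)
    (hL : ∀ m ∈ L, 0 < m) (hlL : l ∉ L) :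
    ∃ C' : ℝ → ℝ, ∀ s, 0 < s →
      phi A₀ (insert l L) C' s = phi A₀ L C s * (1 - c / (s + l)) := by
  classical
  refine ⟨fun m => if m = l then -c * A₀ + ∑ m ∈ L, c * C m / (l - m)
    else C m - c * C m / (l - m), ?_⟩
  intro s hs
  have h1 : ∑ m ∈ L, (if m = l then -c * A₀ + ∑ m ∈ L, c * C m / (l - m)
      else C m - c * C m / (l - m)) / (s + m) =
      ∑ m ∈ L, (C m - c * C m / (l - m)) / (s + m) := by
    refine Finset.sum_congr rfl (fun m hm => ?_)
    rw [if_neg (fun h : m = l => hlL (h ▸ hm))]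
  show A₀ + ∑ m ∈ insert l L, (if m = l then -c * A₀ + ∑ m ∈ L, c * C m / (l - m)
      else C m - c * C m / (l - m)) / (s + m) = _
  rw [Finset.sum_insert hlL, if_pos rfl, h1]
  unfold phi
  have h2 : ∑ m ∈ L, (C m - c * C m / (l - m)) / (s + m) =
      ∑ m ∈ L, C m / (s + m) * (1 - c / (s + l)) - (∑ m ∈ L, c * C m / (l - m)) / (s + l) := by
    rw [Finset.sum_div, ← Finset.sum_sub_distrib]
    refine Finset.sum_congr rfl (fun m hm => ?_)
    have hm0 := hL m hm
    have h3 : l - m ≠ 0 := sub_ne_zero.2 (fun h => hlL (h ▸ hm))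
    have h4 : s + m ≠ 0 := by positivity
    have h5 : s + l ≠ 0 := by positivity
    field_simp
    ring
  rw [h2, add_mul, Finset.sum_mul]
  ring

/-- For every finite set there is a nonnegative `phi` vanishing exactly on it. -/
theorem ex_phi (A : Finset ℝ) : ∃ (L : Finset ℝ) (C : ℝ → ℝ), (∀ l ∈ L, 0 < l) ∧
    ∀ s, 0 < s → 0 ≤ phi 1 L C s ∧ (phi 1 L C s = 0 ↔ s ∈ A) := by
  classical
  induction A using Finset.induction_on with
  | empty => exact ⟨∅, fun _ => 0, by simp, fun s _ => by simp [phi]⟩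
  | insert al A _ ih =>
    obtain ⟨L, C, hL, h⟩ := ih
    have hsum : ∀ m ∈ L, m ≤ ∑ m ∈ L, m := fun m hm =>
      Finset.single_le_sum (f := fun m => m) (fun i hi => (hL i hi).le) hm
    have hs0 : 0 ≤ ∑ m ∈ L, m := Finset.sum_nonneg (fun i hi => (hL i hi).le)
    obtain ⟨l, hl⟩ : ∃ l, l = 1 + ∑ m ∈ L, m := ⟨_, rfl⟩
    have hl0 : 0 < l := by rw [hl]; linarith
    have hlL : l ∉ L := by
      intro h1
      have h2 := hsum l h1
      rw [hl] at h2
      linarith
    obtain ⟨C₁, hC₁⟩ := mulstep 1 L C l (al + l) hl0 hL hlL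
    have hL₁ : ∀ m ∈ insert l L, 0 < m := by
      intro m hm
      rcases Finset.mem_insert.1 hm with h1 | h1
      · rw [h1]; exact hl0
      · exact hL m h1
    have hl1L : l + 1 ∉ insert l L := by
      intro h1
      rcases Finset.mem_insert.1 h1 with h2 | h2
      · linarith
      · have h3 := hsum _ h2
        rw [hl] at h3
        linarith
    obtain ⟨C₂, hC₂⟩ := mulstep 1 (insert l L) C₁ (l + 1) (al + (l + 1)) (by linarith) hL₁ hl1L
    refine ⟨insert (l + 1) (insert l L), C₂, ?_, ?_⟩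
    · intro m hm
      rcases Finset.mem_insert.1 hm with h1 | h1
      · rw [h1]; linarith
      · exact hL₁ m h1
    · intro s hs
      have e1 : phi 1 (insert (l + 1) (insert l L)) C₂ s =
          phi 1 L C s * ((s - al) ^ 2 * ((s + l) * (s + (l + 1)))⁻¹) := by
        rw [hC₂ s hs, hC₁ s hs]
        have h4 : s + l ≠ 0 := by positivity
        have h5 : s + (l + 1) ≠ 0 := by positivity
        field_simp
        ring
      obtain ⟨h6, h7⟩ := h s hs
      have h8 : 0 < ((s + l) * (s + (l + 1)))⁻¹ := by positivity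
      refine ⟨?_, ?_⟩
      · rw [e1]; positivity
      · rw [e1, mul_eq_zero, mul_eq_zero, h7, Finset.mem_insert]
        constructor
        · rintro (h9 | h9 | h9)
          · exact Or.inr h9
          · left
            have := pow_eq_zero_iff (two_ne_zero) |>.1 h9
            linarith
          · exact absurd h9 h8.ne'
        · rintro (h9 | h9)
          · right; left; rw [h9]; ring
          · exact Or.inl h9

/-! ### Frames -/

variable {E : Type} [NormedAddCommGroup E] [InnerProductSpace ℝ E]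

theorem inner_sum {K T : Set E} {m : ℕ} {a : Fin m → ℝ} {e f : Fin m → E} (h : Fr K T a e f)
    (t : Fin m → ℝ) (j : Fin m) : ⟪∑ i, t i • e i, f j⟫_ℝ = t j := by
  rw [_root_.sum_inner, Finset.sum_eq_single j]
  · rw [real_inner_smul_left, h.dual, if_pos rfl, mul_one]
  · intro i _ hij
    rw [real_inner_smul_left, h.dual, if_neg hij, mul_zero]
  · intro h'; exact absurd (Finset.mem_univ j) h'

theorem at_sum {K T : Set E} {m : ℕ} {a : Fin m → ℝ} {e f : Fin m → E} (h : Fr K T a e f)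
    (t : Fin m → ℝ) : At e f (∑ i, t i • e i) := by
  show ∑ i, t i • e i = ∑ j, ⟪∑ i, t i • e i, f j⟫_ℝ • e j
  refine Finset.sum_congr rfl (fun j _ => ?_)
  rw [inner_sum h]

theorem at_smul {m : ℕ} {e f : Fin m → E} {x : E} (h : At e f x) (c : ℝ) : At e f (c • x) := by
  unfold At at *
  conv_lhs => rw [h]
  rw [Finset.smul_sum]
  refine Finset.sum_congr rfl (fun i _ => ?_)
  rw [real_inner_smul_left, smul_smul]

/-- All coefficients of `x` at indices with `a i ∉ A` vanish, in every frame at `x`. -/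
def InV (K T : Set E) (A : Finset ℝ) (x : E) : Prop :=
  ∀ (m : ℕ) (a : Fin m → ℝ) (e f : Fin m → E), Fr K T a e f → At e f x →
    ∀ i, a i ∉ A → ⟪x, f i⟫_ℝ = 0

variable [FiniteDimensional ℝ E]

set_option linter.unusedSectionVars false

theorem sum_zero {A : Finset ℝ} {φ : ℝ → ℝ} (hφ : ∀ s, 0 < s → 0 ≤ φ s ∧ (φ s = 0 ↔ s ∈ A))
    {m : ℕ} (a c : Fin m → ℝ) (ha : ∀ i, 0 < a i) (h : ∑ i, φ (a i) * c i ^ 2 ≤ 0) :
    ∀ i, a i ∉ A → c i = 0 := by
  intro i hi
  have h0 : ∀ j ∈ Finset.univ, 0 ≤ φ (a j) * c j ^ 2 := fun j _ =>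
    mul_nonneg (hφ _ (ha j)).1 (sq_nonneg _)
  have h1 : ∑ i, φ (a i) * c i ^ 2 = 0 := le_antisymm h (Finset.sum_nonneg h0)
  have h2 := (Finset.sum_eq_zero_iff_of_nonneg h0).1 h1 i (Finset.mem_univ i)
  rcases mul_eq_zero.1 h2 with h3 | h3
  · exact absurd ((hφ _ (ha i)).2.1 h3) hi
  · exact pow_eq_zero_iff (two_ne_zero) |>.1 h3

theorem zero_sum {A : Finset ℝ} {φ : ℝ → ℝ} (hφ : ∀ s, 0 < s → 0 ≤ φ s ∧ (φ s = 0 ↔ s ∈ A))
    {m : ℕ} (a c : Fin m → ℝ) (ha : ∀ i, 0 < a i) (h : ∀ i, a i ∉ A → c i = 0) :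
    ∑ i, φ (a i) * c i ^ 2 = 0 := by
  refine Finset.sum_eq_zero (fun i _ => ?_)
  by_cases hi : a i ∈ A
  · rw [(hφ _ (ha i)).2.2 hi, zero_mul]
  · rw [h i hi]; ring

theorem inV_iff (hv : St_val E) {K T : Set E} (hK : IsBody K) (hT : IsBody T) (A : Finset ℝ)
    {m : ℕ} {a : Fin m → ℝ} {e f : Fin m → E} (hf : Fr K T a e f) {x : E} (hx : At e f x) :
    InV K T A x ↔ ∀ i, a i ∉ A → ⟪x, f i⟫_ℝ = 0 := by
  refine ⟨fun h => h m a e f hf hx, fun h k b e' f' hf' hx' => ?_⟩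
  obtain ⟨L, C, _, hφ⟩ := ex_phi A
  have h1 := hv K T hK hT m a e f hf x hx (phi 1 L C)
  have h2 := hv K T hK hT k b e' f' hf' x hx' (phi 1 L C)
  rw [zero_sum hφ a (fun i => ⟪x, f i⟫_ℝ) hf.pos h] at h1
  exact sum_zero hφ b (fun i => ⟪x, f' i⟫_ℝ) hf'.pos (by rw [← h2, h1])

theorem inV_smul (hv : St_val E) {K T : Set E} (hK : IsBody K) (hT : IsBody T)
    (hall : AllFr K T) (A : Finset ℝ) {x : E} (c : ℝ) (h : InV K T A x) : InV K T A (c • x) := by
  obtain ⟨m, a, e, f, hf, hx⟩ := hall x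
  rw [inV_iff hv hK hT A hf (at_smul hx c)]
  intro i hi
  rw [real_inner_smul_left, h m a e f hf hx i hi, mul_zero]

theorem inV_add (hv : St_val E) (hconv : St_conv E) {K T : Set E} (hK : IsBody K) (hT : IsBody T)
    (hall : AllFr K T) (A : Finset ℝ) {x y : E} (hx : InV K T A x) (hy : InV K T A y) :
    InV K T A (x + y) := by
  obtain ⟨L, C, hL, hφ⟩ := ex_phi A
  have hM0 : ∀ z, InV K T A z → Mv K T (phi 1 L C) z = 0 := by
    intro z hz
    obtain ⟨m, a, e, f, hf, hfz⟩ := hall z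
    rw [hv K T hK hT m a e f hf z hfz (phi 1 L C)]
    exact zero_sum hφ a (fun i => ⟪z, f i⟫_ℝ) hf.pos (hz m a e f hf hfz)
  obtain ⟨m, a, e, f, hf, hfz⟩ := hall (x + y)
  rw [inV_iff hv hK hT A hf hfz]
  have h1 := hconv K T hK hT hall 1 L C hL (fun s hs => (hφ s hs).1) m a e f hf (x + y) hfz
    ((2 : ℝ) • x)
  have h2 := hconv K T hK hT hall 1 L C hL (fun s hs => (hφ s hs).1) m a e f hf (x + y) hfz
    ((2 : ℝ) • y)
  rw [hM0 _ (inV_smul hv hK hT hall A 2 hx)] at h1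
  rw [hM0 _ (inV_smul hv hK hT hall A 2 hy)] at h2
  have h3 := hv K T hK hT m a e f hf (x + y) hfz (phi 1 L C)
  refine sum_zero hφ a (fun i => ⟪x + y, f i⟫_ℝ) hf.pos ?_
  have h4 : (∑ i, phi 1 L C (a i) * ⟪x + y, f i⟫_ℝ * ⟪(2 : ℝ) • x, f i⟫_ℝ) +
      ∑ i, phi 1 L C (a i) * ⟪x + y, f i⟫_ℝ * ⟪(2 : ℝ) • y, f i⟫_ℝ =
      2 * ∑ i, phi 1 L C (a i) * ⟪x + y, f i⟫_ℝ ^ 2 := by
    rw [← Finset.sum_add_distrib, Finset.mul_sum]
    refine Finset.sum_congr rfl (fun i _ => ?_)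
    rw [real_inner_smul_left, real_inner_smul_left, _root_.inner_add_left]
    ring
  show ∑ i, phi 1 L C (a i) * ⟪x + y, f i⟫_ℝ ^ 2 ≤ 0
  linarith

/-- The subspace of all `x` with `InV K T A x`. -/
def V (hv : St_val E) (hconv : St_conv E) {K T : Set E} (hK : IsBody K) (hT : IsBody T)
    (hall : AllFr K T) (A : Finset ℝ) : Submodule ℝ E where
  carrier := {x | InV K T A x}
  add_mem' hx hy := inV_add hv hconv hK hT hall A hx hy
  zero_mem' := by
    intro m a e f _ _ i _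
    rw [_root_.inner_zero_left]
  smul_mem' c x hx := inV_smul hv hK hT hall A c hx

theorem inV_mono {K T : Set E} {A B : Finset ℝ} (h : A ⊆ B) {x : E} (hx : InV K T A x) :
    InV K T B x := fun m a e f hf hfx i hi => hx m a e f hf hfx i (fun h' => hi (h h'))

theorem inV_empty {K T : Set E} (hall : AllFr K T) {x : E} (hx : InV K T ∅ x) : x = 0 := by
  obtain ⟨m, a, e, f, hf, hfx⟩ := hall x
  have h1 : x = ∑ i, ⟪x, f i⟫_ℝ • e i := hfx
  rw [h1]
  refine Finset.sum_eq_zero (fun i _ => ?_)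
  rw [hx m a e f hf hfx i (by simp), zero_smul]

/-- Independence of the subspaces `V {al}`. -/
theorem unique_zero (hv : St_val E) (hconv : St_conv E) {K T : Set E} (hK : IsBody K)
    (hT : IsBody T) (hall : AllFr K T) (A : Finset ℝ) (z : ℝ → E)
    (hz : ∀ al ∈ A, InV K T {al} (z al)) (h0 : ∑ al ∈ A, z al = 0) : ∀ al ∈ A, z al = 0 := by
  classical
  intro be hbe
  have h1 : z be = -∑ al ∈ A.erase be, z al := by
    rw [← Finset.add_sum_erase _ _ hbe] at h0
    exact eq_neg_of_add_eq_zero_left h0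
  have h2 : InV K T (A.erase be) (z be) := by
    rw [h1]
    have h3 : -∑ al ∈ A.erase be, z al ∈ V hv hconv hK hT hall (A.erase be) := by
      refine Submodule.neg_mem _ (Submodule.sum_mem _ (fun al hal => ?_))
      exact inV_mono (Finset.singleton_subset_iff.2 hal) (hz al (Finset.mem_of_mem_erase hal))
    exact h3
  refine inV_empty hall ?_
  intro m a e f hf hfx i _
  by_cases hi : a i ∈ ({be} : Finset ℝ)
  · refine h2 m a e f hf hfx i ?_
    rw [Finset.mem_singleton.1 hi]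
    simp
  · exact hz be hbe m a e f hf hfx i hi

/-- Uniqueness of the decomposition. -/
theorem unique_dec (hv : St_val E) (hconv : St_conv E) {K T : Set E} (hK : IsBody K)
    (hT : IsBody T) (hall : AllFr K T) (A : Finset ℝ) (z z' : ℝ → E)
    (hz : ∀ al, InV K T {al} (z al)) (hz' : ∀ al, InV K T {al} (z' al))
    (h0 : ∑ al ∈ A, z al = ∑ al ∈ A, z' al) : ∀ al ∈ A, z al = z' al := by
  intro al hal
  have h1 := unique_zero hv hconv hK hT hall A (fun al => z al - z' al)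
    (fun al _ => (V hv hconv hK hT hall {al}).sub_mem (hz al) (hz' al))
    (by rw [Finset.sum_sub_distrib, h0, sub_self]) al hal
  exact sub_eq_zero.1 h1

/-- Only finitely many of the subspaces `V {al}` are nonzero. -/
theorem fin_V (hv : St_val E) (hconv : St_conv E) {K T : Set E} (hK : IsBody K)
    (hT : IsBody T) (hall : AllFr K T) : {al : ℝ | ∃ x, x ≠ 0 ∧ InV K T {al} x}.Finite := by
  classical
  set S : Set ℝ := {al : ℝ | ∃ x, x ≠ 0 ∧ InV K T {al} x} with hS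
  choose v hv0 hv1 using (fun al : S => al.2)
  have hli : LinearIndependent ℝ v := by
    rw [linearIndependent_iff']
    intro s g hs i hi
    obtain ⟨z, hz⟩ : ∃ z : ℝ → E, ∀ j : S, z j = g j • v j :=
      ⟨fun al => if h : al ∈ S then g ⟨al, h⟩ • v ⟨al, h⟩ else 0, fun j => dif_pos j.2⟩
    have h1 := unique_zero hv hconv hK hT hall (s.map (Function.Embedding.subtype _)) z ?_ ?_ i
      (Finset.mem_map.2 ⟨i, hi, rfl⟩)
    · rw [hz i] at h1
      rcases smul_eq_zero.1 h1 with h4 | h4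
      · exact h4
      · exact absurd h4 (hv0 i)
    · intro al hal
      obtain ⟨j, _, rfl⟩ := Finset.mem_map.1 hal
      show InV K T {(j : ℝ)} (z (j : ℝ))
      rw [hz j]
      exact (V hv hconv hK hT hall {(j : ℝ)}).smul_mem (g j) (hv1 j)
    · rw [Finset.sum_map]
      refine Eq.trans (Finset.sum_congr rfl (fun j _ => ?_)) hs
      exact hz j
  exact Set.finite_coe_iff.1 hli.finite_of_isNoetherian

/-! ### The square of the norm `n` -/

/-- `n x = ∑ c_i²`. -/
noncomputable def nn (K T : Set E) (x : E) : ℝ := Mv K T (fun _ => 1) x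

theorem nn_eq (hv : St_val E) {K T : Set E} (hK : IsBody K) (hT : IsBody T)
    {m : ℕ} {a : Fin m → ℝ} {e f : Fin m → E} (hf : Fr K T a e f) {x : E} (hx : At e f x) :
    nn K T x = ∑ i, ⟪x, f i⟫_ℝ ^ 2 := by
  rw [nn, hv K T hK hT m a e f hf x hx]
  simp

theorem nn_nonneg (hv : St_val E) {K T : Set E} (hK : IsBody K) (hT : IsBody T)
    (hall : AllFr K T) (x : E) : 0 ≤ nn K T x := by
  obtain ⟨m, a, e, f, hf, hx⟩ := hall x
  rw [nn_eq hv hK hT hf hx]
  exact Finset.sum_nonneg (fun i _ => sq_nonneg _)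

theorem nn_ge (hv : St_val E) (hc : St_comp E) {K T : Set E} (hK : IsBody K) (hT : IsBody T)
    (hall : AllFr K T) (x : E) {m : ℕ} {a : Fin m → ℝ} {e f : Fin m → E} (hf : Fr K T a e f) :
    ∑ i, ⟪x, f i⟫_ℝ ^ 2 ≤ nn K T x := by
  obtain ⟨k, b, e', f', hf', hx⟩ := hall x
  rw [nn_eq hv hK hT hf' hx]
  have h1 := (hc K T hK hT m a e f k b e' f' hf hf' (fun j => ⟪x, f' j⟫_ℝ)).2.2.1
  refine le_trans (le_of_eq ?_) h1
  refine Finset.sum_congr rfl (fun i _ => ?_)
  congr 1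
  have h2 : x = ∑ j, ⟪x, f' j⟫_ℝ • e' j := hx
  conv_lhs => rw [h2]
  rw [_root_.sum_inner]
  refine Finset.sum_congr rfl (fun j _ => ?_)
  rw [real_inner_smul_left, mul_comm]

theorem mink {m : ℕ} (s t : Fin m → ℝ) :
    √(∑ i, (s i + t i) ^ 2) ≤ √(∑ i, s i ^ 2) + √(∑ i, t i ^ 2) := by
  have h := norm_add_le (WithLp.toLp 2 s : EuclideanSpace ℝ (Fin m)) (WithLp.toLp 2 t)
  rw [EuclideanSpace.norm_eq, EuclideanSpace.norm_eq, EuclideanSpace.norm_eq] at h
  simpa [sq_abs] using h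

theorem nn_add (hv : St_val E) (hc : St_comp E) {K T : Set E} (hK : IsBody K) (hT : IsBody T)
    (hall : AllFr K T) (x y : E) : √(nn K T (x + y)) ≤ √(nn K T x) + √(nn K T y) := by
  obtain ⟨m, a, e, f, hf, hx⟩ := hall (x + y)
  rw [nn_eq hv hK hT hf hx]
  refine le_trans (le_of_eq ?_) ((mink (fun i => ⟪x, f i⟫_ℝ) (fun i => ⟪y, f i⟫_ℝ)).trans
    (add_le_add (Real.sqrt_le_sqrt (nn_ge hv hc hK hT hall x hf))
      (Real.sqrt_le_sqrt (nn_ge hv hc hK hT hall y hf))))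
  congr 1
  refine Finset.sum_congr rfl (fun i _ => ?_)
  rw [_root_.inner_add_left]

theorem nn_smul (hv : St_val E) {K T : Set E} (hK : IsBody K) (hT : IsBody T)
    (hall : AllFr K T) (c : ℝ) (x : E) : √(nn K T (c • x)) = ‖c‖ * √(nn K T x) := by
  obtain ⟨m, a, e, f, hf, hx⟩ := hall x
  rw [nn_eq hv hK hT hf hx, nn_eq hv hK hT hf (at_smul hx c)]
  have h1 : ∑ i, ⟪c • x, f i⟫_ℝ ^ 2 = c ^ 2 * ∑ i, ⟪x, f i⟫_ℝ ^ 2 := by
    rw [Finset.mul_sum]
    refine Finset.sum_congr rfl (fun i _ => ?_)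
    rw [real_inner_smul_left]
    ring
  rw [h1, Real.sqrt_mul (sq_nonneg c), Real.sqrt_sq_eq_abs, Real.norm_eq_abs]

theorem nn_pos (hv : St_val E) {K T : Set E} (hK : IsBody K) (hT : IsBody T)
    (hall : AllFr K T) {x : E} (hx0 : x ≠ 0) : 0 < nn K T x := by
  obtain ⟨m, a, e, f, hf, hx⟩ := hall x
  rw [nn_eq hv hK hT hf hx]
  refine lt_of_le_of_ne (Finset.sum_nonneg (fun i _ => sq_nonneg _)) (fun h0 => hx0 ?_)
  have h1 : x = ∑ i, ⟪x, f i⟫_ℝ • e i := hx
  rw [h1]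
  refine Finset.sum_eq_zero (fun i _ => ?_)
  have h2 := (Finset.sum_eq_zero_iff_of_nonneg (fun i _ => sq_nonneg _)).1 h0.symm i
    (Finset.mem_univ i)
  rw [pow_eq_zero_iff (two_ne_zero) |>.1 h2, zero_smul]

/-- The seminorm `√β √n`. -/
noncomputable def sn (hv : St_val E) (hc : St_comp E) {K T : Set E} (hK : IsBody K)
    (hT : IsBody T) (hall : AllFr K T) (β : ℝ) : Seminorm ℝ E :=
  Seminorm.of (fun x => √β * √(nn K T x))
    (fun x y => by
      rw [← mul_add]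
      exact mul_le_mul_of_nonneg_left (nn_add hv hc hK hT hall x y) (Real.sqrt_nonneg _))
    (fun c x => by
      rw [nn_smul hv hK hT hall]
      ring)

theorem sn_sq (hv : St_val E) (hc : St_comp E) {K T : Set E} (hK : IsBody K)
    (hT : IsBody T) (hall : AllFr K T) {β : ℝ} (hβ : 0 ≤ β) (x : E) :
    sn hv hc hK hT hall β x ^ 2 = β * nn K T x := by
  show (√β * √(nn K T x)) ^ 2 = _
  rw [mul_pow, Real.sq_sqrt hβ, Real.sq_sqrt (nn_nonneg hv hK hT hall x)]

/-! ### The components -/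

/-- The component of a point with frame `(a,e,f)` at `al`. -/
noncomputable def cmp {m : ℕ} (a : Fin m → ℝ) (e f : Fin m → E) (x : E) (al : ℝ) : E :=
  ∑ i, (if a i = al then ⟪x, f i⟫_ℝ else 0) • e i

theorem cmp_inV (hv : St_val E) {K T : Set E} (hK : IsBody K) (hT : IsBody T)
    {m : ℕ} {a : Fin m → ℝ} {e f : Fin m → E} (hf : Fr K T a e f) (x : E) (al : ℝ) :
    InV K T {al} (cmp a e f x al) := by
  rw [cmp, inV_iff hv hK hT {al} hf (at_sum hf _)]
  intro i hi
  rw [inner_sum hf, if_neg (fun h => hi (by rw [h]; simp))]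

theorem cmp_coef (hv : St_val E) {K T : Set E} (hK : IsBody K) (hT : IsBody T)
    {S : Finset ℝ} (hS : ∀ al, (∃ x, x ≠ 0 ∧ InV K T {al} x) → al ∈ S)
    {m : ℕ} {a : Fin m → ℝ} {e f : Fin m → E} (hf : Fr K T a e f) (x : E)
    (i : Fin m) (hi : a i ∉ S) : ⟪x, f i⟫_ℝ = 0 := by
  have h1 : cmp a e f x (a i) = 0 := by
    by_contra h
    exact hi (hS _ ⟨_, h, cmp_inV hv hK hT hf x (a i)⟩)
  have h2 : ⟪cmp a e f x (a i), f i⟫_ℝ = ⟪x, f i⟫_ℝ := by
    rw [cmp, inner_sum hf, if_pos rfl]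
  rw [← h2, h1, _root_.inner_zero_left]

theorem cmp_sum (hv : St_val E) {K T : Set E} (hK : IsBody K) (hT : IsBody T)
    {S : Finset ℝ} (hS : ∀ al, (∃ x, x ≠ 0 ∧ InV K T {al} x) → al ∈ S)
    {m : ℕ} {a : Fin m → ℝ} {e f : Fin m → E} (hf : Fr K T a e f) {x : E} (hx : At e f x) :
    ∑ al ∈ S, cmp a e f x al = x := by
  have h1 : x = ∑ i, ⟪x, f i⟫_ℝ • e i := hx
  conv_rhs => rw [h1]
  unfold cmp
  rw [Finset.sum_comm]
  refine Finset.sum_congr rfl (fun i _ => ?_)
  by_cases hi : a i ∈ S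
  · rw [Finset.sum_eq_single (a i)]
    · rw [if_pos rfl]
    · intro al _ hal
      rw [if_neg (Ne.symm hal), zero_smul]
    · intro h; exact absurd hi h
  · rw [cmp_coef hv hK hT hS hf x i hi, zero_smul]
    refine Finset.sum_eq_zero (fun al hal => ?_)
    rw [if_neg (fun h : a i = al => hi (h ▸ hal)), zero_smul]

theorem cmp_nn (hv : St_val E) {K T : Set E} (hK : IsBody K) (hT : IsBody T)
    {S : Finset ℝ} (hS : ∀ al, (∃ x, x ≠ 0 ∧ InV K T {al} x) → al ∈ S)
    {m : ℕ} {a : Fin m → ℝ} {e f : Fin m → E} (hf : Fr K T a e f) (x : E) (g : ℝ → ℝ) :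
    ∑ al ∈ S, g al * nn K T (cmp a e f x al) = ∑ i, g (a i) * ⟪x, f i⟫_ℝ ^ 2 := by
  have h0 : ∀ al, g al * nn K T (cmp a e f x al) =
      ∑ i, g al * (if a i = al then ⟪x, f i⟫_ℝ else 0) ^ 2 := by
    intro al
    rw [cmp, nn_eq hv hK hT hf (at_sum hf _), Finset.mul_sum]
    refine Finset.sum_congr rfl (fun i _ => ?_)
    rw [inner_sum hf]
  rw [Finset.sum_congr rfl (fun al _ => h0 al), Finset.sum_comm]
  refine Finset.sum_congr rfl (fun i _ => ?_)
  by_cases hi : a i ∈ S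
  · rw [Finset.sum_eq_single (a i)]
    · rw [if_pos rfl]
    · intro al _ hal
      rw [if_neg (Ne.symm hal)]
      ring
    · intro h; exact absurd hi h
  · rw [cmp_coef hv hK hT hS hf x i hi]
    rw [show g (a i) * (0 : ℝ) ^ 2 = 0 by ring]
    refine Finset.sum_eq_zero (fun al hal => ?_)
    rw [if_neg (fun h : a i = al => hi (h ▸ hal))]
    ring

/-! ### The decomposition -/

theorem decomp (hm : St_mem E) (hc : St_comp E) (hv : St_val E) (hconv : St_conv E) :
    St_decomp E := by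
  classical
  intro K T hK hT hall
  obtain ⟨S₀, hS₀⟩ := (fin_V hv hconv hK hT hall).exists_finset
  have hS : ∀ al, (∃ x, x ≠ 0 ∧ InV K T {al} x) → al ∈ S₀ := fun al h => (hS₀ al).2 h
  have hpos : ∀ al ∈ S₀, 0 < al := by
    intro al hal
    obtain ⟨x, hx0, hx⟩ := (hS₀ al).1 hal
    obtain ⟨m, a, e, f, hf, hfx⟩ := hall x
    by_contra h0
    refine hx0 ?_
    have h1 : x = ∑ i, ⟪x, f i⟫_ℝ • e i := hfx
    rw [h1]
    refine Finset.sum_eq_zero (fun i _ => ?_)
    rw [hx m a e f hf hfx i (fun h => h0 ?_), zero_smul]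
    rw [← Finset.mem_singleton.1 h]
    exact hf.pos i
  -- components
  have hz : ∀ x : E, ∃ z : ℝ → E, (∀ al, InV K T {al} (z al)) ∧ ∑ al ∈ S₀, z al = x := by
    intro x
    obtain ⟨m, a, e, f, hf, hfx⟩ := hall x
    exact ⟨cmp a e f x, fun al => cmp_inV hv hK hT hf x al, cmp_sum hv hK hT hS hf hfx⟩
  choose z hz1 hz2 using hz
  have huniq : ∀ (x : E) (y : ℝ → E), (∀ al, InV K T {al} (y al)) → ∑ al ∈ S₀, y al = x →
      ∀ al ∈ S₀, z x al = y al := by
    intro x y hy1 hy2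
    exact unique_dec hv hconv hK hT hall S₀ (z x) y (hz1 x) hy1 (by rw [hz2, hy2])
  let Pr : S₀ → E →ₗ[ℝ] E := fun al =>
    { toFun := fun x => z x al
      map_add' := fun x y => huniq (x + y) (fun be => z x be + z y be)
        (fun be => inV_add hv hconv hK hT hall {be} (hz1 x be) (hz1 y be))
        (by rw [Finset.sum_add_distrib, hz2, hz2]) al al.2
      map_smul' := fun c x => huniq (c • x) (fun be => c • z x be)
        (fun be => inV_smul hv hK hT hall {be} c (hz1 x be))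
        (by rw [← Finset.smul_sum, hz2]) al al.2 }
  have hPr : ∀ (al : S₀) x, Pr al x = z x al := fun al x => rfl
  have hPin : ∀ (al be : S₀) (y : E), InV K T {(be : ℝ)} y →
      Pr al y = if al = be then y else 0 := by
    intro al be y hy
    rw [hPr, huniq y (fun ga => if ga = (be : ℝ) then y else 0) ?_ ?_ al al.2]
    · by_cases h : al = be
      · rw [if_pos h, if_pos (by rw [h])]
      · rw [if_neg h, if_neg (fun h' => h (Subtype.ext h'))]
    · intro ga
      by_cases h : ga = (be : ℝ)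
      · simp only [h, if_true]; exact hy
      · simp only [if_neg h]
        exact (V hv hconv hK hT hall {ga}).zero_mem
    · rw [Finset.sum_ite_eq' S₀ (be : ℝ) (fun _ => y), if_pos be.2]
  let ε : Fin S₀.card ≃ S₀ := S₀.equivFin.symm
  have hsum : ∀ (g : ℝ → ℝ), ∑ i, g (ε i) = ∑ al ∈ S₀, g al := by
    intro g
    rw [← Finset.sum_coe_sort S₀ g]
    exact Equiv.sum_comp ε (fun al : S₀ => g al)
  have hpe : ∀ i, 0 < ((ε i : S₀) : ℝ) := fun i => hpos _ (ε i).2
  -- evaluation at a frame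
  have hev : ∀ (g : ℝ → ℝ) (x : E) (m : ℕ) (a : Fin m → ℝ) (e f : Fin m → E),
      Fr K T a e f → At e f x →
      ∑ i, g (ε i) * nn K T (Pr (ε i) x) = ∑ i, g (a i) * ⟪x, f i⟫_ℝ ^ 2 := by
    intro g x m a e f hf hfx
    rw [← cmp_nn hv hK hT hS hf x g]
    have h1 := hsum (fun al => g al * nn K T (z x al))
    have h2 : ∀ al ∈ S₀, g al * nn K T (z x al) = g al * nn K T (cmp a e f x al) := by
      intro al hal
      rw [huniq x (cmp a e f x) (fun al => cmp_inV hv hK hT hf x al)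
        (cmp_sum hv hK hT hS hf hfx) al hal]
    rw [Finset.sum_congr rfl h2] at h1
    exact h1
  refine ⟨S₀.card, fun i => Pr (ε i), fun i => sn hv hc hK hT hall (ε i),
    fun i => ((ε i : S₀) : ℝ)⁻¹, ⟨⟨?_, ?_, ?_⟩, ?_, ?_, ?_, ?_⟩⟩
  · intro i x
    show Pr (ε i) (Pr (ε i) x) = Pr (ε i) x
    rw [hPin (ε i) (ε i) (Pr (ε i) x) (hz1 x _), if_pos rfl]
  · intro i j hij x
    show Pr (ε i) (Pr (ε j) x) = 0
    rw [hPin (ε i) (ε j) (Pr (ε j) x) (hz1 x _), if_neg (fun h => hij (ε.injective h))]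
  · intro x
    show ∑ i, Pr (ε i) x = x
    have h1 : ∑ i, Pr (ε i) x = ∑ al : S₀, Pr al x := Equiv.sum_comp ε (fun al => Pr al x)
    rw [h1]
    conv_rhs => rw [← hz2 x]
    exact Finset.sum_coe_sort S₀ (fun al => z x al)
  · intro i x hx
    show 0 < √((ε i : S₀) : ℝ) * √(nn K T (Pr (ε i) x))
    exact mul_pos (Real.sqrt_pos.2 (hpe i)) (Real.sqrt_pos.2 (nn_pos hv hK hT hall hx))
  · intro i
    exact inv_pos.2 (hpe i)
  · ext x
    obtain ⟨m, a, e, f, hf, hfx⟩ := hall x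
    rw [(hm K T hK hT m a e f hf x hfx).1, Set.mem_ofPred_eq, ← hev (fun s => s) x m a e f hf hfx]
    have h1 : ∀ i, sn hv hc hK hT hall (ε i) (Pr (ε i) x) ^ 2 =
        ((ε i : S₀) : ℝ) * nn K T (Pr (ε i) x) := fun i =>
      sn_sq hv hc hK hT hall (hpe i).le _
    rw [Finset.sum_congr rfl (fun i _ => h1 i)]
  · ext x
    obtain ⟨m, a, e, f, hf, hfx⟩ := hall x
    rw [(hm K T hK hT m a e f hf x hfx).2, Set.mem_ofPred_eq,
      ← hev (fun s => s⁻¹) x m a e f hf hfx]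
    have h1 : ∀ i, (((ε i : S₀) : ℝ)⁻¹) ^ 2 * sn hv hc hK hT hall (ε i) (Pr (ε i) x) ^ 2 =
        (((ε i : S₀) : ℝ)⁻¹) * nn K T (Pr (ε i) x) := by
      intro i
      rw [sn_sq hv hc hK hT hall (hpe i).le]
      have h2 := (hpe i).ne'
      field_simp
    rw [Finset.sum_congr rfl (fun i _ => h1 i)]

end Pool.Agent.NH64.GM.Decomp
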