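import Mathlib

/-!
Definitions for the geometric mean of convex bodies and its ellipsoidal envelopes.
-/

open scoped InnerProductSpace BigOperators

namespace Pool.Agent.NH64.GM

variable {E : Type*} [NormedAddCommGroup E] [InnerProductSpace ℝ E]

/-- Convex body: compact, convex, with the origin in its interior. -/
structure IsBody (K : Set E) : Prop where
  compact : IsCompact K
  convex : Convex ℝ K
  zero_mem : (0 : E) ∈ interior K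

/-- The polar body `K° = {y : ⟪x, y⟫ ≤ 1 for all x ∈ K}`. -/
def pol (K : Set E) : Set E := {y | ∀ x ∈ K, ⟪x, y⟫_ℝ ≤ 1}

/-- The half Minkowski sum `(A + B) / 2`. -/
def half (A B : Set E) : Set E := {z | ∃ a ∈ A, ∃ b ∈ B, z = (1 / 2 : ℝ) • (a + b)}

/-- The sequence of pairs `(A_m, H_m)`: `A_0 = K`, `H_0 = T`, `A_{m+1} = (A_m + H_m)/2`,
`H_{m+1} = ((A_m° + H_m°)/2)°`. -/
def AH (K T : Set E) : ℕ → Set E × Set E
  | 0 => (K, T)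
  | m + 1 => (half (AH K T m).1 (AH K T m).2, pol (half (pol (AH K T m).1) (pol (AH K T m).2)))

/-- The geometric mean `G(K,T)`: the limit of the decreasing sequence `A_1 ⊇ A_2 ⊇ …`,
that is, the intersection of these sets. -/
def geomMean (K T : Set E) : Set E := ⋂ m : ℕ, (AH K T (m + 1)).1

/-- Symmetric operators. -/
def Sym (u : E →L[ℝ] E) : Prop := ∀ x y, ⟪u x, y⟫_ℝ = ⟪x, u y⟫_ℝ

/-- Positive semidefinite operators. -/
def Psd (u : E →L[ℝ] E) : Prop := Sym u ∧ ∀ x, 0 ≤ ⟪u x, x⟫_ℝ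

/-- Positive definite operators. -/
def Pd (u : E →L[ℝ] E) : Prop := Sym u ∧ ∀ x, x ≠ 0 → 0 < ⟪u x, x⟫_ℝ

/-- The set `{x : ⟪u x, x⟫ ≤ 1}`, for positive definite `u` the ellipsoid `u^{-1/2} B`. -/
def ell (u : E →L[ℝ] E) : Set E := {x | ⟪u x, x⟫_ℝ ≤ 1}

/-- Ellipsoids centred at the origin. -/
def IsEllipsoid (S : Set E) : Prop := ∃ u : E →L[ℝ] E, Pd u ∧ S = ell u

/-- The upper ellipsoidal envelope: the intersection of all `G(A,B)` with ellipsoids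
`A ⊇ K`, `B ⊇ T`. -/
def upperEnv (K T : Set E) : Set E :=
  {x | ∀ A B : Set E, IsEllipsoid A → IsEllipsoid B → K ⊆ A → T ⊆ B → x ∈ geomMean A B}

/-- The lower ellipsoidal envelope: the polar of the upper envelope of `(K°,T°)`. -/
def lowerEnv (K T : Set E) : Set E := pol (upperEnv (pol K) (pol T))

/-- A direct sum decomposition `E = V_1 ⊕ … ⊕ V_k`, given by its projections. -/
structure IsDecomp {k : ℕ} (P : Fin k → E →ₗ[ℝ] E) : Prop where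
  idem : ∀ i x, P i (P i x) = P i x
  ortho : ∀ i j, i ≠ j → ∀ x, P i (P j x) = 0
  sum : ∀ x, ∑ i, P i x = x

/-- The pair `(K,T)` is a quadratic direct sum of pairs of homothetic symmetric bodies:
`E = V_1 ⊕ … ⊕ V_k` with projections `P i`, norms `p i` on `V_i = range (P i)` and numbers
`lam i > 0` with `K = {x : ∑ p_i(P_i x)² ≤ 1}` and `T = {x : ∑ lam_i² p_i(P_i x)² ≤ 1}`. -/
structure IsData {k : ℕ} (K T : Set E) (P : Fin k → E →ₗ[ℝ] E) (p : Fin k → Seminorm ℝ E)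
    (lam : Fin k → ℝ) : Prop where
  decomp : IsDecomp P
  norm : ∀ i x, P i x ≠ 0 → 0 < p i (P i x)
  pos : ∀ i, 0 < lam i
  eqK : K = {x | ∑ i, p i (P i x) ^ 2 ≤ 1}
  eqT : T = {x | ∑ i, lam i ^ 2 * p i (P i x) ^ 2 ≤ 1}

/-! ### Auxiliary notions for the proof -/

/-- The block form `u(x) + 2 ⟪w x, x'⟫ + v(x')` is nonnegative. -/
def Dom (w u v : E →L[ℝ] E) : Prop :=
  ∀ x x', 0 ≤ ⟪u x, x⟫_ℝ + 2 * ⟪w x, x'⟫_ℝ + ⟪v x', x'⟫_ℝ

/-- The compact convex set of triples `(w,u,v)`. -/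
def Wset (K T : Set E) : Set ((E →L[ℝ] E) × (E →L[ℝ] E) × (E →L[ℝ] E)) :=
  {t | Psd t.1 ∧ Psd t.2.1 ∧ Psd t.2.2 ∧ (∀ x ∈ K, ⟪t.2.1 x, x⟫_ℝ ≤ 1) ∧
    (∀ x ∈ T, ⟪t.2.2 x, x⟫_ℝ ≤ 1) ∧ Dom t.1 t.2.1 t.2.2}

/-- A frame for the pair `(K,T)`. -/
structure Fr (K T : Set E) {m : ℕ} (a : Fin m → ℝ) (e f : Fin m → E) : Prop where
  pos : ∀ i, 0 < a i
  dual : ∀ i j, ⟪e i, f j⟫_ℝ = if i = j then 1 else 0
  F1 : ∀ x ∈ K, ∑ i, a i * ⟪x, f i⟫_ℝ ^ 2 ≤ 1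
  F2 : ∀ x ∈ T, ∑ i, (a i)⁻¹ * ⟪x, f i⟫_ℝ ^ 2 ≤ 1
  F3 : ∀ y ∈ pol K, ∑ i, (a i)⁻¹ * ⟪e i, y⟫_ℝ ^ 2 ≤ 1
  F4 : ∀ y ∈ pol T, ∑ i, a i * ⟪e i, y⟫_ℝ ^ 2 ≤ 1

/-- `x` lies in the span of the frame. -/
def At {m : ℕ} (e f : Fin m → E) (x : E) : Prop := x = ∑ i, ⟪x, f i⟫_ℝ • e i

/-- Every point lies in the span of a frame. -/
def AllFr (K T : Set E) : Prop :=
  ∀ x : E, ∃ (m : ℕ) (a : Fin m → ℝ) (e f : Fin m → E), Fr K T a e f ∧ At e f x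

/-- Functions `A₀ + ∑ A_l / (a + l)`, `l` in a finite set of positive numbers. -/
noncomputable def phi (A₀ : ℝ) (L : Finset ℝ) (A : ℝ → ℝ) (a : ℝ) : ℝ := A₀ + ∑ l ∈ L, A l / (a + l)

open Classical in
/-- The value `∑ φ(a_i) ⟪x, f_i⟫²` of any frame containing `x` (well defined, see `St_val`). -/
noncomputable def Mv (K T : Set E) (φ : ℝ → ℝ) (x : E) : ℝ :=
  if h : ∃ r : ℝ, ∃ (m : ℕ) (a : Fin m → ℝ) (e f : Fin m → E),
      Fr K T a e f ∧ At e f x ∧ r = ∑ i, φ (a i) * ⟪x, f i⟫_ℝ ^ 2 then h.choose else 0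

end Pool.Agent.NH64.GM
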