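import Pool.Agent.NH64.GM.Stm

/-!
# Project GM, module GM10: continuity and directional derivatives of `Mv`

`cont : St_cont E` and `dir : St_dir E` from `St_comp`, `St_val`, `St_cpt`.
-/

open scoped InnerProductSpace BigOperators Topology
open Filter

namespace Pool.Agent.NH64.GM.Dir

open Pool.Agent.NH64.GM

set_option linter.unusedSectionVars false

variable {E : Type} [NormedAddCommGroup E] [InnerProductSpace ℝ E]

theorem phi_cont (A₀ : ℝ) (L : Finset ℝ) (A : ℝ → ℝ) (hL : ∀ l ∈ L, 0 < l) (s : ℝ) (hs : 0 < s) :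
    ContinuousAt (phi A₀ L A) s := by
  unfold phi
  refine continuousAt_const.add ?_
  refine tendsto_finsetSum _ (fun l hl => ?_)
  have h1 : s + l ≠ 0 := by
    have := hL l hl
    positivity
  exact continuousAt_const.div (continuousAt_id.add continuousAt_const) h1

theorem tend {m : ℕ} {ψ : ℝ → ℝ} (hψ : ∀ s, 0 < s → ContinuousAt ψ s)
    {a : ℕ → Fin m → ℝ} {f : ℕ → Fin m → E} {x h : ℕ → E} {a₀ : Fin m → ℝ} {f₀ : Fin m → E}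
    {x₀ h₀ : E} (ha : Tendsto a atTop (𝓝 a₀)) (hf : Tendsto f atTop (𝓝 f₀))
    (hx : Tendsto x atTop (𝓝 x₀)) (hh : Tendsto h atTop (𝓝 h₀)) (hpos : ∀ i, 0 < a₀ i) :
    Tendsto (fun k => ∑ i, ψ (a k i) * ⟪x k, f k i⟫_ℝ * ⟪h k, f k i⟫_ℝ) atTop
      (𝓝 (∑ i, ψ (a₀ i) * ⟪x₀, f₀ i⟫_ℝ * ⟪h₀, f₀ i⟫_ℝ)) := by
  refine tendsto_finsetSum _ (fun i _ => ?_)
  have h1 : Tendsto (fun k => a k i) atTop (𝓝 (a₀ i)) := tendsto_pi_nhds.1 ha i
  have h2 : Tendsto (fun k => f k i) atTop (𝓝 (f₀ i)) := tendsto_pi_nhds.1 hf i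
  exact (((hψ _ (hpos i)).tendsto.comp h1).mul (hx.inner h2)).mul (hh.inner h2)

/-- Functions `ψ` for which every frame gives a lower bound for `Mv ψ`. -/
def Good (K T : Set E) (ψ : ℝ → ℝ) : Prop :=
  (∀ s, 0 < s → 0 ≤ ψ s) ∧ (∀ s, 0 < s → ContinuousAt ψ s) ∧
  ∀ (z : E) (m : ℕ) (a : Fin m → ℝ) (e f : Fin m → E), Fr K T a e f →
    ∑ i, ψ (a i) * ⟪z, f i⟫_ℝ ^ 2 ≤ Mv K T ψ z

variable [FiniteDimensional ℝ E]

theorem at_inner {m : ℕ} {e f : Fin m → E} {z : E} (hz : At e f z) (y : E) :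
    ∑ j, ⟪e j, y⟫_ℝ * ⟪z, f j⟫_ℝ = ⟪z, y⟫_ℝ := by
  have h : z = ∑ i, ⟪z, f i⟫_ℝ • e i := hz
  conv_rhs => rw [h]
  rw [_root_.sum_inner]
  refine Finset.sum_congr rfl (fun i _ => ?_)
  rw [real_inner_smul_left, mul_comm]

theorem good_one (hc : St_comp E) (hv : St_val E) {K T : Set E} (hK : IsBody K) (hT : IsBody T)
    (hall : AllFr K T) : Good K T (fun _ => 1) := by
  refine ⟨fun s _ => zero_le_one, fun s _ => continuousAt_const, ?_⟩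
  intro z m a e f hf
  obtain ⟨k, b, e', f', hf', hz⟩ := hall z
  rw [hv K T hK hT k b e' f' hf' z hz]
  have h1 := (hc K T hK hT m a e f k b e' f' hf hf' (fun j => ⟪z, f' j⟫_ℝ)).2.2.1
  simp only [one_mul]
  refine le_trans (le_of_eq ?_) h1
  refine Finset.sum_congr rfl (fun i _ => ?_)
  rw [at_inner hz]

theorem good_inv (hc : St_comp E) (hv : St_val E) {K T : Set E} (hK : IsBody K) (hT : IsBody T)
    (hall : AllFr K T) (l : ℝ) (hl : 0 < l) : Good K T (fun s => (s + l)⁻¹) := by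
  refine ⟨fun s hs => by positivity, fun s hs => ?_, ?_⟩
  · have h1 : s + l ≠ 0 := by positivity
    exact (continuousAt_id.add continuousAt_const).inv₀ h1
  intro z m a e f hf
  obtain ⟨k, b, e', f', hf', hz⟩ := hall z
  rw [hv K T hK hT k b e' f' hf' z hz]
  have h1 := (hc K T hK hT m a e f k b e' f' hf hf' (fun j => ⟪z, f' j⟫_ℝ)).2.2.2 l hl
  refine le_trans (le_of_eq ?_) (h1.trans (le_of_eq ?_))
  · refine Finset.sum_congr rfl (fun i _ => ?_)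
    rw [at_inner hz]
    rw [div_eq_mul_inv, mul_comm]
  · refine Finset.sum_congr rfl (fun i _ => ?_)
    rw [div_eq_mul_inv, mul_comm]

theorem Mv_phi (hv : St_val E) {K T : Set E} (hK : IsBody K) (hT : IsBody T)
    (hall : AllFr K T) (A₀ : ℝ) (L : Finset ℝ) (A : ℝ → ℝ) (z : E) :
    Mv K T (phi A₀ L A) z = A₀ * Mv K T (fun _ => 1) z +
      ∑ l ∈ L, A l * Mv K T (fun s => (s + l)⁻¹) z := by
  obtain ⟨k, b, e', f', hf', hz⟩ := hall z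
  rw [hv K T hK hT k b e' f' hf' z hz, hv K T hK hT k b e' f' hf' z hz]
  have h1 : ∀ l ∈ L, A l * Mv K T (fun s => (s + l)⁻¹) z =
      ∑ i, A l * ((b i + l)⁻¹ * ⟪z, f' i⟫_ℝ ^ 2) := by
    intro l _
    rw [hv K T hK hT k b e' f' hf' z hz, Finset.mul_sum]
  rw [Finset.sum_congr rfl h1, Finset.sum_comm, Finset.mul_sum, ← Finset.sum_add_distrib]
  refine Finset.sum_congr rfl (fun i _ => ?_)
  unfold phi
  rw [add_mul, Finset.sum_mul, one_mul]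
  congr 1
  refine Finset.sum_congr rfl (fun l _ => ?_)
  rw [div_eq_mul_inv]
  ring

theorem cont (_hc : St_comp E) (hv : St_val E) (hk : St_cpt E) : St_cont E := by
  intro K T hK hT hall A₀ L A hL
  rw [continuous_iff_continuousAt]
  intro x₀
  refine tendsto_of_subseq_tendsto (fun ns hns => ?_)
  obtain ⟨m, a, e, f, a₀, e₀, f₀, ψ, hψ, hfr, hf₀, hx₀, ha, he, hf⟩ := hk K T hK hT hall ns x₀ hns
  refine ⟨ψ, ?_⟩
  have h1 : ∀ k, Mv K T (phi A₀ L A) (ns (ψ k)) =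
      ∑ i, phi A₀ L A (a k i) * ⟪ns (ψ k), f k i⟫_ℝ * ⟪ns (ψ k), f k i⟫_ℝ := by
    intro k
    rw [hv K T hK hT m (a k) (e k) (f k) (hfr k).1 _ (hfr k).2]
    refine Finset.sum_congr rfl (fun i _ => ?_)
    ring
  have h2 : Mv K T (phi A₀ L A) x₀ =
      ∑ i, phi A₀ L A (a₀ i) * ⟪x₀, f₀ i⟫_ℝ * ⟪x₀, f₀ i⟫_ℝ := by
    rw [hv K T hK hT m a₀ e₀ f₀ hf₀ _ hx₀]
    refine Finset.sum_congr rfl (fun i _ => ?_)
    ring
  have h3 : Tendsto (fun k => ns (ψ k)) atTop (𝓝 x₀) := hns.comp hψ.tendsto_atTop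
  rw [h2]
  refine (tend (phi_cont A₀ L A hL) ha hf h3 h3 hf₀.pos).congr (fun k => ?_)
  rw [h1 k]

theorem dir (hc : St_comp E) (hv : St_val E) (hk : St_cpt E) : St_dir E := by
  intro K T hK hT hall x h
  have hlim : Tendsto (fun k : ℕ => x + (1 / ((k : ℝ) + 1)) • h) atTop (𝓝 x) := by
    have h1 : Tendsto (fun k : ℕ => x + (1 / ((k : ℝ) + 1)) • h) atTop (𝓝 (x + (0 : ℝ) • h)) :=
      tendsto_const_nhds.add ((tendsto_one_div_add_atTop_nhds_zero_nat).smul_const h)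
    rwa [zero_smul, add_zero] at h1
  obtain ⟨m, a, e, f, a₀, e₀, f₀, ψ, hψ, hfr, hf₀, hx₀, ha, he, hf⟩ :=
    hk K T hK hT hall _ x hlim
  obtain ⟨τ, hτd⟩ : ∃ τ : ℕ → ℝ, τ = fun k => 1 / ((ψ k : ℝ) + 1) := ⟨_, rfl⟩
  have hτ0 : ∀ k, 0 < τ k := by
    intro k
    rw [hτd]
    positivity
  have hτ : Tendsto τ atTop (𝓝 0) := by
    rw [hτd]
    exact (tendsto_one_div_add_atTop_nhds_zero_nat (𝕜 := ℝ)).comp hψ.tendsto_atTop
  have hfr' : ∀ k, Fr K T (a k) (e k) (f k) ∧ At (e k) (f k) (x + τ k • h) := by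
    intro k
    rw [hτd]
    exact hfr k
  have hx' : Tendsto (fun k => x + τ k • h) atTop (𝓝 x) := by
    have h1 : Tendsto (fun k => x + τ k • h) atTop (𝓝 (x + (0 : ℝ) • h)) :=
      tendsto_const_nhds.add (hτ.smul_const h)
    rwa [zero_smul, add_zero] at h1
  refine ⟨m, a₀, e₀, f₀, hf₀, hx₀, τ, hτ0, hτ, ?_⟩
  -- good functions
  have good : ∀ ψ : ℝ → ℝ, Good K T ψ →
      Tendsto (fun k => (Mv K T ψ (x + τ k • h) - Mv K T ψ x) / τ k) atTop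
        (𝓝 (2 * ∑ i, ψ (a₀ i) * ⟪x, f₀ i⟫_ℝ * ⟪h, f₀ i⟫_ℝ)) := by
    intro ψ hψ
    have hup := (tend hψ.2.1 ha hf hx' (tendsto_const_nhds (x := h)) hf₀.pos).const_mul 2
    refine tendsto_of_tendsto_of_tendsto_of_le_of_le tendsto_const_nhds hup ?_ ?_
    · intro k
      show 2 * ∑ i, ψ (a₀ i) * ⟪x, f₀ i⟫_ℝ * ⟪h, f₀ i⟫_ℝ ≤
        (Mv K T ψ (x + τ k • h) - Mv K T ψ x) / τ k
      rw [le_div_iff₀ (hτ0 k)]
      have h1 := hψ.2.2 (x + τ k • h) m a₀ e₀ f₀ hf₀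
      rw [hv K T hK hT m a₀ e₀ f₀ hf₀ x hx₀]
      have h2 : ∑ i, ψ (a₀ i) * ⟪x + τ k • h, f₀ i⟫_ℝ ^ 2 =
          ∑ i, ψ (a₀ i) * ⟪x, f₀ i⟫_ℝ ^ 2 +
          (2 * ∑ i, ψ (a₀ i) * ⟪x, f₀ i⟫_ℝ * ⟪h, f₀ i⟫_ℝ) * τ k +
          ∑ i, ψ (a₀ i) * (τ k * ⟪h, f₀ i⟫_ℝ) ^ 2 := by
        rw [Finset.mul_sum, Finset.sum_mul, ← Finset.sum_add_distrib, ← Finset.sum_add_distrib]
        refine Finset.sum_congr rfl (fun i _ => ?_)
        rw [_root_.inner_add_left, real_inner_smul_left]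
        ring
      have h3 : 0 ≤ ∑ i, ψ (a₀ i) * (τ k * ⟪h, f₀ i⟫_ℝ) ^ 2 :=
        Finset.sum_nonneg (fun i _ => mul_nonneg (hψ.1 _ (hf₀.pos i)) (sq_nonneg _))
      linarith
    · intro k
      show (Mv K T ψ (x + τ k • h) - Mv K T ψ x) / τ k ≤
        2 * ∑ i, ψ (a k i) * ⟪x + τ k • h, f k i⟫_ℝ * ⟪h, f k i⟫_ℝ
      rw [div_le_iff₀ (hτ0 k)]
      obtain ⟨hk1, hk2⟩ := hfr' k
      have h1 := hψ.2.2 x m (a k) (e k) (f k) hk1
      rw [hv K T hK hT m (a k) (e k) (f k) hk1 _ hk2]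
      have h2 : ∑ i, ψ (a k i) * ⟪x, f k i⟫_ℝ ^ 2 =
          ∑ i, ψ (a k i) * ⟪x + τ k • h, f k i⟫_ℝ ^ 2 -
          (2 * ∑ i, ψ (a k i) * ⟪x + τ k • h, f k i⟫_ℝ * ⟪h, f k i⟫_ℝ) * τ k +
          ∑ i, ψ (a k i) * (τ k * ⟪h, f k i⟫_ℝ) ^ 2 := by
        rw [Finset.mul_sum, Finset.sum_mul, ← Finset.sum_sub_distrib, ← Finset.sum_add_distrib]
        refine Finset.sum_congr rfl (fun i _ => ?_)
        rw [_root_.inner_add_left, real_inner_smul_left]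
        ring
      have h3 : 0 ≤ ∑ i, ψ (a k i) * (τ k * ⟪h, f k i⟫_ℝ) ^ 2 :=
        Finset.sum_nonneg (fun i _ => mul_nonneg (hψ.1 _ (hk1.pos i)) (sq_nonneg _))
      linarith
  intro A₀ L A hL
  have h1 := (good _ (good_one hc hv hK hT hall)).const_mul A₀
  have h2 : Tendsto (fun k => ∑ l ∈ L, A l *
      ((Mv K T (fun s => (s + l)⁻¹) (x + τ k • h) - Mv K T (fun s => (s + l)⁻¹) x) / τ k)) atTop
      (𝓝 (∑ l ∈ L, A l * (2 * ∑ i, (a₀ i + l)⁻¹ * ⟪x, f₀ i⟫_ℝ * ⟪h, f₀ i⟫_ℝ))) :=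
    tendsto_finsetSum _ (fun l hl =>
      (good _ (good_inv hc hv hK hT hall l (hL l hl))).const_mul (A l))
  have h3 := h1.add h2
  have h4 : A₀ * (2 * ∑ i, (1 : ℝ) * ⟪x, f₀ i⟫_ℝ * ⟪h, f₀ i⟫_ℝ) +
      ∑ l ∈ L, A l * (2 * ∑ i, (a₀ i + l)⁻¹ * ⟪x, f₀ i⟫_ℝ * ⟪h, f₀ i⟫_ℝ) =
      2 * ∑ i, phi A₀ L A (a₀ i) * ⟪x, f₀ i⟫_ℝ * ⟪h, f₀ i⟫_ℝ := by
    have h5 : ∀ l ∈ L, A l * (2 * ∑ i, (a₀ i + l)⁻¹ * ⟪x, f₀ i⟫_ℝ * ⟪h, f₀ i⟫_ℝ) =
        ∑ i, 2 * (A l / (a₀ i + l) * ⟪x, f₀ i⟫_ℝ * ⟪h, f₀ i⟫_ℝ) := by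
      intro l _
      rw [Finset.mul_sum, Finset.mul_sum]
      refine Finset.sum_congr rfl (fun i _ => ?_)
      rw [div_eq_mul_inv]
      ring
    rw [Finset.sum_congr rfl h5, Finset.sum_comm, Finset.mul_sum, Finset.mul_sum,
      ← Finset.sum_add_distrib, Finset.mul_sum]
    refine Finset.sum_congr rfl (fun i _ => ?_)
    unfold phi
    rw [← Finset.mul_sum, ← Finset.sum_mul, ← Finset.sum_mul]
    ring
  rw [← h4]
  refine h3.congr (fun k => ?_)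
  rw [Mv_phi hv hK hT hall, Mv_phi hv hK hT hall]
  have h6 : ∑ l ∈ L, A l * ((Mv K T (fun s => (s + l)⁻¹) (x + τ k • h) -
      Mv K T (fun s => (s + l)⁻¹) x) / τ k) =
      (∑ l ∈ L, A l * Mv K T (fun s => (s + l)⁻¹) (x + τ k • h) -
        ∑ l ∈ L, A l * Mv K T (fun s => (s + l)⁻¹) x) / τ k := by
    rw [← Finset.sum_sub_distrib, Finset.sum_div]
    refine Finset.sum_congr rfl (fun l _ => ?_)
    ring
  rw [h6]
  ring

end Pool.Agent.NH64.GM.Dir
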