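import Pool.Agent.NH64.GM.Incl

/-!
GM2: the geometric mean of two ellipsoids.
-/

open scoped InnerProductSpace BigOperators Topology
open Filter

set_option linter.unusedSectionVars false

namespace Pool.Agent.NH64.GM.Ell

open Incl

variable {E : Type} [NormedAddCommGroup E] [InnerProductSpace ℝ E]

lemma sym_comm {u : E →L[ℝ] E} (h : Sym u) (x y : E) : ⟪u x, y⟫_ℝ = ⟪u y, x⟫_ℝ := by
  rw [h x y, real_inner_comm]

lemma quad_expand {u : E →L[ℝ] E} (h : Sym u) (x y : E) (t : ℝ) :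
    ⟪u (x + t • y), x + t • y⟫_ℝ = ⟪u x, x⟫_ℝ + 2 * t * ⟪u x, y⟫_ℝ + t ^ 2 * ⟪u y, y⟫_ℝ := by
  rw [map_add, map_smul, inner_add_left, inner_add_right, inner_add_right,
    real_inner_smul_left, real_inner_smul_right, real_inner_smul_left, real_inner_smul_right,
    sym_comm h y x]
  ring

lemma psd_cs {u : E →L[ℝ] E} (h : Psd u) (x y : E) :
    ⟪u x, y⟫_ℝ ^ 2 ≤ ⟪u x, x⟫_ℝ * ⟪u y, y⟫_ℝ := by
  have h1 : discrim ⟪u y, y⟫_ℝ (2 * ⟪u x, y⟫_ℝ) ⟪u x, x⟫_ℝ ≤ 0 := by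
    refine discrim_le_zero fun t => ?_
    have := h.2 (x + t • y)
    rw [quad_expand h.1] at this
    linarith
  rw [discrim] at h1
  nlinarith

lemma psd_ker {u : E →L[ℝ] E} (h : Psd u) {x : E} (hx : ⟪u x, x⟫_ℝ = 0) : u x = 0 := by
  have h1 := psd_cs h x (u x)
  rw [hx, zero_mul] at h1
  have h2 : ⟪u x, u x⟫_ℝ = 0 := by
    have := sq_nonneg ⟪u x, u x⟫_ℝ
    exact pow_eq_zero_iff (n := 2) (by norm_num) |>.1 (le_antisymm h1 this)
  exact inner_self_eq_zero.1 h2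

lemma Pd.psd {u : E →L[ℝ] E} (h : Pd u) : Psd u := by
  refine ⟨h.1, fun x => ?_⟩
  rcases eq_or_ne x 0 with rfl | hx
  · simp
  · exact (h.2 x hx).le

/-- Triangle inequality for the seminorm of a psd form. -/
lemma psd_tri {u : E →L[ℝ] E} (h : Psd u) (x y : E) :
    √⟪u (x + y), x + y⟫_ℝ ≤ √⟪u x, x⟫_ℝ + √⟪u y, y⟫_ℝ := by
  refine Real.sqrt_le_iff.2 ⟨by positivity, ?_⟩
  have h1 := quad_expand h.1 x y 1
  rw [one_smul] at h1
  rw [h1, add_sq, Real.sq_sqrt (h.2 x), Real.sq_sqrt (h.2 y)]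
  have h2 : ⟪u x, y⟫_ℝ ≤ √⟪u x, x⟫_ℝ * √⟪u y, y⟫_ℝ := by
    rw [← Real.sqrt_mul (h.2 x)]
    exact (le_abs_self _).trans (Real.abs_le_sqrt (psd_cs h x y))
  nlinarith

lemma quad_smul {u : E →L[ℝ] E} (t : ℝ) (x : E) :
    ⟪u (t • x), t • x⟫_ℝ = t ^ 2 * ⟪u x, x⟫_ℝ := by
  rw [map_smul, real_inner_smul_left, real_inner_smul_right]; ring

/-- A continuous function positive on the unit sphere dominates a multiple of `‖x‖²`. -/
lemma pd_lower [FiniteDimensional ℝ E] {u : E →L[ℝ] E} (h : Pd u) :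
    ∃ c : ℝ, 0 < c ∧ ∀ x, c * ‖x‖ ^ 2 ≤ ⟪u x, x⟫_ℝ := by
  have : ProperSpace E := FiniteDimensional.proper ℝ E
  rcases subsingleton_or_nontrivial E with hE | hE
  · exact ⟨1, one_pos, fun x => by simp [Subsingleton.elim x 0]⟩
  obtain ⟨x0, hx0, hmin⟩ := (isCompact_sphere (0 : E) 1).exists_isMinOn
    (NormedSpace.sphere_nonempty.2 zero_le_one) (f := fun x : E => ⟪u x, x⟫_ℝ)
    (Continuous.continuousOn (by fun_prop))
  have hx0' : x0 ≠ 0 := by
    rintro rfl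
    simp at hx0
  refine ⟨⟪u x0, x0⟫_ℝ, h.2 x0 hx0', fun x => ?_⟩
  rcases eq_or_ne x 0 with rfl | hx
  · simp
  have hn : 0 < ‖x‖ := norm_pos_iff.2 hx
  have h1 : ⟪u x0, x0⟫_ℝ ≤ ⟪u (‖x‖⁻¹ • x), ‖x‖⁻¹ • x⟫_ℝ := hmin (by
    rw [mem_sphere_zero_iff_norm, norm_smul, norm_inv, norm_norm, inv_mul_cancel₀ hn.ne'])
  rw [quad_smul] at h1
  calc ⟪u x0, x0⟫_ℝ * ‖x‖ ^ 2 ≤ ‖x‖⁻¹ ^ 2 * ⟪u x, x⟫_ℝ * ‖x‖ ^ 2 := by gcongr
    _ = ⟪u x, x⟫_ℝ := by field_simp

lemma ell_body [FiniteDimensional ℝ E] {u : E →L[ℝ] E} (h : Pd u) : IsBody (ell u) := by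
  have : ProperSpace E := FiniteDimensional.proper ℝ E
  obtain ⟨c, hc, hcu⟩ := pd_lower h
  have hp := Pd.psd h
  refine ⟨?_, ?_, ?_⟩
  · refine Metric.isCompact_of_isClosed_isBounded ?_ ?_
    · exact isClosed_le (by fun_prop) continuous_const
    · refine (Metric.isBounded_iff_subset_closedBall 0).2 ⟨√c⁻¹, fun x hx => ?_⟩
      rw [Metric.mem_closedBall, dist_zero_right]
      refine Real.le_sqrt_of_sq_le ?_
      have h1 := (hcu x).trans hx
      rw [← one_div, le_div_iff₀ hc]; linarith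
  · intro x hx y hy a b ha hb hab
    change ⟪u (a • x + b • y), a • x + b • y⟫_ℝ ≤ 1
    have h1 := psd_tri hp (a • x) (b • y)
    rw [quad_smul, quad_smul, Real.sqrt_mul (sq_nonneg _), Real.sqrt_mul (sq_nonneg _),
      Real.sqrt_sq ha, Real.sqrt_sq hb] at h1
    have h2 : √⟪u x, x⟫_ℝ ≤ 1 := Real.sqrt_le_one.2 hx
    have h3 : √⟪u y, y⟫_ℝ ≤ 1 := Real.sqrt_le_one.2 hy
    have h4 : √⟪u (a • x + b • y), a • x + b • y⟫_ℝ ≤ 1 := by nlinarith
    exact Real.sqrt_le_one.1 h4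
  · have hopen : IsOpen {x : E | ⟪u x, x⟫_ℝ < 1} := isOpen_lt (by fun_prop) continuous_const
    refine mem_interior.2 ⟨_, fun x hx => ?_, hopen, ?_⟩
    · exact le_of_lt (show ⟪u x, x⟫_ℝ < 1 from hx)
    · simp

section coords

variable {m : ℕ} {e : Fin m → E} {u : E →L[ℝ] E} {ν : Fin m → ℝ}

/-- The data of a simultaneous diagonalisation. -/
structure Diag (u v : E →L[ℝ] E) (e : Fin m → E) (ν : Fin m → ℝ) : Prop where
  symu : Sym u
  pos : ∀ i, 0 < ν i
  dual : ∀ i j, ⟪u (e i), e j⟫_ℝ = if i = j then 1 else 0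
  dec : ∀ z, z = ∑ i, ⟪u z, e i⟫_ℝ • e i
  vv : ∀ x y, ⟪v x, y⟫_ℝ = ∑ i, ν i * ⟪u x, e i⟫_ℝ * ⟪u y, e i⟫_ℝ

variable {v : E →L[ℝ] E}

lemma Diag.uu (h : Diag u v e ν) (x y : E) :
    ⟪u x, y⟫_ℝ = ∑ i, ⟪u x, e i⟫_ℝ * ⟪u y, e i⟫_ℝ := by
  conv_lhs => rw [h.dec y]
  rw [inner_sum]
  refine Finset.sum_congr rfl fun i _ => ?_
  rw [real_inner_smul_right]; ring

/-- coordinates of a combination -/
lemma Diag.coord (h : Diag u v e ν) (t : Fin m → ℝ) (j : Fin m) :
    ⟪u (∑ i, t i • e i), e j⟫_ℝ = t j := by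
  rw [map_sum, sum_inner]
  simp only [map_smul, real_inner_smul_left, h.dual]
  simp

/-- The form with coefficients `γ`. -/
noncomputable def form (u : E →L[ℝ] E) (e : Fin m → E) (γ : Fin m → ℝ) : E →L[ℝ] E :=
  ∑ i, γ i • (innerSL ℝ (u (e i))).smulRight (u (e i))

lemma Diag.form_apply (h : Diag u v e ν) (γ : Fin m → ℝ) (x y : E) :
    ⟪form u e γ x, y⟫_ℝ = ∑ i, γ i * ⟪u x, e i⟫_ℝ * ⟪u y, e i⟫_ℝ := by
  rw [form, _root_.sum_apply, sum_inner]
  refine Finset.sum_congr rfl fun i _ => ?_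
  rw [_root_.smul_apply, ContinuousLinearMap.smulRight_apply, innerSL_apply_apply,
    real_inner_smul_left, real_inner_smul_left, sym_comm h.symu (e i) x,
    sym_comm h.symu (e i) y]
  ring

lemma Diag.form_sym (h : Diag u v e ν) (γ : Fin m → ℝ) : Sym (form u e γ) := by
  intro x y
  calc ⟪form u e γ x, y⟫_ℝ = _ := h.form_apply γ x y
    _ = ∑ i, γ i * ⟪u y, e i⟫_ℝ * ⟪u x, e i⟫_ℝ := Finset.sum_congr rfl fun i _ => by ring
    _ = ⟪form u e γ y, x⟫_ℝ := (h.form_apply γ y x).symm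
    _ = ⟪x, form u e γ y⟫_ℝ := real_inner_comm _ _

lemma Diag.form_pd (h : Diag u v e ν) {γ : Fin m → ℝ} (hγ : ∀ i, 0 < γ i) :
    Pd (form u e γ) := by
  refine ⟨h.form_sym γ, fun x hx => ?_⟩
  rw [h.form_apply]
  have h1 : ∃ i, ⟪u x, e i⟫_ℝ ≠ 0 := by
    by_contra hcon
    push Not at hcon
    apply hx
    rw [h.dec x]
    simp [hcon]
  obtain ⟨i, hi⟩ := h1
  refine Finset.sum_pos' (fun j _ => ?_) ⟨i, Finset.mem_univ i, ?_⟩
  · have := (hγ j).le
    have h2 := mul_self_nonneg ⟪u x, e j⟫_ℝ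
    rw [mul_assoc]; positivity
  · have := hγ i
    have h2 := mul_self_pos.2 hi
    rw [mul_assoc]; positivity

/-- Polar of a diagonal ellipsoid. -/
lemma Diag.pol_form (h : Diag u v e ν) {α β γ : Fin m → ℝ} (hα : ∀ i, 0 < α i)
    (hγ : ∀ i, 0 < γ i) (hab : ∀ i, α i * β i = γ i ^ 2) :
    pol {x : E | ∑ i, α i * ⟪u x, e i⟫_ℝ ^ 2 ≤ 1} =
      (form u e γ) '' {z : E | ∑ i, β i * ⟪u z, e i⟫_ℝ ^ 2 ≤ 1} := by
  have hβ : ∀ i, 0 < β i := fun i => by
    have h1 := hab i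
    have h2 := hα i
    have h3 := hγ i
    by_contra hcon
    push Not at hcon
    nlinarith [pow_pos h3 2]
  ext y
  constructor
  · intro hy
    -- z_i = ⟪y, e_i⟫ / γ_i
    have hyx : ∀ x : E, ⟪x, y⟫_ℝ = ∑ i, ⟪u x, e i⟫_ℝ * ⟪e i, y⟫_ℝ := fun x => by
      conv_lhs => rw [h.dec x]
      rw [sum_inner]
      exact Finset.sum_congr rfl fun i _ => by rw [real_inner_smul_left]
    refine ⟨∑ i, (⟪e i, y⟫_ℝ / γ i) • e i, ?_, ?_⟩
    · change ∑ i, β i * ⟪u (∑ i, (⟪e i, y⟫_ℝ / γ i) • e i), e i⟫_ℝ ^ 2 ≤ 1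
      simp only [h.coord]
      -- S = ∑ β_i y_i² / γ_i² = ∑ y_i²/α_i
      set S : ℝ := ∑ i, β i * (⟪e i, y⟫_ℝ / γ i) ^ 2 with hS
      have hS0 : 0 ≤ S := Finset.sum_nonneg fun i _ => by have := (hβ i).le; positivity
      by_contra hcon
      push Not at hcon
      have hSp : 0 < S := by linarith
      set x : E := ∑ i, ((√S)⁻¹ * (⟪e i, y⟫_ℝ / α i)) • e i with hx
      have hSS : S = ∑ i, α i * (⟪e i, y⟫_ℝ / α i) ^ 2 := by
        rw [hS]
        refine Finset.sum_congr rfl fun i _ => ?_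
        have h1 := hab i
        have h2 := (hα i).ne'
        have h3 := (hγ i).ne'
        field_simp
        rw [← h1]; ring
      have hxK : x ∈ {x : E | ∑ i, α i * ⟪u x, e i⟫_ℝ ^ 2 ≤ 1} := by
        change ∑ i, α i * ⟪u x, e i⟫_ℝ ^ 2 ≤ 1
        simp only [hx, h.coord]
        have : ∑ i, α i * ((√S)⁻¹ * (⟪e i, y⟫_ℝ / α i)) ^ 2 =
            ((√S)⁻¹) ^ 2 * ∑ i, α i * (⟪e i, y⟫_ℝ / α i) ^ 2 := by
          rw [Finset.mul_sum]
          exact Finset.sum_congr rfl fun i _ => by ring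
        rw [this, ← hSS, inv_pow, Real.sq_sqrt hS0, inv_mul_cancel₀ hSp.ne']
      have h1 := hy x hxK
      rw [hyx] at h1
      simp only [hx, h.coord] at h1
      have h2 : ∑ i, (√S)⁻¹ * (⟪e i, y⟫_ℝ / α i) * ⟪e i, y⟫_ℝ = (√S)⁻¹ * S := by
        rw [hSS, Finset.mul_sum]
        refine Finset.sum_congr rfl fun i _ => ?_
        have h2 := (hα i).ne'
        rw [← hSS]
        field_simp
      rw [h2] at h1
      have h3 : (√S)⁻¹ * S = √S := by
        have : S = √S * √S := (Real.mul_self_sqrt hS0).symm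
        have h4 : √S ≠ 0 := (Real.sqrt_pos.2 hSp).ne'
        calc (√S)⁻¹ * S = (√S)⁻¹ * (√S * √S) := by rw [← this]
          _ = √S := by field_simp
      rw [h3] at h1
      have h4 : 1 < √S := by
        rw [show (1 : ℝ) = √1 by simp]
        exact Real.sqrt_lt_sqrt zero_le_one hcon
      linarith
    · refine ext_inner_right ℝ fun x => ?_
      rw [h.form_apply, real_inner_comm, hyx]
      refine Finset.sum_congr rfl fun i _ => ?_
      rw [h.coord]
      have := (hγ i).ne'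
      field_simp
  · rintro ⟨z, hz, rfl⟩ x hx
    rw [real_inner_comm, h.form_apply]
    have hz' : ∑ i, β i * ⟪u z, e i⟫_ℝ ^ 2 ≤ 1 := hz
    have hx' : ∑ i, α i * ⟪u x, e i⟫_ℝ ^ 2 ≤ 1 := hx
    have h1 : ∀ i ∈ Finset.univ, γ i * ⟪u z, e i⟫_ℝ * ⟪u x, e i⟫_ℝ ≤
        1 / 2 * (β i * ⟪u z, e i⟫_ℝ ^ 2) + 1 / 2 * (α i * ⟪u x, e i⟫_ℝ ^ 2) := by
      intro i _
      have h3 := hα i
      have h4 := hβ i
      have h5 : γ i = √(α i) * √(β i) := by
        rw [← Real.sqrt_mul h3.le, hab i, Real.sqrt_sq (hγ i).le]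
      have h6 := sq_nonneg (√(β i) * ⟪u z, e i⟫_ℝ - √(α i) * ⟪u x, e i⟫_ℝ)
      rw [sub_sq, mul_pow, mul_pow, Real.sq_sqrt h3.le, Real.sq_sqrt h4.le] at h6
      rw [h5]
      nlinarith
    refine (Finset.sum_le_sum h1).trans ?_
    rw [Finset.sum_add_distrib, ← Finset.mul_sum, ← Finset.mul_sum]
    linarith

end coords

theorem ell_mean (E : Type) [NormedAddCommGroup E] [InnerProductSpace ℝ E]
    [FiniteDimensional ℝ E] (h0 : St_simul E) : St_ell E := by
  intro u v hu hv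
  obtain ⟨m, e, -, hdual, horth, hdec⟩ := h0 ⊤ u v hu.1 hv.1 fun z _ hz => hu.2 z hz
  set ν : Fin m → ℝ := fun i => ⟪v (e i), e i⟫_ℝ with hν
  have he0 : ∀ i, e i ≠ 0 := fun i h => by
    have := hdual i i
    rw [h] at this
    simp at this
  have hνpos : ∀ i, 0 < ν i := fun i => hv.2 _ (he0 i)
  have hvv : ∀ x y, ⟪v x, y⟫_ℝ = ∑ i, ν i * ⟪u x, e i⟫_ℝ * ⟪u y, e i⟫_ℝ := by
    intro x y
    conv_lhs => rw [hdec x trivial, hdec y trivial]
    rw [map_sum, sum_inner]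
    refine Finset.sum_congr rfl fun i _ => ?_
    rw [inner_sum, Finset.sum_eq_single i]
    · rw [map_smul, real_inner_smul_left, real_inner_smul_right]; ring
    · intro j _ hj
      rw [map_smul, real_inner_smul_left, real_inner_smul_right, horth i j hj.symm]; ring
    · simp
  have hD : Diag u v e ν := ⟨hu.1, hνpos, hdual, fun z => hdec z trivial, hvv⟩
  set γ : Fin m → ℝ := fun i => √(ν i) with hγ
  have hγpos : ∀ i, 0 < γ i := fun i => Real.sqrt_pos.2 (hνpos i)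
  have hγsq : ∀ i, γ i ^ 2 = ν i := fun i => Real.sq_sqrt (hνpos i).le
  set g := form u e γ with hg
  have hgPd : Pd g := hD.form_pd hγpos
  have hgpsd := Pd.psd hgPd
  have hgapp : ∀ x y, ⟪g x, y⟫_ℝ = ∑ i, γ i * ⟪u x, e i⟫_ℝ * ⟪u y, e i⟫_ℝ :=
    hD.form_apply γ
  refine ⟨g, hgPd, ?_, ?_, ?_⟩
  · -- Dom
    intro x x'
    rw [hD.uu x x, hgapp, hvv x' x', Finset.mul_sum, ← Finset.sum_add_distrib,
      ← Finset.sum_add_distrib]
    refine Finset.sum_nonneg fun i _ => ?_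
    have := sq_nonneg (⟪u x, e i⟫_ℝ + γ i * ⟪u x', e i⟫_ℝ)
    rw [add_sq, mul_pow, hγsq] at this
    nlinarith
  · -- maximality
    intro w hw hdom x
    by_contra hcon
    push Not at hcon
    have hx : x ≠ 0 := by
      rintro rfl
      simp at hcon
    have : ProperSpace E := FiniteDimensional.proper ℝ E
    have hE : Nontrivial E := ⟨x, 0, hx⟩
    have hucont : Continuous fun z : E => ⟪u z, z⟫_ℝ := by fun_prop
    have hne : ∀ z ∈ Metric.sphere (0 : E) 1, ⟪u z, z⟫_ℝ ≠ 0 := by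
      intro z hz
      refine (hu.2 z ?_).ne'
      rintro rfl
      simp at hz
    obtain ⟨x0, hx0, hmax⟩ := (isCompact_sphere (0 : E) 1).exists_isMaxOn
      (NormedSpace.sphere_nonempty.2 zero_le_one)
      (f := fun z : E => (⟪w z, z⟫_ℝ - ⟪g z, z⟫_ℝ) / ⟪u z, z⟫_ℝ)
      (ContinuousOn.div (Continuous.continuousOn (by fun_prop)) hucont.continuousOn hne)
    set lam := (⟪w x0, x0⟫_ℝ - ⟪g x0, x0⟫_ℝ) / ⟪u x0, x0⟫_ℝ with hlam
    have hx0' : x0 ≠ 0 := by
      rintro rfl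
      simp at hx0
    have hall : ∀ z : E, ⟪w z, z⟫_ℝ - ⟪g z, z⟫_ℝ ≤ lam * ⟪u z, z⟫_ℝ := by
      intro z
      rcases eq_or_ne z 0 with rfl | hz
      · simp
      have hn : 0 < ‖z‖ := norm_pos_iff.2 hz
      have h1 : (⟪w (‖z‖⁻¹ • z), ‖z‖⁻¹ • z⟫_ℝ - ⟪g (‖z‖⁻¹ • z), ‖z‖⁻¹ • z⟫_ℝ) /
          ⟪u (‖z‖⁻¹ • z), ‖z‖⁻¹ • z⟫_ℝ ≤ lam := hmax (by
        rw [mem_sphere_zero_iff_norm, norm_smul, norm_inv, norm_norm, inv_mul_cancel₀ hn.ne'])
      rw [quad_smul, quad_smul, quad_smul, ← mul_sub, mul_div_mul_left _ _ (by positivity),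
        div_le_iff₀ (hu.2 z hz)] at h1
      exact h1
    have hlampos : 0 < lam := by
      have h1 := hall x
      have h2 := hu.2 x hx
      by_contra hc
      push Not at hc
      nlinarith
    have hB : Psd (lam • u - w + g) := by
      refine ⟨?_, fun z => ?_⟩
      · intro a b
        simp only [_root_.add_apply, _root_.sub_apply,
          _root_.smul_apply, inner_add_left, inner_sub_left, inner_add_right,
          inner_sub_right, real_inner_smul_left, real_inner_smul_right]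
        rw [hu.1 a b, hw a b, hgPd.1 a b]
      · simp only [_root_.add_apply, _root_.sub_apply,
          _root_.smul_apply, inner_add_left, inner_sub_left,
          real_inner_smul_left]
        linarith [hall z]
    have hBx : (lam • u - w + g) x0 = 0 := by
      refine psd_ker hB ?_
      simp only [_root_.add_apply, _root_.sub_apply,
        _root_.smul_apply, inner_add_left, inner_sub_left,
        real_inner_smul_left]
      have h2 := hu.2 x0 hx0'
      rw [hlam, div_mul_cancel₀ _ h2.ne']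
      ring
    simp only [_root_.add_apply, _root_.sub_apply,
      _root_.smul_apply] at hBx
    have hwx : w x0 = g x0 + lam • u x0 := by
      have h3 : g x0 + lam • u x0 - w x0 = 0 := by rw [← hBx]; abel
      exact (sub_eq_zero.1 h3).symm
    -- y = u⁻¹ (w x0)
    set y : E := ∑ i, ⟪w x0, e i⟫_ℝ • e i with hy
    have huy : u y = w x0 := by
      refine ext_inner_right ℝ fun z => ?_
      rw [hD.uu, hy]
      simp only [hD.coord]
      conv_rhs => rw [hD.dec z]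
      rw [inner_sum]
      exact Finset.sum_congr rfl fun i _ => by rw [real_inner_smul_right]; ring
    have h1 := hdom (-y) x0
    rw [map_neg, map_neg, inner_neg_neg, inner_neg_left, huy] at h1
    have h2 : ⟪w y, x0⟫_ℝ = ⟪w x0, y⟫_ℝ := sym_comm hw y x0
    rw [h2] at h1
    have h3 : ⟪w x0, y⟫_ℝ = ∑ i, ⟪w x0, e i⟫_ℝ ^ 2 := by
      rw [hy, inner_sum]
      exact Finset.sum_congr rfl fun i _ => by rw [real_inner_smul_right]; ring
    have h4 : ∀ i, ⟪w x0, e i⟫_ℝ = (γ i + lam) * ⟪u x0, e i⟫_ℝ := by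
      intro i
      rw [hwx, inner_add_left, real_inner_smul_left, hgapp]
      have : ∑ j, γ j * ⟪u x0, e j⟫_ℝ * ⟪u (e i), e j⟫_ℝ = γ i * ⟪u x0, e i⟫_ℝ := by
        simp only [hdual]
        simp
      rw [this]; ring
    have h5 : 0 < ∑ i, ((γ i + lam) ^ 2 - ν i) * ⟪u x0, e i⟫_ℝ ^ 2 := by
      have h6 : ∃ i, ⟪u x0, e i⟫_ℝ ≠ 0 := by
        by_contra hcon
        push Not at hcon
        apply hx0'
        rw [hD.dec x0]
        simp [hcon]
      obtain ⟨i, hi⟩ := h6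
      have h7 : ∀ j, 0 < (γ j + lam) ^ 2 - ν j := fun j => by
        have := hγpos j
        rw [← hγsq j]
        nlinarith
      refine Finset.sum_pos' (fun j _ => ?_) ⟨i, Finset.mem_univ i, ?_⟩
      · exact mul_nonneg (h7 j).le (sq_nonneg _)
      · exact mul_pos (h7 i) (by positivity)
    have h8 : ∑ i, ((γ i + lam) ^ 2 - ν i) * ⟪u x0, e i⟫_ℝ ^ 2 =
        (∑ i, ⟪w x0, e i⟫_ℝ ^ 2) - ⟪v x0, x0⟫_ℝ := by
      rw [hvv, ← Finset.sum_sub_distrib]
      refine Finset.sum_congr rfl fun i _ => ?_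
      rw [h4]; ring
    rw [h8] at h5
    linarith
  · -- the geometric mean
    have hbu := ell_body hu
    have hbv := ell_body hv
    have hueq : ell u = {x : E | ∑ i, (1 : ℝ) * ⟪u x, e i⟫_ℝ ^ 2 ≤ 1} := by
      ext x
      change ⟪u x, x⟫_ℝ ≤ 1 ↔ ∑ i, (1 : ℝ) * ⟪u x, e i⟫_ℝ ^ 2 ≤ 1
      rw [hD.uu x x]
      simp only [one_mul, sq]
    have hveq : ell v = {x : E | ∑ i, ν i * ⟪u x, e i⟫_ℝ ^ 2 ≤ 1} := by
      ext x
      change ⟪v x, x⟫_ℝ ≤ 1 ↔ ∑ i, ν i * ⟪u x, e i⟫_ℝ ^ 2 ≤ 1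
      rw [hvv x x]
      simp only [sq, mul_assoc]
    have hginj : Function.Injective g := by
      intro a b hab
      have h1 : g (a - b) = 0 := by rw [map_sub, hab, sub_self]
      by_contra hne
      have := hgPd.2 (a - b) (sub_ne_zero.2 hne)
      rw [h1, inner_zero_left] at this
      exact lt_irrefl _ this
    have hgsurj : Function.Surjective g := by
      have := (LinearMap.injective_iff_surjective (f := (g : E →ₗ[ℝ] E))).1 hginj
      exact this
    have himhalf : ∀ A B : Set E, half (g '' A) (g '' B) = g '' (half A B) := by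
      intro A B
      ext z
      constructor
      · rintro ⟨_, ⟨a, ha, rfl⟩, _, ⟨b, hb, rfl⟩, rfl⟩
        exact ⟨_, ⟨a, ha, b, hb, rfl⟩, by rw [map_smul, map_add]⟩
      · rintro ⟨_, ⟨a, ha, b, hb, rfl⟩, rfl⟩
        exact ⟨g a, ⟨a, ha, rfl⟩, g b, ⟨b, hb, rfl⟩, by rw [map_smul, map_add]⟩
    have hbim : ∀ A : Set E, IsBody A → pol (pol (g '' A)) = g '' A := by
      intro A hA
      refine pol_pol_of _ (hA.convex.linear_image (g : E →ₗ[ℝ] E))
        (hA.compact.image g.continuous).isClosed ⟨0, body_zero hA, map_zero g⟩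
    have hkey : ∀ m : ℕ, pol (AH (ell u) (ell v) m).1 = g '' (AH (ell u) (ell v) m).2 ∧
        pol (AH (ell u) (ell v) m).2 = g '' (AH (ell u) (ell v) m).1 := by
      intro m
      induction m with
      | zero =>
        change pol (ell u) = g '' (ell v) ∧ pol (ell v) = g '' (ell u)
        rw [hueq, hveq]
        refine ⟨hD.pol_form (fun _ => one_pos) hγpos fun i => ?_,
          hD.pol_form hνpos hγpos fun i => ?_⟩
        · rw [hγsq, one_mul]
        · rw [hγsq, mul_one]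
      | succ m ih =>
        obtain ⟨hA, hH⟩ := AH_body hbu hbv m
        set A := (AH (ell u) (ell v) m).1
        set H := (AH (ell u) (ell v) m).2
        have hH' : (AH (ell u) (ell v) (m + 1)).2 = pol (g '' (half A H)) := by
          change pol (half (pol A) (pol H)) = _
          rw [ih.1, ih.2, himhalf, half_comm]
        have hA' : (AH (ell u) (ell v) (m + 1)).1 = half A H := rfl
        refine ⟨?_, ?_⟩
        · rw [hH', hA']
          have hpre : pol (g '' (half A H)) = g ⁻¹' (pol (half A H)) := by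
            ext z
            constructor
            · intro hz a ha
              have := hz (g a) ⟨a, ha, rfl⟩
              rwa [hgPd.1 a z] at this
            · rintro hz _ ⟨a, ha, rfl⟩
              rw [hgPd.1 a z]
              exact hz a ha
          rw [hpre, Set.image_preimage_eq _ hgsurj]
        · rw [hH', hA', hbim _ (half_body hA hH)]
    have hHg : ∀ m : ℕ, (AH (ell u) (ell v) (m + 1)).2 ⊆ ell g := by
      intro m x hx
      have h1 : g x ∈ pol (AH (ell u) (ell v) (m + 1)).1 := by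
        rw [(hkey (m + 1)).1]
        exact ⟨x, hx, rfl⟩
      have h2 := h1 x (H_sub_A hbu hbv m hx)
      change ⟪g x, x⟫_ℝ ≤ 1
      rw [real_inner_comm]; exact h2
    have hcs : ∀ x ∈ ell g, ∀ z ∈ ell g, ⟪g z, x⟫_ℝ ≤ 1 := by
      intro x hx z hz
      have h1 := psd_cs hgpsd z x
      have h2 : ⟪g z, z⟫_ℝ ≤ 1 := hz
      have h3 : ⟪g x, x⟫_ℝ ≤ 1 := hx
      have h4 := hgpsd.2 z
      have h5 := hgpsd.2 x
      have h6 : ⟪g z, x⟫_ℝ ^ 2 ≤ 1 := by nlinarith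
      nlinarith [sq_nonneg (⟪g z, x⟫_ℝ - 1)]
    refine Set.Subset.antisymm ?_ ?_
    · intro x hx
      rw [geomMean, Set.mem_iInter] at hx
      obtain ⟨C, hC0, hC⟩ : ∃ C : ℝ, 0 ≤ C ∧ ∀ z ∈ (AH (ell u) (ell v) 1).1,
          √⟪g z, z⟫_ℝ ≤ 1 + C := by
        obtain ⟨z0, hz0, hmax⟩ := (AH_body hbu hbv 1).1.compact.exists_isMaxOn
          ⟨0, body_zero (AH_body hbu hbv 1).1⟩ (f := fun z : E => √⟪g z, z⟫_ℝ)
          (Continuous.continuousOn (by fun_prop))
        refine ⟨√⟪g z0, z0⟫_ℝ, Real.sqrt_nonneg _, fun z hz => ?_⟩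
        have : √⟪g z, z⟫_ℝ ≤ √⟪g z0, z0⟫_ℝ := hmax hz
        linarith
      have hbd : ∀ m : ℕ, ∀ z ∈ (AH (ell u) (ell v) (m + 1)).1,
          √⟪g z, z⟫_ℝ ≤ 1 + C * (1 / 2) ^ m := by
        intro m
        induction m with
        | zero => intro z hz; simpa using hC z hz
        | succ m ih =>
          rintro z ⟨a, ha, b, hb, rfl⟩
          have h1 := ih a ha
          have h2 : √⟪g b, b⟫_ℝ ≤ 1 := Real.sqrt_le_one.2 (hHg m hb)
          rw [quad_smul, Real.sqrt_mul (sq_nonneg _), Real.sqrt_sq (by norm_num)]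
          have h3 := psd_tri hgpsd a b
          rw [pow_succ]
          linarith
      have hlim : Tendsto (fun m : ℕ => 1 + C * (1 / 2 : ℝ) ^ m) atTop (𝓝 (1 + C * 0)) :=
        (tendsto_const_nhds.mul (tendsto_pow_atTop_nhds_zero_of_lt_one (by norm_num)
          (by norm_num))).const_add 1
      have := ge_of_tendsto hlim (Eventually.of_forall fun m => hbd m x (hx m))
      rw [mul_zero, add_zero] at this
      exact Real.sqrt_le_one.1 this
    · intro x hx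
      rw [geomMean, Set.mem_iInter]
      intro m
      rw [← pol_pol (AH_body hbu hbv (m + 1)).1, (hkey (m + 1)).1]
      rintro _ ⟨z, hz, rfl⟩
      exact hcs x hx z (hHg m hz)

end Pool.Agent.NH64.GM.Ell
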