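import Pool.Agent.NH64.GM.Stm

/-!
# Project GM, module GM6: frames from dual pairs

`frame : St_frame E` from `St_simul` and `St_bip`.
-/

open scoped InnerProductSpace BigOperators Topology
open Filter

namespace Pool.Agent.NH64.GM.Frame

open Pool.Agent.NH64.GM

set_option linter.unusedSectionVars false

variable {E : Type} [NormedAddCommGroup E] [InnerProductSpace ℝ E]

/-- A quadratic polynomial `t p + t² q ≥ 0` has `p = 0`. -/
theorem quad_zero (p q : ℝ) (h : ∀ t : ℝ, 0 ≤ t * p + t ^ 2 * q) : p = 0 := by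
  have hq : 0 < |q| + 1 := by positivity
  have h1 := h (-p / (2 * (|q| + 1)))
  have h2 : -p / (2 * (|q| + 1)) * p + (-p / (2 * (|q| + 1))) ^ 2 * (|q| + 1) =
      -(p ^ 2 / (4 * (|q| + 1))) := by
    field_simp
    ring
  have h3 : (-p / (2 * (|q| + 1))) ^ 2 * q ≤ (-p / (2 * (|q| + 1))) ^ 2 * (|q| + 1) :=
    mul_le_mul_of_nonneg_left (by linarith [le_abs_self q]) (sq_nonneg _)
  have h4 : p ^ 2 / (4 * (|q| + 1)) ≤ 0 := by linarith
  have h5 : p ^ 2 ≤ 0 := by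
    by_contra h6
    push Not at h6
    have : 0 < p ^ 2 / (4 * (|q| + 1)) := by positivity
    linarith
  exact pow_eq_zero_iff (two_ne_zero) |>.1 (le_antisymm h5 (sq_nonneg p))

/-- Cauchy-Schwarz for positive semidefinite forms. -/
theorem psd_cs {A : E →L[ℝ] E} (hA : Psd A) (x y : E) :
    ⟪A x, y⟫_ℝ ^ 2 ≤ ⟪A x, x⟫_ℝ * ⟪A y, y⟫_ℝ := by
  have h : ∀ t : ℝ, 0 ≤ ⟪A y, y⟫_ℝ * (t * t) + (2 * ⟪A x, y⟫_ℝ) * t + ⟪A x, x⟫_ℝ := by
    intro t
    have h1 := hA.2 (x + t • y)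
    have h2 : ⟪A y, x⟫_ℝ = ⟪A x, y⟫_ℝ := by
      rw [hA.1, real_inner_comm]
    simp only [map_add, map_smul, _root_.inner_add_left, _root_.inner_add_right,
      real_inner_smul_left, real_inner_smul_right, h2] at h1
    linarith
  have h1 := discrim_le_zero h
  rw [discrim] at h1
  nlinarith

/-- Kernel of a positive semidefinite form. -/
theorem psd_ker {A : E →L[ℝ] E} (hA : Psd A) {x : E} (hx : ⟪A x, x⟫_ℝ = 0) : A x = 0 := by
  have h := psd_cs hA x (A x)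
  rw [hx, zero_mul] at h
  have h1 : ⟪A x, A x⟫_ℝ = 0 := pow_eq_zero_iff (two_ne_zero) |>.1 (le_antisymm h (sq_nonneg _))
  exact inner_self_eq_zero.1 h1

/-- The polar inequality. -/
theorem polar_ineq {S : Set E} {A B : E →L[ℝ] E} (hA : Psd A)
    (h1 : ∀ x ∈ S, ⟪A x, x⟫_ℝ ≤ 1) (h2 : ∀ y ∈ pol S, ⟪B y, y⟫_ℝ ≤ 1) (z : E) :
    ⟪B (A z), A z⟫_ℝ ≤ ⟪A z, z⟫_ℝ := by
  rcases (hA.2 z).eq_or_lt' with h0 | h0
  · rw [psd_ker hA h0]
    simp
  · have hs : 0 < √⟪A z, z⟫_ℝ := Real.sqrt_pos.2 h0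
    have h3 : (√⟪A z, z⟫_ℝ)⁻¹ • A z ∈ pol S := by
      intro x hx
      rw [real_inner_smul_right, real_inner_comm (A z) x]
      have h4 := psd_cs hA z x
      have h5 : ⟪A z, x⟫_ℝ ^ 2 ≤ ⟪A z, z⟫_ℝ :=
        h4.trans (mul_le_of_le_one_right h0.le (h1 x hx))
      have h6 : ⟪A z, x⟫_ℝ ≤ √⟪A z, z⟫_ℝ := Real.le_sqrt_of_sq_le h5
      calc (√⟪A z, z⟫_ℝ)⁻¹ * ⟪A z, x⟫_ℝ ≤ (√⟪A z, z⟫_ℝ)⁻¹ * √⟪A z, z⟫_ℝ :=
            mul_le_mul_of_nonneg_left h6 (by positivity)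
        _ = 1 := inv_mul_cancel₀ hs.ne'
    have h4 := h2 _ h3
    rw [map_smul, real_inner_smul_left, real_inner_smul_right] at h4
    have h5 : ⟪B (A z), A z⟫_ℝ = (√⟪A z, z⟫_ℝ) ^ 2 *
        ((√⟪A z, z⟫_ℝ)⁻¹ * ((√⟪A z, z⟫_ℝ)⁻¹ * ⟪B (A z), A z⟫_ℝ)) := by
      field_simp
    rw [h5]
    calc (√⟪A z, z⟫_ℝ) ^ 2 * ((√⟪A z, z⟫_ℝ)⁻¹ * ((√⟪A z, z⟫_ℝ)⁻¹ * ⟪B (A z), A z⟫_ℝ))
        ≤ (√⟪A z, z⟫_ℝ) ^ 2 * 1 := mul_le_mul_of_nonneg_left h4 (sq_nonneg _)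
      _ = ⟪A z, z⟫_ℝ := by rw [mul_one, Real.sq_sqrt h0.le]

/-- Kernel of the block form. -/
theorem block_ker {w u v : E →L[ℝ] E} (hw : Sym w) (hu : Sym u) (hv : Sym v) (hD : Dom w u v)
    {x x' : E} (h0 : ⟪u x, x⟫_ℝ + 2 * ⟪w x, x'⟫_ℝ + ⟪v x', x'⟫_ℝ = 0) :
    u x + w x' = 0 ∧ w x + v x' = 0 := by
  constructor
  · have h1 : ∀ h : E, ⟪u x + w x', h⟫_ℝ = 0 := by
      intro h
      have h2 := quad_zero (2 * ⟪u x + w x', h⟫_ℝ) ⟪u h, h⟫_ℝ (fun t => by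
        have h3 := hD (x + t • h) x'
        have h4 : ⟪u h, x⟫_ℝ = ⟪u x, h⟫_ℝ := by rw [hu, real_inner_comm]
        have h5 : ⟪w h, x'⟫_ℝ = ⟪w x', h⟫_ℝ := by rw [hw, real_inner_comm]
        simp only [map_add, map_smul, _root_.inner_add_left, _root_.inner_add_right,
          real_inner_smul_left, real_inner_smul_right, h4, h5] at h3 ⊢
        linarith)
      linarith
    exact inner_self_eq_zero.1 (h1 _)
  · have h1 : ∀ h : E, ⟪w x + v x', h⟫_ℝ = 0 := by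
      intro h
      have h2 := quad_zero (2 * ⟪w x + v x', h⟫_ℝ) ⟪v h, h⟫_ℝ (fun t => by
        have h3 := hD x (x' + t • h)
        have h4 : ⟪v h, x'⟫_ℝ = ⟪v x', h⟫_ℝ := by rw [hv, real_inner_comm]
        simp only [map_add, map_smul, _root_.inner_add_left, _root_.inner_add_right,
          real_inner_smul_left, real_inner_smul_right, h4] at h3 ⊢
        linarith)
      linarith
    exact inner_self_eq_zero.1 (h1 _)

/-- The relations at a fixed vector of `k w`. -/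
theorem rel {K T : Set E} (hbK : pol (pol K) = K) {w u v k p q : E →L[ℝ] E}
    (ht : (w, u, v) ∈ Wset K T) (hs : (k, p, q) ∈ Wset (pol K) (pol T)) {z : E}
    (hz : k (w z) = z) :
    u (p (w z)) = w z ∧ w (p (w z)) = v z ∧ k (v z) = p (w z) ∧ q (v z) = z := by
  obtain ⟨hw, hu, hv, huK, hvT, hD⟩ := ht
  obtain ⟨hk, hp, hq, hpK, hqT, hD'⟩ := hs
  dsimp only at hw hu hv huK hvT hD hk hp hq hpK hqT hD'
  have i2 := polar_ineq (S := pol K) (B := u) hp hpK (by rw [hbK]; exact huK) (w z)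
  have i3 := polar_ineq (S := T) (B := q) hv hvT hqT z
  have d1 := hD (-p (w z)) z
  have d2 := hD' (w z) (-v z)
  have e1 : ⟪w (p (w z)), z⟫_ℝ = ⟪p (w z), w z⟫_ℝ := hw.1 _ _
  have e2 : ⟪k (w z), v z⟫_ℝ = ⟪v z, z⟫_ℝ := by rw [hz, real_inner_comm]
  simp only [map_neg, _root_.inner_neg_left, _root_.inner_neg_right, neg_neg, e1, e2] at d1 d2
  have z1 : ⟪u (-p (w z)), -p (w z)⟫_ℝ + 2 * ⟪w (-p (w z)), z⟫_ℝ + ⟪v z, z⟫_ℝ = 0 := by
    simp only [map_neg, _root_.inner_neg_left, _root_.inner_neg_right, neg_neg, e1]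
    linarith
  have z2 : ⟪p (w z), w z⟫_ℝ + 2 * ⟪k (w z), -v z⟫_ℝ + ⟪q (-v z), -v z⟫_ℝ = 0 := by
    simp only [map_neg, _root_.inner_neg_left, _root_.inner_neg_right, neg_neg, e2]
    linarith
  obtain ⟨r1, r2⟩ := block_ker hw.1 hu.1 hv.1 hD z1
  obtain ⟨r3, r4⟩ := block_ker hk.1 hp.1 hq.1 hD' z2
  rw [map_neg] at r1 r2 r3 r4
  refine ⟨?_, ?_, ?_, ?_⟩
  · exact (neg_add_eq_zero.1 r1)
  · exact (neg_add_eq_zero.1 r2)
  · exact (add_neg_eq_zero.1 r3).symm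
  · rw [hz] at r4
    exact (add_neg_eq_zero.1 r4).symm

theorem swap {K T : Set E} {w u v : E →L[ℝ] E} (ht : (w, u, v) ∈ Wset K T) :
    (w, v, u) ∈ Wset T K := by
  obtain ⟨hw, hu, hv, huK, hvT, hD⟩ := ht
  dsimp only at hw hu hv huK hvT hD
  refine ⟨hw, hv, hu, hvT, huK, ?_⟩
  intro x x'
  show 0 ≤ ⟪v x, x⟫_ℝ + 2 * ⟪w x, x'⟫_ℝ + ⟪u x', x'⟫_ℝ
  have h1 := hD x' x
  have h2 : ⟪w x', x⟫_ℝ = ⟪w x, x'⟫_ℝ := by rw [hw.1, real_inner_comm]
  rw [h2] at h1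
  linarith

/-- The Bessel inequality for a psd form. -/
theorem bessel {A : E →L[ℝ] E} (hA : Psd A) {m : ℕ} (α : Fin m → ℝ) (e f : Fin m → E)
    (hd : ∀ i j, ⟪e i, f j⟫_ℝ = if i = j then 1 else 0) (hAe : ∀ i, A (e i) = α i • f i) (x : E) :
    ∑ i, α i * ⟪x, f i⟫_ℝ ^ 2 ≤ ⟪A x, x⟫_ℝ := by
  have h := hA.2 (x - ∑ i, ⟪x, f i⟫_ℝ • e i)
  have h1 : A (∑ i, ⟪x, f i⟫_ℝ • e i) = ∑ i, (⟪x, f i⟫_ℝ * α i) • f i := by
    rw [map_sum]
    refine Finset.sum_congr rfl (fun i _ => ?_)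
    rw [map_smul, hAe, smul_smul]
  have h2 : ⟪A (∑ i, ⟪x, f i⟫_ℝ • e i), x⟫_ℝ = ∑ i, α i * ⟪x, f i⟫_ℝ ^ 2 := by
    rw [h1, _root_.sum_inner]
    refine Finset.sum_congr rfl (fun i _ => ?_)
    rw [real_inner_smul_left, real_inner_comm]
    ring
  have h3 : ⟪A x, ∑ i, ⟪x, f i⟫_ℝ • e i⟫_ℝ = ∑ i, α i * ⟪x, f i⟫_ℝ ^ 2 := by
    rw [hA.1, real_inner_comm, h2]
  have h4 : ⟪A (∑ i, ⟪x, f i⟫_ℝ • e i), ∑ i, ⟪x, f i⟫_ℝ • e i⟫_ℝ =
      ∑ i, α i * ⟪x, f i⟫_ℝ ^ 2 := by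
    rw [h1, _root_.sum_inner]
    refine Finset.sum_congr rfl (fun i _ => ?_)
    rw [real_inner_smul_left, _root_.inner_sum, Finset.sum_eq_single i]
    · rw [real_inner_smul_right, real_inner_comm (e i) (f i), hd, if_pos rfl]
      ring
    · intro j _ hj
      rw [real_inner_smul_right, real_inner_comm (e j) (f i), hd, if_neg hj, mul_zero]
    · intro h'; exact absurd (Finset.mem_univ i) h'
  rw [map_sub, _root_.inner_sub_left, _root_.inner_sub_right, _root_.inner_sub_right, h2, h3,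
    h4] at h
  linarith

variable [FiniteDimensional ℝ E]

theorem frame (h0 : St_simul E) (hb : St_bip E) : St_frame E := by
  rintro K T hK hT ⟨w, u, v⟩ ht ⟨k, p, q⟩ hs x hx
  obtain ⟨hbK, _⟩ := hb K hK
  obtain ⟨hbT, _⟩ := hb T hT
  have ht' := swap ht
  have hs' := swap hs
  have hR : ∀ z, k (w z) = z → _ := fun z hz => rel hbK ht hs hz
  have hR' : ∀ z, k (w z) = z → _ := fun z hz => rel hbT ht' hs' hz
  obtain ⟨hw, hu, hv, huK, hvT, hD⟩ := ht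
  obtain ⟨hk, hp, hq, hpK, hqT, hD'⟩ := hs
  dsimp only at hw hu hv huK hvT hD hk hp hq hpK hqT hD' hx
  let Z : Submodule ℝ E :=
    { carrier := {z | k (w z) = z}
      add_mem' := by
        intro a b ha hb
        show k (w (a + b)) = a + b
        rw [map_add, map_add, ha, hb]
      zero_mem' := by
        show k (w 0) = 0
        rw [map_zero, map_zero]
      smul_mem' := by
        intro c a ha
        show k (w (c • a)) = c • a
        rw [map_smul, map_smul, ha] }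
  have hZ : ∀ z, z ∈ Z ↔ k (w z) = z := fun z => Iff.rfl
  obtain ⟨m, e, heZ, hwe, hue, hspan⟩ := h0 Z w u hw.1 hu.1 (fun z hz hz0 => by
    refine lt_of_le_of_ne (hw.2 z) (fun h => hz0 ?_)
    rw [← (hZ z).1 hz, psd_ker hw h.symm, map_zero])
  obtain ⟨a, ha⟩ : ∃ a : Fin m → ℝ, ∀ i, a i = ⟪u (e i), e i⟫_ℝ := ⟨_, fun _ => rfl⟩
  have hdual : ∀ i j, ⟪e i, w (e j)⟫_ℝ = if i = j then 1 else 0 := fun i j => by
    rw [← hw.1, hwe]
  have hqe : ∀ i, q (w (e i)) = a i • e i := by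
    intro i
    obtain ⟨r1, r2, r3, r4⟩ := hR' (e i) (heZ i)
    have h1 : q (w (e i)) ∈ Z := by
      rw [hZ, r2, r3]
    rw [hspan _ h1, Finset.sum_eq_single i]
    · rw [r2, ha]
    · intro j _ hj
      rw [r2, hue i j (Ne.symm hj), zero_smul]
    · intro h'; exact absurd (Finset.mem_univ i) h'
  have hue' : ∀ i, u (e i) = a i • w (e i) := by
    intro i
    obtain ⟨r1, r2, r3, r4⟩ := hR' (e i) (heZ i)
    rw [← r2, hqe, map_smul]
  have he0 : ∀ i, e i ≠ 0 := by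
    intro i h
    have h1 := hwe i i
    rw [if_pos rfl, h] at h1
    simp at h1
  have ha0 : ∀ i, 0 < a i := by
    intro i
    refine lt_of_le_of_ne ?_ (fun h => he0 i ?_)
    · rw [ha]
      exact hu.2 _
    · obtain ⟨r1, r2, r3, r4⟩ := hR' (e i) (heZ i)
      rw [← r4, hue', ← h, zero_smul, map_zero]
  have hpe : ∀ i, p (w (e i)) = (a i)⁻¹ • e i := by
    intro i
    obtain ⟨r1, r2, r3, r4⟩ := hR' (e i) (heZ i)
    rw [hue', map_smul] at r4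
    have h1 : (a i)⁻¹ * a i = 1 := inv_mul_cancel₀ (ha0 i).ne'
    have h2 : p (w (e i)) = (a i)⁻¹ • a i • p (w (e i)) := by
      rw [smul_smul, h1, one_smul]
    rw [h2, r4]
  have hve : ∀ i, v (e i) = (a i)⁻¹ • w (e i) := by
    intro i
    obtain ⟨r1, r2, r3, r4⟩ := hR (e i) (heZ i)
    rw [← r2, hpe, map_smul]
  refine ⟨m, a, e, fun i => w (e i), ⟨ha0, hdual, ?_, ?_, ?_, ?_⟩, ?_⟩
  · intro y hy
    exact (bessel hu a e (fun i => w (e i)) hdual hue' y).trans (huK y hy)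
  · intro y hy
    exact (bessel hv (fun i => (a i)⁻¹) e (fun i => w (e i)) hdual hve y).trans (hvT y hy)
  · intro y hy
    have h1 := (bessel hp (fun i => (a i)⁻¹) (fun i => w (e i)) e (fun i j => by
      rw [hwe]) hpe y).trans (hpK y hy)
    refine le_trans (le_of_eq ?_) h1
    exact Finset.sum_congr rfl (fun i _ => by rw [real_inner_comm])
  · intro y hy
    have h1 := (bessel hq a (fun i => w (e i)) e (fun i j => by
      rw [hwe]) hqe y).trans (hqT y hy)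
    refine le_trans (le_of_eq ?_) h1
    exact Finset.sum_congr rfl (fun i _ => by rw [real_inner_comm])
  · show x = ∑ i, ⟪x, w (e i)⟫_ℝ • e i
    have h1 := hspan x hx
    conv_lhs => rw [h1]
    refine Finset.sum_congr rfl (fun i _ => ?_)
    rw [hw.1]

end Pool.Agent.NH64.GM.Frame
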