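import Pool.Agent.NH64.GM.Stm

/-!
GM1: polars, bipolar theorem, and the inclusions `lower ⊆ G ⊆ upper`.
-/

open scoped InnerProductSpace BigOperators Topology
open Filter

set_option linter.unusedSectionVars false

namespace Pool.Agent.NH64.GM.Incl

variable {E : Type} [NormedAddCommGroup E] [InnerProductSpace ℝ E]

lemma pol_anti {K L : Set E} (h : K ⊆ L) : pol L ⊆ pol K := fun _ hy x hx => hy x (h hx)

lemma zero_pol (K : Set E) : (0 : E) ∈ pol K := fun x _ => by simp

lemma convex_pol (K : Set E) : Convex ℝ (pol K) := by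
  intro y hy z hz a b ha hb hab x hx
  have h1 := hy x hx
  have h2 := hz x hx
  rw [inner_add_right, real_inner_smul_right, real_inner_smul_right]
  nlinarith

lemma closed_pol (K : Set E) : IsClosed (pol K) := by
  have : pol K = ⋂ x ∈ K, {y : E | ⟪x, y⟫_ℝ ≤ 1} := by
    ext y; simp [pol]
  rw [this]
  refine isClosed_biInter fun x _ => ?_
  exact isClosed_le (continuous_const.inner continuous_id) continuous_const

lemma subset_pol_pol (K : Set E) : K ⊆ pol (pol K) := by
  intro x hx y hy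
  rw [real_inner_comm]
  exact hy x hx

lemma pol_pol_of [FiniteDimensional ℝ E] (K : Set E) (hc : Convex ℝ K) (hk : IsClosed K)
    (h0 : (0 : E) ∈ K) : pol (pol K) = K := by
  refine Set.Subset.antisymm ?_ (subset_pol_pol K)
  intro z hz
  by_contra hzK
  have : CompleteSpace E := FiniteDimensional.complete ℝ E
  obtain ⟨f, u, hf, hu⟩ := geometric_hahn_banach_closed_point hc hk hzK
  have hu0 : 0 < u := by simpa using hf 0 h0
  set y : E := (InnerProductSpace.toDual ℝ E).symm f with hy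
  have hyf : ∀ x : E, ⟪y, x⟫_ℝ = f x := fun x => by
    rw [hy]; exact InnerProductSpace.toDual_symm_apply
  have h1 : (u⁻¹ • y) ∈ pol K := by
    intro x hx
    rw [real_inner_smul_right, real_inner_comm, hyf x]
    have := hf x hx
    rw [inv_mul_le_iff₀ hu0]; linarith
  have h2 := hz _ h1
  rw [real_inner_smul_left, hyf z, inv_mul_le_iff₀ hu0] at h2
  linarith

lemma exists_ball {K : Set E} (h : (0 : E) ∈ interior K) :
    ∃ r : ℝ, 0 < r ∧ ∀ x : E, ‖x‖ ≤ r → x ∈ K := by
  rw [mem_interior_iff_mem_nhds, Metric.mem_nhds_iff] at h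
  obtain ⟨r, hr, h⟩ := h
  refine ⟨r / 2, by linarith, fun x hx => h ?_⟩
  rw [Metric.mem_ball, dist_zero_right]; linarith

lemma mem_interior_of {K : Set E} {r : ℝ} (hr : 0 < r) (h : ∀ x : E, ‖x‖ ≤ r → x ∈ K) :
    (0 : E) ∈ interior K := by
  rw [mem_interior_iff_mem_nhds, Metric.mem_nhds_iff]
  refine ⟨r, hr, fun x hx => h x ?_⟩
  rw [Metric.mem_ball, dist_zero_right] at hx
  exact hx.le

lemma exists_bound {K : Set E} (h : IsCompact K) : ∃ R : ℝ, 0 < R ∧ ∀ x ∈ K, ‖x‖ ≤ R := by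
  obtain ⟨R, hR⟩ := h.isBounded.exists_norm_le
  exact ⟨max R 1, lt_max_of_lt_right one_pos, fun x hx => (hR x hx).trans (le_max_left _ _)⟩

lemma body_zero {K : Set E} (h : IsBody K) : (0 : E) ∈ K := interior_subset h.zero_mem

lemma pol_body [FiniteDimensional ℝ E] {K : Set E} (h : IsBody K) : IsBody (pol K) := by
  obtain ⟨r, hr, hrK⟩ := exists_ball h.zero_mem
  obtain ⟨R, hR, hRK⟩ := exists_bound h.compact
  have : ProperSpace E := FiniteDimensional.proper ℝ E
  refine ⟨?_, convex_pol K, ?_⟩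
  · refine Metric.isCompact_of_isClosed_isBounded (closed_pol K) ?_
    refine (Metric.isBounded_iff_subset_closedBall 0).2 ⟨r⁻¹, fun y hy => ?_⟩
    rw [Metric.mem_closedBall, dist_zero_right]
    rcases eq_or_ne y 0 with rfl | hy0
    · simp [hr.le]
    have hn : 0 < ‖y‖ := norm_pos_iff.2 hy0
    have h1 := hy ((r / ‖y‖) • y) (hrK _ (by
      rw [norm_smul, Real.norm_of_nonneg (by positivity)]
      field_simp
      exact le_refl _))
    rw [real_inner_smul_left, real_inner_self_eq_norm_sq] at h1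
    have h2 : r / ‖y‖ * ‖y‖ ^ 2 = r * ‖y‖ := by field_simp
    rw [h2] at h1
    rw [le_inv_comm₀ hn hr]
    rw [← one_div, le_div_iff₀ hn]; linarith
  · refine mem_interior_of (r := R⁻¹) (by positivity) fun y hy x hx => ?_
    calc ⟪x, y⟫_ℝ ≤ ‖x‖ * ‖y‖ := real_inner_le_norm x y
      _ ≤ R * R⁻¹ := by
        refine mul_le_mul (hRK x hx) hy (norm_nonneg _) hR.le
      _ = 1 := by field_simp

lemma pol_pol [FiniteDimensional ℝ E] {K : Set E} (h : IsBody K) : pol (pol K) = K :=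
  pol_pol_of K h.convex h.compact.isClosed (body_zero h)

theorem bip (E : Type) [NormedAddCommGroup E] [InnerProductSpace ℝ E] [FiniteDimensional ℝ E] :
    St_bip E := fun _ h => ⟨pol_pol h, pol_body h⟩

/-! ### Half sums -/

lemma half_mono {A B C D : Set E} (h1 : A ⊆ C) (h2 : B ⊆ D) : half A B ⊆ half C D := by
  rintro z ⟨a, ha, b, hb, rfl⟩
  exact ⟨a, h1 ha, b, h2 hb, rfl⟩

lemma half_comm (A B : Set E) : half A B = half B A := by
  ext z
  constructor <;> rintro ⟨a, ha, b, hb, rfl⟩ <;> exact ⟨b, hb, a, ha, by rw [add_comm]⟩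

lemma half_self {A : Set E} (h : Convex ℝ A) : half A A = A := by
  ext z
  constructor
  · rintro ⟨a, ha, b, hb, rfl⟩
    rw [smul_add]
    exact h ha hb (by norm_num) (by norm_num) (by norm_num)
  · intro hz
    refine ⟨z, hz, z, hz, ?_⟩
    rw [← two_smul ℝ z, smul_smul]; norm_num

lemma half_body {A B : Set E} (hA : IsBody A) (hB : IsBody B) : IsBody (half A B) := by
  obtain ⟨r, hr, hrA⟩ := exists_ball hA.zero_mem
  obtain ⟨s, hs, hsB⟩ := exists_ball hB.zero_mem
  have him : half A B = (fun p : E × E => (1 / 2 : ℝ) • (p.1 + p.2)) '' (A ×ˢ B) := by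
    ext z
    constructor
    · rintro ⟨a, ha, b, hb, rfl⟩
      exact ⟨(a, b), ⟨ha, hb⟩, rfl⟩
    · rintro ⟨⟨a, b⟩, ⟨ha, hb⟩, rfl⟩
      exact ⟨a, ha, b, hb, rfl⟩
  refine ⟨?_, ?_, ?_⟩
  · rw [him]
    exact (hA.compact.prod hB.compact).image (by fun_prop)
  · rintro x ⟨a, ha, b, hb, rfl⟩ y ⟨c, hc, d, hd, rfl⟩ p q hp hq hpq
    refine ⟨p • a + q • c, hA.convex ha hc hp hq hpq, p • b + q • d,
      hB.convex hb hd hp hq hpq, ?_⟩
    module
  · refine mem_interior_of (r := min r s) (lt_min hr hs) fun z hz => ?_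
    refine ⟨z, hrA z (hz.trans (min_le_left _ _)), z, hsB z (hz.trans (min_le_right _ _)), ?_⟩
    rw [← two_smul ℝ z, smul_smul]; norm_num

/-- The maximum of a linear functional on the polar. -/
lemma exists_gauge [FiniteDimensional ℝ E] {A : Set E} (hA : IsBody A) {x : E} (hx : x ≠ 0) :
    ∃ y ∈ pol A, 0 < ⟪y, x⟫_ℝ ∧ (⟪y, x⟫_ℝ)⁻¹ • x ∈ A := by
  have hP := pol_body hA
  obtain ⟨y, hy, hmax⟩ := hP.compact.exists_isMaxOn ⟨0, zero_pol A⟩
    (f := fun y : E => ⟪y, x⟫_ℝ) (Continuous.continuousOn (by fun_prop))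
  obtain ⟨r, hr, hrP⟩ := exists_ball hP.zero_mem
  have hn : 0 < ‖x‖ := norm_pos_iff.2 hx
  have hpos : 0 < ⟪y, x⟫_ℝ := by
    have h1 := hmax (hrP ((r / ‖x‖) • x) (by
      rw [norm_smul, Real.norm_of_nonneg (by positivity)]
      field_simp
      exact le_refl _))
    simp only [Set.mem_ofPred_eq] at h1
    rw [real_inner_smul_left, real_inner_self_eq_norm_sq] at h1
    have : 0 < r / ‖x‖ * ‖x‖ ^ 2 := by positivity
    linarith
  refine ⟨y, hy, hpos, ?_⟩
  rw [← pol_pol hA]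
  intro z hz
  rw [real_inner_smul_right]
  have h1 : ⟪z, x⟫_ℝ ≤ ⟪y, x⟫_ℝ := hmax hz
  rw [inv_mul_le_iff₀ hpos]; linarith

lemma smul_mem_of {A : Set E} (hA : IsBody A) {x : E} (hx : x ∈ A) {c : ℝ} (h0 : 0 ≤ c)
    (h1 : c ≤ 1) : c • x ∈ A := by
  have := hA.convex hx (body_zero hA) h0 (sub_nonneg.2 h1) (by ring)
  simpa using this

/-- Arithmetic-harmonic inequality. -/
lemma pol_half_pol [FiniteDimensional ℝ E] {A H : Set E} (hA : IsBody A) (hH : IsBody H) :
    pol (half (pol A) (pol H)) ⊆ half A H := by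
  intro x hx
  rcases eq_or_ne x 0 with rfl | hx0
  · exact ⟨0, body_zero hA, 0, body_zero hH, by simp⟩
  obtain ⟨y, hy, hs, hsA⟩ := exists_gauge hA hx0
  obtain ⟨z, hz, ht, htH⟩ := exists_gauge hH hx0
  have h1 := hx _ ⟨y, hy, z, hz, rfl⟩
  rw [real_inner_smul_left, inner_add_left] at h1
  set s := ⟪y, x⟫_ℝ
  set t := ⟪z, x⟫_ℝ
  have hst : s + t ≤ 2 := by linarith
  -- θ = 2 / (1/s + 1/t) = 2 s t / (s + t)
  set θ : ℝ := 2 * s * t / (s + t) with hθ
  have hθ0 : 0 ≤ θ := by positivity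
  have hθ1 : θ ≤ 1 := by
    rw [hθ, div_le_one (by positivity)]
    nlinarith [sq_nonneg (s - t)]
  refine ⟨_, smul_mem_of hA hsA hθ0 hθ1, _, smul_mem_of hH htH hθ0 hθ1, ?_⟩
  rw [← smul_add, ← add_smul, smul_smul, smul_smul]
  have : 1 / 2 * θ * (s⁻¹ + t⁻¹) = 1 := by
    rw [hθ]; field_simp; ring
  rw [this, one_smul]

/-! ### The sequence -/

lemma AH_body [FiniteDimensional ℝ E] {K T : Set E} (hK : IsBody K) (hT : IsBody T) (m : ℕ) :
    IsBody (AH K T m).1 ∧ IsBody (AH K T m).2 := by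
  induction m with
  | zero => exact ⟨hK, hT⟩
  | succ m ih =>
    exact ⟨half_body ih.1 ih.2, pol_body (half_body (pol_body ih.1) (pol_body ih.2))⟩

lemma AH_mono {K T A B : Set E} (h1 : K ⊆ A) (h2 : T ⊆ B) (m : ℕ) :
    (AH K T m).1 ⊆ (AH A B m).1 ∧ (AH K T m).2 ⊆ (AH A B m).2 := by
  induction m with
  | zero => exact ⟨h1, h2⟩
  | succ m ih =>
    exact ⟨half_mono ih.1 ih.2, pol_anti (half_mono (pol_anti ih.1) (pol_anti ih.2))⟩

lemma geomMean_mono {K T A B : Set E} (h1 : K ⊆ A) (h2 : T ⊆ B) :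
    geomMean K T ⊆ geomMean A B := by
  intro x hx
  rw [geomMean, Set.mem_iInter] at hx ⊢
  exact fun m => (AH_mono h1 h2 (m + 1)).1 (hx m)

lemma geomMean_subset_upper (K T : Set E) : geomMean K T ⊆ upperEnv K T :=
  fun _ hx _ _ _ _ hA hB => geomMean_mono hA hB hx

lemma H_sub_A [FiniteDimensional ℝ E] {K T : Set E} (hK : IsBody K) (hT : IsBody T) (m : ℕ) :
    (AH K T (m + 1)).2 ⊆ (AH K T (m + 1)).1 :=
  pol_half_pol (AH_body hK hT m).1 (AH_body hK hT m).2

lemma A_anti [FiniteDimensional ℝ E] {K T : Set E} (hK : IsBody K) (hT : IsBody T) :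
    Antitone fun m : ℕ => (AH K T (m + 1)).1 := by
  refine antitone_nat_of_succ_le fun m => ?_
  change half (AH K T (m + 1)).1 (AH K T (m + 1)).2 ⊆ (AH K T (m + 1)).1
  refine (half_mono subset_rfl (H_sub_A hK hT m)).trans ?_
  rw [half_self (AH_body hK hT (m + 1)).1.convex]

lemma H_mono [FiniteDimensional ℝ E] {K T : Set E} (hK : IsBody K) (hT : IsBody T) :
    Monotone fun m : ℕ => (AH K T (m + 1)).2 := by
  refine monotone_nat_of_le_succ fun m => ?_
  change (AH K T (m + 1)).2 ⊆ pol (half (pol (AH K T (m + 1)).1) (pol (AH K T (m + 1)).2))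
  have h1 : half (pol (AH K T (m + 1)).1) (pol (AH K T (m + 1)).2) ⊆ pol (AH K T (m + 1)).2 := by
    refine (half_mono (pol_anti (H_sub_A hK hT m)) subset_rfl).trans ?_
    rw [half_self (convex_pol _)]
  exact (subset_pol_pol _).trans (pol_anti h1)

lemma H_sub_A' [FiniteDimensional ℝ E] {K T : Set E} (hK : IsBody K) (hT : IsBody T)
    (m m' : ℕ) : (AH K T (m + 1)).2 ⊆ (AH K T (m' + 1)).1 :=
  ((H_mono hK hT (le_max_left m m')).trans (H_sub_A hK hT (max m m'))).trans
    (A_anti hK hT (le_max_right m m'))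

lemma AH_pol [FiniteDimensional ℝ E] {K T : Set E} (hK : IsBody K) (hT : IsBody T) (m : ℕ) :
    (AH (pol K) (pol T) (m + 1)).1 = pol (AH K T (m + 1)).2 ∧
      (AH (pol K) (pol T) (m + 1)).2 = pol (AH K T (m + 1)).1 := by
  induction m with
  | zero =>
    refine ⟨?_, ?_⟩
    · change half (pol K) (pol T) = pol (pol (half (pol K) (pol T)))
      rw [pol_pol (half_body (pol_body hK) (pol_body hT))]
    · change pol (half (pol (pol K)) (pol (pol T))) = pol (half K T)
      rw [pol_pol hK, pol_pol hT]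
  | succ m ih =>
    obtain ⟨hA, hH⟩ := AH_body hK hT (m + 1)
    refine ⟨?_, ?_⟩
    · change half (AH (pol K) (pol T) (m + 1)).1 (AH (pol K) (pol T) (m + 1)).2 =
        pol (pol (half (pol (AH K T (m + 1)).1) (pol (AH K T (m + 1)).2)))
      rw [pol_pol (half_body (pol_body hA) (pol_body hH)), ih.1, ih.2, half_comm]
    · change pol (half (pol (AH (pol K) (pol T) (m + 1)).1)
        (pol (AH (pol K) (pol T) (m + 1)).2)) = pol (half (AH K T (m + 1)).1 (AH K T (m + 1)).2)
      rw [ih.1, ih.2, pol_pol hA, pol_pol hH, half_comm]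

lemma lower_subset [FiniteDimensional ℝ E] {K T : Set E} (hK : IsBody K) (hT : IsBody T) :
    lowerEnv K T ⊆ geomMean K T := by
  intro x hx
  have hx' : x ∈ pol (geomMean (pol K) (pol T)) :=
    pol_anti (geomMean_subset_upper (pol K) (pol T)) hx
  rw [geomMean, Set.mem_iInter]
  intro m'
  rw [← pol_pol (AH_body hK hT (m' + 1)).1]
  intro y hy
  refine hx' y ?_
  rw [geomMean, Set.mem_iInter]
  intro m
  rw [(AH_pol hK hT m).1]
  exact pol_anti (H_sub_A' hK hT m m') hy

theorem incl (E : Type) [NormedAddCommGroup E] [InnerProductSpace ℝ E] [FiniteDimensional ℝ E] :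
    St_incl E := fun K T hK hT => ⟨lower_subset hK hT, geomMean_subset_upper K T⟩

end Pool.Agent.NH64.GM.Incl
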