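import Pool.Agent.NH64.GM.Stm

/-!
# Project GM, module GM5: dual pairs

`pairs : St_pairs E` from `St_W` and `St_bip`.
-/

open scoped InnerProductSpace BigOperators Topology
open Filter

namespace Pool.Agent.NH64.GM.Pairs

open Pool.Agent.NH64.GM

set_option linter.unusedSectionVars false

variable {E : Type} [NormedAddCommGroup E] [InnerProductSpace ℝ E] [FiniteDimensional ℝ E]

/-- A contact pair of the maximum of the forms of a compact convex set is attained by one form. -/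
theorem contact (W : Set ((E →L[ℝ] E) × (E →L[ℝ] E) × (E →L[ℝ] E))) (hWc : IsCompact W)
    (hWx : Convex ℝ W) (hsym : ∀ t ∈ W, Sym t.1) (n : E → ℝ)
    (hn : ∀ t ∈ W, ∀ z, ⟪t.1 z, z⟫_ℝ ≤ n z) (hn' : ∀ z, ∃ t ∈ W, ⟪t.1 z, z⟫_ℝ = n z)
    (hn0 : ∀ z, 0 ≤ n z) (x y : E) (hx : 0 < n x) (hxy : ⟪x, y⟫_ℝ = n x)
    (hA : ∀ z, ⟪z, y⟫_ℝ ^ 2 ≤ n z * n x) : ∃ t ∈ W, t.1 x = y := by
  by_contra hcon
  push Not at hcon
  let ev : ((E →L[ℝ] E) × (E →L[ℝ] E) × (E →L[ℝ] E)) →L[ℝ] E :=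
    (ContinuousLinearMap.apply ℝ E x).comp (ContinuousLinearMap.fst ℝ _ _)
  have hev : ∀ t, ev t = t.1 x := fun t => rfl
  have hC1 : IsClosed (ev '' W) := (hWc.image ev.continuous).isClosed
  have hC2 : Convex ℝ (ev '' W) := hWx.is_linear_image ev.isLinear
  have hy : y ∉ ev '' W := by
    rintro ⟨t, ht, hty⟩
    exact hcon t ht hty
  obtain ⟨g, M, hg1, hg2⟩ := geometric_hahn_banach_closed_point hC2 hC1 hy
  obtain ⟨h, hh⟩ : ∃ h : E, ∀ z, g z = ⟪z, h⟫_ℝ := by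
    refine ⟨(InnerProductSpace.toDual ℝ E).symm g, fun z => ?_⟩
    rw [real_inner_comm, InnerProductSpace.toDual_symm_apply]
  have h1 : ∀ t ∈ W, ⟪t.1 x, h⟫_ℝ ≤ M := by
    intro t ht
    rw [← hh, ← hev]
    exact (hg1 _ ⟨t, ht, rfl⟩).le
  have h2 : M < ⟪y, h⟫_ℝ := by
    rw [← hh]
    exact hg2
  have h3 : ∀ s : ℝ, 0 < s → 2 * ⟪y, h⟫_ℝ ≤ 2 * M + s * n h := by
    intro s hs
    obtain ⟨t, ht, hts⟩ := hn' (x + s • h)
    have h4 : n (x + s • h) ≤ n x + 2 * s * M + s ^ 2 * n h := by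
      rw [← hts]
      have h5 : ⟪t.1 (x + s • h), x + s • h⟫_ℝ =
          ⟪t.1 x, x⟫_ℝ + 2 * s * ⟪t.1 x, h⟫_ℝ + s ^ 2 * ⟪t.1 h, h⟫_ℝ := by
        rw [map_add, map_smul, _root_.inner_add_left, _root_.inner_add_right,
          _root_.inner_add_right, real_inner_smul_left, real_inner_smul_left,
          real_inner_smul_right, real_inner_smul_right]
        have h6 : ⟪t.1 h, x⟫_ℝ = ⟪t.1 x, h⟫_ℝ := by
          rw [hsym t ht, real_inner_comm]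
        rw [h6]
        ring
      rw [h5]
      have h7 := hn t ht x
      have h8 := hn t ht h
      have h9 := h1 t ht
      have h10 : 2 * s * ⟪t.1 x, h⟫_ℝ ≤ 2 * s * M := mul_le_mul_of_nonneg_left h9 (by positivity)
      have h11 : s ^ 2 * ⟪t.1 h, h⟫_ℝ ≤ s ^ 2 * n h := mul_le_mul_of_nonneg_left h8 (by positivity)
      linarith
    have h5 : (n x + s * ⟪y, h⟫_ℝ) ^ 2 ≤ n (x + s • h) * n x := by
      have h6 := hA (x + s • h)
      rw [_root_.inner_add_left, real_inner_smul_left, hxy, real_inner_comm] at h6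
      exact h6
    have h6 : (n x + s * ⟪y, h⟫_ℝ) ^ 2 ≤ (n x + 2 * s * M + s ^ 2 * n h) * n x :=
      h5.trans (mul_le_mul_of_nonneg_right h4 hx.le)
    have h7 : n x * (2 * s * ⟪y, h⟫_ℝ) ≤ n x * (2 * s * M + s ^ 2 * n h) := by
      nlinarith [sq_nonneg (s * ⟪y, h⟫_ℝ)]
    have h8 := le_of_mul_le_mul_left h7 hx
    have h9 : s * (2 * ⟪y, h⟫_ℝ) ≤ s * (2 * M + s * n h) := by linarith
    exact le_of_mul_le_mul_left h9 hs
  have h4 : 0 < ⟪y, h⟫_ℝ - M := by linarith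
  have h5 : 0 < n h + 1 := by have := hn0 h; linarith
  have h6 := h3 ((⟪y, h⟫_ℝ - M) / (n h + 1)) (by positivity)
  have h7 : (⟪y, h⟫_ℝ - M) / (n h + 1) * n h ≤ ⟪y, h⟫_ℝ - M := by
    rw [div_mul_eq_mul_div, div_le_iff₀ h5]
    nlinarith
  linarith

/-- The maximum of the forms of `Wset K T`. -/
structure IsN (K T : Set E) (n : E → ℝ) : Prop where
  le : ∀ t ∈ Wset K T, ∀ z, ⟪t.1 z, z⟫_ℝ ≤ n z
  att : ∀ z, ∃ t ∈ Wset K T, ⟪t.1 z, z⟫_ℝ = n z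
  lower : ∃ c : ℝ, 0 < c ∧ ∀ z, c * ‖z‖ ^ 2 ≤ n z
  upper : ∃ C : ℝ, 1 ≤ C ∧ ∀ z, n z ≤ C * ‖z‖ ^ 2
  homog : ∀ (s : ℝ) z, n (s • z) = s ^ 2 * n z
  env : upperEnv K T = {x | n x ≤ 1}

theorem id_mem {K T : Set E} (hK : IsBody K) (hT : IsBody T) : ∃ c : ℝ, 0 < c ∧
    ((c • ContinuousLinearMap.id ℝ E, c • ContinuousLinearMap.id ℝ E,
      c • ContinuousLinearMap.id ℝ E) : (E →L[ℝ] E) × (E →L[ℝ] E) × (E →L[ℝ] E)) ∈ Wset K T := by
  obtain ⟨R₁, hR₁⟩ := hK.compact.isBounded.exists_norm_le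
  obtain ⟨R₂, hR₂⟩ := hT.compact.isBounded.exists_norm_le
  obtain ⟨R, hR0, hRK, hRT⟩ : ∃ R : ℝ, 0 < R ∧ (∀ x ∈ K, ‖x‖ ≤ R) ∧ (∀ x ∈ T, ‖x‖ ≤ R) := by
    refine ⟨max 1 (max R₁ R₂), lt_of_lt_of_le one_pos (le_max_left _ _), fun x hx => ?_,
      fun x hx => ?_⟩
    · exact (hR₁ x hx).trans ((le_max_left _ _).trans (le_max_right _ _))
    · exact (hR₂ x hx).trans ((le_max_right _ _).trans (le_max_right _ _))
  obtain ⟨c, hc⟩ : ∃ c : ℝ, c = (R ^ 2)⁻¹ := ⟨_, rfl⟩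
  have hc0 : 0 < c := by rw [hc]; positivity
  have hin : ∀ x y : E, ⟪(c • ContinuousLinearMap.id ℝ E) x, y⟫_ℝ = c * ⟪x, y⟫_ℝ := by
    intro x y
    show ⟪c • x, y⟫_ℝ = _
    rw [real_inner_smul_left]
  have hle : ∀ x : E, ‖x‖ ≤ R → ⟪(c • ContinuousLinearMap.id ℝ E) x, x⟫_ℝ ≤ 1 := by
    intro x hx
    rw [hin, real_inner_self_eq_norm_sq, hc]
    have h1 : ‖x‖ ^ 2 ≤ R ^ 2 := pow_le_pow_left₀ (norm_nonneg x) hx 2
    calc (R ^ 2)⁻¹ * ‖x‖ ^ 2 ≤ (R ^ 2)⁻¹ * R ^ 2 := mul_le_mul_of_nonneg_left h1 (by positivity)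
      _ = 1 := inv_mul_cancel₀ (by positivity)
  have hpsd : Psd (c • ContinuousLinearMap.id ℝ E) := by
    refine ⟨fun x y => ?_, fun x => ?_⟩
    · rw [hin]
      show _ = ⟪x, c • y⟫_ℝ
      rw [real_inner_smul_right]
    · rw [hin]
      exact mul_nonneg hc0.le real_inner_self_nonneg
  refine ⟨c, hc0, hpsd, hpsd, hpsd, fun x hx => hle x (hRK x hx), fun x hx => hle x (hRT x hx), ?_⟩
  intro x x'
  rw [hin, hin, hin]
  have h1 : c * ⟪x, x⟫_ℝ + 2 * (c * ⟪x, x'⟫_ℝ) + c * ⟪x', x'⟫_ℝ = c * ⟪x + x', x + x'⟫_ℝ := by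
    rw [real_inner_add_add_self]
    ring
  rw [h1]
  exact mul_nonneg hc0.le real_inner_self_nonneg

theorem exN (hW : St_W E) {K T : Set E} (hK : IsBody K) (hT : IsBody T) :
    ∃ n : E → ℝ, IsN K T n := by
  obtain ⟨hc, _, henv⟩ := hW K T hK hT
  obtain ⟨c, hc0, hcm⟩ := id_mem hK hT
  have hcont : ∀ z : E, Continuous
      (fun t : (E →L[ℝ] E) × (E →L[ℝ] E) × (E →L[ℝ] E) => ⟪t.1 z, z⟫_ℝ) := fun z =>
    Continuous.inner ((ContinuousLinearMap.apply ℝ E z).continuous.comp continuous_fst)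
      continuous_const
  have hmax : ∀ z : E, ∃ t ∈ Wset K T, ∀ s ∈ Wset K T, ⟪s.1 z, z⟫_ℝ ≤ ⟪t.1 z, z⟫_ℝ := by
    intro z
    obtain ⟨t, ht, hmx⟩ := hc.exists_isMaxOn ⟨_, hcm⟩ (hcont z).continuousOn
    exact ⟨t, ht, fun s hs => hmx hs⟩
  choose t ht hmx using hmax
  obtain ⟨C, hC⟩ := hc.isBounded.exists_norm_le
  refine ⟨fun z => ⟪(t z).1 z, z⟫_ℝ, ⟨fun s hs z => hmx z s hs, fun z => ⟨t z, ht z, rfl⟩,
    ⟨c, hc0, ?_⟩, ⟨max C 1, le_max_right _ _, ?_⟩, ?_, ?_⟩⟩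
  · intro z
    refine le_trans (le_of_eq ?_) (hmx z _ hcm)
    show _ = ⟪c • z, z⟫_ℝ
    rw [real_inner_smul_left, real_inner_self_eq_norm_sq]
  · intro z
    refine (real_inner_le_norm _ _).trans ?_
    have h1 : ‖(t z).1 z‖ ≤ max C 1 * ‖z‖ := by
      refine ((t z).1.le_opNorm z).trans (mul_le_mul_of_nonneg_right ?_ (norm_nonneg z))
      exact ((norm_fst_le (t z)).trans (hC _ (ht z))).trans (le_max_left _ _)
    calc ‖(t z).1 z‖ * ‖z‖ ≤ (max C 1 * ‖z‖) * ‖z‖ := mul_le_mul_of_nonneg_right h1 (norm_nonneg z)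
      _ = max C 1 * ‖z‖ ^ 2 := by ring
  · intro s z
    have key : ∀ (T' : (E →L[ℝ] E) × (E →L[ℝ] E) × (E →L[ℝ] E)) (w : E),
        ⟪T'.1 (s • w), s • w⟫_ℝ = s ^ 2 * ⟪T'.1 w, w⟫_ℝ := by
      intro T' w
      rw [map_smul, real_inner_smul_left, real_inner_smul_right]
      ring
    refine le_antisymm ?_ ?_
    · show ⟪(t (s • z)).1 (s • z), s • z⟫_ℝ ≤ s ^ 2 * ⟪(t z).1 z, z⟫_ℝ
      rw [key]
      exact mul_le_mul_of_nonneg_left (hmx z _ (ht _)) (sq_nonneg s)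
    · show s ^ 2 * ⟪(t z).1 z, z⟫_ℝ ≤ ⟪(t (s • z)).1 (s • z), s • z⟫_ℝ
      rw [← key]
      exact hmx _ _ (ht z)
  · rw [henv]
    ext x
    exact ⟨fun h => h _ (ht x), fun h s hs => (hmx x s hs).trans h⟩

theorem IsN.nonneg {K T : Set E} {n : E → ℝ} (h : IsN K T n) (z : E) : 0 ≤ n z := by
  obtain ⟨c, hc, h1⟩ := h.lower
  exact le_trans (by positivity) (h1 z)

theorem IsN.pos {K T : Set E} {n : E → ℝ} (h : IsN K T n) {z : E} (hz : z ≠ 0) : 0 < n z := by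
  obtain ⟨c, hc, h1⟩ := h.lower
  have := norm_pos_iff.2 hz
  exact lt_of_lt_of_le (by positivity) (h1 z)

theorem IsN.body {K T : Set E} {n : E → ℝ} (h : IsN K T n) : IsBody {x | n x ≤ 1} := by
  have hset : {x | n x ≤ 1} = ⋂ t ∈ Wset K T, {x : E | ⟪t.1 x, x⟫_ℝ ≤ 1} := by
    ext x
    simp only [Set.mem_iInter]
    constructor
    · intro h1 t ht
      exact (h.le t ht x).trans h1
    · intro h1
      obtain ⟨t, ht, h2⟩ := h.att x
      show n x ≤ 1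
      rw [← h2]
      exact h1 t ht
  refine ⟨?_, ?_, ?_⟩
  · have : ProperSpace E := FiniteDimensional.proper ℝ E
    refine Metric.isCompact_of_isClosed_isBounded ?_ ?_
    · rw [hset]
      refine isClosed_biInter (fun t _ => ?_)
      exact isClosed_le (t.1.continuous.inner continuous_id) continuous_const
    · obtain ⟨c, hc, h1⟩ := h.lower
      refine isBounded_iff_forall_norm_le.2 ⟨1 + c⁻¹, fun x hx => ?_⟩
      have h2 : c * ‖x‖ ^ 2 ≤ 1 := (h1 x).trans hx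
      have h3 : ‖x‖ ^ 2 ≤ c⁻¹ := by
        rw [← mul_one c⁻¹]
        calc ‖x‖ ^ 2 = c⁻¹ * (c * ‖x‖ ^ 2) := by field_simp
          _ ≤ _ := mul_le_mul_of_nonneg_left h2 (by positivity)
      nlinarith [sq_nonneg (‖x‖ - 1), norm_nonneg x]
  · rw [hset]
    refine convex_iInter₂ (fun t ht => ?_)
    intro x hx y hy a b ha hb hab
    have h1 : Psd t.1 := ht.1
    have h2 : 0 ≤ ⟪t.1 (x - y), x - y⟫_ℝ := h1.2 _
    have h3 : ⟪t.1 (a • x + b • y), a • x + b • y⟫_ℝ =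
        a * ⟪t.1 x, x⟫_ℝ + b * ⟪t.1 y, y⟫_ℝ - a * b * ⟪t.1 (x - y), x - y⟫_ℝ := by
      have h4 : b = 1 - a := by linarith
      simp only [map_add, map_smul, map_sub, _root_.inner_add_left, _root_.inner_add_right,
        _root_.inner_sub_left, _root_.inner_sub_right, real_inner_smul_left,
        real_inner_smul_right]
      rw [h4]
      ring
    show ⟪t.1 (a • x + b • y), a • x + b • y⟫_ℝ ≤ 1
    rw [h3]
    have h5 : a * ⟪t.1 x, x⟫_ℝ ≤ a * 1 := mul_le_mul_of_nonneg_left hx ha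
    have h6 : b * ⟪t.1 y, y⟫_ℝ ≤ b * 1 := mul_le_mul_of_nonneg_left hy hb
    have h7 : 0 ≤ a * b * ⟪t.1 (x - y), x - y⟫_ℝ := by positivity
    linarith
  · obtain ⟨C, hC, h1⟩ := h.upper
    have hC0 : 0 < C := by linarith
    refine mem_interior.2 ⟨Metric.ball 0 C⁻¹, ?_, Metric.isOpen_ball, ?_⟩
    · intro z hz
      rw [Metric.mem_ball, dist_zero_right] at hz
      show n z ≤ 1
      refine (h1 z).trans ?_
      have h2 : ‖z‖ ^ 2 ≤ C⁻¹ ^ 2 := pow_le_pow_left₀ (norm_nonneg z) hz.le 2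
      have h3 : C⁻¹ ≤ 1 := inv_le_one_of_one_le₀ hC
      calc C * ‖z‖ ^ 2 ≤ C * C⁻¹ ^ 2 := mul_le_mul_of_nonneg_left h2 hC0.le
        _ = C⁻¹ := by field_simp
        _ ≤ 1 := h3
    · exact Metric.mem_ball_self (by positivity)

/-- If `{n ≤ 1} ⊆ {n' ≤ 1}°` then `⟪x, y⟫² ≤ n x n' y`. -/
theorem cs {n n' : E → ℝ} (hn : ∀ (s : ℝ) z, n (s • z) = s ^ 2 * n z)
    (hn' : ∀ (s : ℝ) z, n' (s • z) = s ^ 2 * n' z) (hp : ∀ z, z ≠ 0 → 0 < n z)
    (hp' : ∀ z, z ≠ 0 → 0 < n' z) (h0 : ∀ z, 0 ≤ n z) (h0' : ∀ z, 0 ≤ n' z)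
    (h : ∀ x y, n x ≤ 1 → n' y ≤ 1 → ⟪x, y⟫_ℝ ≤ 1) (x y : E) :
    ⟪x, y⟫_ℝ ^ 2 ≤ n x * n' y := by
  by_cases hx : x = 0
  · rw [hx, _root_.inner_zero_left]
    have := mul_nonneg (h0 0) (h0' y)
    simpa using this
  by_cases hy : y = 0
  · rw [hy, _root_.inner_zero_right]
    have := mul_nonneg (h0 x) (h0' 0)
    simpa using this
  have hnx := hp x hx
  have hny := hp' y hy
  have hsx : 0 < √(n x) := Real.sqrt_pos.2 hnx
  have hsy : 0 < √(n' y) := Real.sqrt_pos.2 hny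
  have key : ∀ s : ℝ, s ^ 2 = 1 → s * ⟪x, y⟫_ℝ ≤ √(n x) * √(n' y) := by
    intro s hs
    have h1 := h ((s * (√(n x))⁻¹) • x) ((√(n' y))⁻¹ • y) ?_ ?_
    · rw [real_inner_smul_left, real_inner_smul_right] at h1
      have h2 : s * ⟪x, y⟫_ℝ = (√(n x) * √(n' y)) *
          (s * (√(n x))⁻¹ * ((√(n' y))⁻¹ * ⟪x, y⟫_ℝ)) := by
        field_simp
      rw [h2]
      exact mul_le_of_le_one_right (by positivity) h1
    · rw [hn, mul_pow, hs, inv_pow, Real.sq_sqrt hnx.le, one_mul, inv_mul_cancel₀ hnx.ne']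
    · rw [hn', inv_pow, Real.sq_sqrt hny.le, inv_mul_cancel₀ hny.ne']
  have h1 := key 1 (by norm_num)
  have h2 := key (-1) (by norm_num)
  have h3 : |⟪x, y⟫_ℝ| ≤ √(n x) * √(n' y) := abs_le.2 ⟨by linarith, by linarith⟩
  have h4 := pow_le_pow_left₀ (abs_nonneg _) h3 2
  rw [sq_abs, mul_pow, Real.sq_sqrt hnx.le, Real.sq_sqrt hny.le] at h4
  exact h4

theorem pairs (hW : St_W E) (hb : St_bip E) : St_pairs E := by
  intro K T hK hT heq x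
  obtain ⟨_, hK'⟩ := hb K hK
  obtain ⟨_, hT'⟩ := hb T hT
  obtain ⟨hWc, hWx, _⟩ := hW K T hK hT
  obtain ⟨hWc', hWx', _⟩ := hW _ _ hK' hT'
  obtain ⟨n, hn⟩ := exN hW hK hT
  obtain ⟨n', hn'⟩ := exN hW hK' hT'
  have h1 : {x | n x ≤ 1} = pol {y | n' y ≤ 1} := by
    rw [← hn.env, heq, lowerEnv, hn'.env]
  have hdual : ∀ x y, n x ≤ 1 → n' y ≤ 1 → ⟪x, y⟫_ℝ ≤ 1 := by
    intro x y hx hy
    have h2 : x ∈ pol {y | n' y ≤ 1} := by
      rw [← h1]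
      exact hx
    rw [real_inner_comm]
    exact h2 y hy
  have hcs := cs hn.homog hn'.homog (fun z hz => hn.pos hz) (fun z hz => hn'.pos hz)
    hn.nonneg hn'.nonneg hdual
  by_cases hx : x = 0
  · obtain ⟨t, ht, _⟩ := hn.att 0
    obtain ⟨s, hs, _⟩ := hn'.att 0
    refine ⟨t, ht, s, hs, ?_⟩
    rw [hx, map_zero, map_zero]
  have hnx := hn.pos hx
  -- the dual point
  obtain ⟨y₀, hy₀, hmax⟩ : ∃ y₀ ∈ {y | n' y ≤ 1}, ∀ y ∈ {y | n' y ≤ 1}, ⟪x, y⟫_ℝ ≤ ⟪x, y₀⟫_ℝ := by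
    have hne : ({y | n' y ≤ 1} : Set E).Nonempty := ⟨0, interior_subset hn'.body.zero_mem⟩
    obtain ⟨y₀, hy₀, h2⟩ := hn'.body.compact.exists_isMaxOn hne
      (f := fun y => ⟪x, y⟫_ℝ) (continuous_const.inner continuous_id).continuousOn
    exact ⟨y₀, hy₀, fun y hy => h2 hy⟩
  obtain ⟨μ, hμ⟩ : ∃ μ : ℝ, μ = ⟪x, y₀⟫_ℝ := ⟨_, rfl⟩
  have hμ0 : 0 < μ := by
    have h2 : 0 < n' x := hn'.pos hx
    have h3 : (√(n' x))⁻¹ • x ∈ {y | n' y ≤ 1} := by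
      show n' _ ≤ 1
      rw [hn'.homog, inv_pow, Real.sq_sqrt h2.le, inv_mul_cancel₀ h2.ne']
    have h4 := hmax _ h3
    rw [← hμ, real_inner_smul_right, real_inner_self_eq_norm_sq] at h4
    have h5 : 0 < √(n' x) := Real.sqrt_pos.2 h2
    have h6 := norm_pos_iff.2 hx
    exact lt_of_lt_of_le (by positivity) h4
  have hμn : μ ^ 2 = n x := by
    refine le_antisymm ?_ ?_
    · rw [hμ]
      refine (hcs x y₀).trans ?_
      exact mul_le_of_le_one_right hnx.le hy₀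
    · have h2 : μ⁻¹ • x ∈ pol {y | n' y ≤ 1} := by
        intro y hy
        rw [real_inner_smul_right, real_inner_comm]
        calc μ⁻¹ * ⟪x, y⟫_ℝ ≤ μ⁻¹ * μ :=
              mul_le_mul_of_nonneg_left (by rw [hμ]; exact hmax y hy) (by positivity)
          _ = 1 := inv_mul_cancel₀ hμ0.ne'
      rw [← h1] at h2
      have h3 : n (μ⁻¹ • x) ≤ 1 := h2
      rw [hn.homog] at h3
      calc n x = μ ^ 2 * (μ⁻¹ ^ 2 * n x) := by field_simp
        _ ≤ μ ^ 2 * 1 := mul_le_mul_of_nonneg_left h3 (by positivity)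
        _ = μ ^ 2 := mul_one _
  obtain ⟨y, hy⟩ : ∃ y : E, y = μ • y₀ := ⟨_, rfl⟩
  have hxy : ⟪x, y⟫_ℝ = n x := by
    rw [hy, real_inner_smul_right, ← hμ, ← hμn]
    ring
  have hny : n' y = n x := by
    refine le_antisymm ?_ ?_
    · rw [hy, hn'.homog, hμn]
      exact mul_le_of_le_one_right hnx.le hy₀
    · have h2 := hcs x y
      rw [hxy, sq] at h2
      exact le_of_mul_le_mul_left h2 hnx
  obtain ⟨t, ht, htx⟩ := contact (Wset K T) hWc hWx (fun t ht => ht.1.1) n hn.le hn.att hn.nonneg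
    x y hnx hxy (fun z => by
      have h2 := hcs z y
      rwa [hny] at h2)
  obtain ⟨s, hs, hsy⟩ := contact (Wset (pol K) (pol T)) hWc' hWx' (fun t ht => ht.1.1) n' hn'.le
    hn'.att hn'.nonneg y x (by rw [hny]; exact hnx) (by rw [real_inner_comm, hxy, hny])
    (fun z => by
      have h2 := hcs x z
      rw [real_inner_comm] at h2
      rw [hny, mul_comm]
      exact h2)
  exact ⟨t, ht, s, hs, by rw [htx, hsy]⟩

end Pool.Agent.NH64.GM.Pairs
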