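import Pool.Agent.NH64.GM.Stm

/-!
# GM0: simultaneous diagonalisation
-/

set_option autoImplicit false

open scoped InnerProductSpace BigOperators

namespace Pool.Agent.NH64.GM.Simul

variable (E : Type) [NormedAddCommGroup E] [InnerProductSpace ℝ E] [FiniteDimensional ℝ E]

variable {E}

/-- a maximum of the quotient of two forms -/
theorem exists_top (Z : Submodule ℝ E) (hZ : Z ≠ ⊥) (w u : E →L[ℝ] E)
    (hw : ∀ z ∈ Z, z ≠ 0 → 0 < ⟪w z, z⟫_ℝ) :
    ∃ (e : E) (μ : ℝ), e ∈ Z ∧ e ≠ 0 ∧ ⟪u e, e⟫_ℝ = μ * ⟪w e, e⟫_ℝ ∧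
      ∀ z ∈ Z, ⟪u z, z⟫_ℝ ≤ μ * ⟪w z, z⟫_ℝ := by
  obtain ⟨z₀, hz₀, hz₀'⟩ := Submodule.exists_mem_ne_zero_of_ne_bot hZ
  set S : Set E := Metric.sphere (0 : E) 1 ∩ (Z : Set E) with hS
  have hSc : IsCompact S := (isCompact_sphere (0 : E) 1).inter_right Z.closed_of_finiteDimensional
  have hSn : S.Nonempty := by
    refine ⟨‖z₀‖⁻¹ • z₀, ?_, Z.smul_mem _ hz₀⟩
    rw [mem_sphere_zero_iff_norm, norm_smul, norm_inv, norm_norm,
      inv_mul_cancel₀ (norm_ne_zero_iff.2 hz₀')]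
  have hne : ∀ z ∈ S, z ≠ 0 := by
    rintro z ⟨hz, -⟩ rfl
    rw [mem_sphere_zero_iff_norm, norm_zero] at hz
    exact zero_ne_one hz
  have hcont : ContinuousOn (fun z : E => ⟪u z, z⟫_ℝ / ⟪w z, z⟫_ℝ) S := by
    refine ContinuousOn.div ?_ ?_ ?_
    · exact (Continuous.inner u.continuous continuous_id).continuousOn
    · exact (Continuous.inner w.continuous continuous_id).continuousOn
    · intro z hz
      exact (hw z hz.2 (hne z hz)).ne'
  obtain ⟨e, he, hmax⟩ := hSc.exists_isMaxOn hSn hcont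
  have hwe := hw e he.2 (hne e he)
  refine ⟨e, ⟪u e, e⟫_ℝ / ⟪w e, e⟫_ℝ, he.2, hne e he, (div_mul_cancel₀ _ hwe.ne').symm, ?_⟩
  intro z hz
  by_cases h0 : z = 0
  · rw [h0, inner_zero_right, inner_zero_right, mul_zero]
  · have hn : 0 < ‖z‖ := norm_pos_iff.2 h0
    have hz' : ‖z‖⁻¹ • z ∈ S := by
      refine ⟨?_, Z.smul_mem _ hz⟩
      rw [mem_sphere_zero_iff_norm, norm_smul, norm_inv, norm_norm, inv_mul_cancel₀ hn.ne']
    have h1 : ⟪u (‖z‖⁻¹ • z), ‖z‖⁻¹ • z⟫_ℝ / ⟪w (‖z‖⁻¹ • z), ‖z‖⁻¹ • z⟫_ℝ ≤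
        ⟪u e, e⟫_ℝ / ⟪w e, e⟫_ℝ := hmax hz'
    have hwz := hw z hz h0
    rw [map_smul, map_smul, real_inner_smul_left, real_inner_smul_right, real_inner_smul_left,
      real_inner_smul_right] at h1
    have h2 : ‖z‖⁻¹ * (‖z‖⁻¹ * ⟪u z, z⟫_ℝ) / (‖z‖⁻¹ * (‖z‖⁻¹ * ⟪w z, z⟫_ℝ)) =
        ⟪u z, z⟫_ℝ / ⟪w z, z⟫_ℝ := by
      field_simp
    rw [h2, div_le_iff₀ hwz] at h1
    exact h1

/-- a quadratic polynomial which is nonnegative and vanishes at the origin -/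
theorem lin_zero {a b : ℝ} (h : ∀ t : ℝ, 0 ≤ 2 * t * b + t ^ 2 * a) : b = 0 := by
  by_contra hb
  rcases lt_or_ge 0 a with ha | ha
  · have h1 := h (-b / a)
    have h2 : 2 * (-b / a) * b + (-b / a) ^ 2 * a = -(b ^ 2 / a) := by
      field_simp
      ring
    rw [h2] at h1
    have h3 : 0 < b ^ 2 / a := by positivity
    linarith
  · have h1 := h (-b)
    have h2 : 0 < b ^ 2 := by positivity
    nlinarith [mul_nonneg (sq_nonneg b) (neg_nonneg.2 ha)]

theorem aux : ∀ (n : ℕ) (Z : Submodule ℝ E) (w u : E →L[ℝ] E), Module.finrank ℝ Z ≤ n →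
    Sym w → Sym u → (∀ z ∈ Z, z ≠ 0 → 0 < ⟪w z, z⟫_ℝ) →
    ∃ (m : ℕ) (e : Fin m → E), (∀ i, e i ∈ Z) ∧
      (∀ i j, ⟪w (e i), e j⟫_ℝ = if i = j then 1 else 0) ∧
      (∀ i j, i ≠ j → ⟪u (e i), e j⟫_ℝ = 0) ∧
      (∀ z ∈ Z, z = ∑ i, ⟪w z, e i⟫_ℝ • e i) := by
  intro n
  induction n with
  | zero =>
    intro Z w u hn _ _ _
    have hZ : Z = ⊥ := Submodule.finrank_eq_zero.1 (Nat.le_zero.1 hn)
    refine ⟨0, Fin.elim0, fun i => i.elim0, fun i => i.elim0, fun i => i.elim0, ?_⟩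
    intro z hz
    rw [hZ, Submodule.mem_bot] at hz
    rw [hz]
    simp
  | succ n ih =>
    intro Z w u hn hws hus hw
    by_cases hZ : Z = ⊥
    · refine ⟨0, Fin.elim0, fun i => i.elim0, fun i => i.elim0, fun i => i.elim0, ?_⟩
      intro z hz
      rw [hZ, Submodule.mem_bot] at hz
      rw [hz]
      simp
    obtain ⟨e, μ, heZ, he0, hμ, hmax⟩ := exists_top Z hZ w u hw
    have hwe := hw e heZ he0
    set c : ℝ := (Real.sqrt ⟪w e, e⟫_ℝ)⁻¹ with hc
    have hcc : c * (c * ⟪w e, e⟫_ℝ) = 1 := by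
      have h1 : Real.sqrt ⟪w e, e⟫_ℝ * Real.sqrt ⟪w e, e⟫_ℝ = ⟪w e, e⟫_ℝ :=
        Real.mul_self_sqrt hwe.le
      have h2 : Real.sqrt ⟪w e, e⟫_ℝ ≠ 0 := (Real.sqrt_pos.2 hwe).ne'
      rw [hc]
      nth_rewrite 3 [← h1]
      field_simp
    -- the form `μ w - u` vanishes at `e`
    have hker : ∀ z ∈ Z, ⟪u e, z⟫_ℝ = μ * ⟪w e, z⟫_ℝ := by
      intro z hz
      have h1 : ∀ t : ℝ, 0 ≤ 2 * t * (μ * ⟪w e, z⟫_ℝ - ⟪u e, z⟫_ℝ) +
          t ^ 2 * (μ * ⟪w z, z⟫_ℝ - ⟪u z, z⟫_ℝ) := by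
        intro t
        have h2 := hmax (e + t • z) (Z.add_mem heZ (Z.smul_mem t hz))
        have h3 : ∀ v : E →L[ℝ] E, Sym v → ⟪v (e + t • z), e + t • z⟫_ℝ =
            ⟪v e, e⟫_ℝ + 2 * t * ⟪v e, z⟫_ℝ + t ^ 2 * ⟪v z, z⟫_ℝ := by
          intro v hv
          rw [map_add, map_smul, inner_add_left, inner_add_right, inner_add_right,
            real_inner_smul_left, real_inner_smul_left, real_inner_smul_right,
            real_inner_smul_right, hv z e, real_inner_comm (v e) z]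
          ring
        rw [h3 u hus, h3 w hws] at h2
        rw [hμ] at h2
        linarith
      have h2 := lin_zero h1
      linarith
    set e₀ : E := c • e with he₀
    have he₀Z : e₀ ∈ Z := Z.smul_mem c heZ
    have hww : ⟪w e₀, e₀⟫_ℝ = 1 := by
      rw [he₀, map_smul, real_inner_smul_left, real_inner_smul_right]
      exact hcc
    have hue₀ : ∀ z ∈ Z, ⟪u e₀, z⟫_ℝ = μ * ⟪w e₀, z⟫_ℝ := by
      intro z hz
      rw [he₀, map_smul, map_smul, real_inner_smul_left, real_inner_smul_left, hker z hz]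
      ring
    set Z' : Submodule ℝ E := Z ⊓ LinearMap.ker (innerSL ℝ (w e₀)).toLinearMap with hZ'
    have hmem : ∀ z, z ∈ Z' ↔ z ∈ Z ∧ ⟪w e₀, z⟫_ℝ = 0 := by
      intro z
      rw [hZ', Submodule.mem_inf, LinearMap.mem_ker]
      rfl
    have hlt : Z' < Z := by
      refine lt_of_le_of_ne inf_le_left fun h => ?_
      have h1 : e₀ ∈ Z' := by rw [h]; exact he₀Z
      have h2 := ((hmem e₀).1 h1).2
      rw [hww] at h2
      exact one_ne_zero h2
    have hfin : Module.finrank ℝ Z' ≤ n := by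
      have := Submodule.finrank_lt_finrank_of_lt hlt
      omega
    obtain ⟨m, f, hfZ, hfw, hfu, hfz⟩ := ih Z' w u hfin hws hus
      (fun z hz h0 => hw z ((hmem z).1 hz).1 h0)
    have hwf : ∀ i, ⟪w e₀, f i⟫_ℝ = 0 := fun i => ((hmem _).1 (hfZ i)).2
    have hwf' : ∀ i, ⟪w (f i), e₀⟫_ℝ = 0 := fun i => by
      rw [hws, real_inner_comm]; exact hwf i
    have huf : ∀ i, ⟪u e₀, f i⟫_ℝ = 0 := fun i => by
      rw [hue₀ _ ((hmem _).1 (hfZ i)).1, hwf i, mul_zero]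
    have huf' : ∀ i, ⟪u (f i), e₀⟫_ℝ = 0 := fun i => by
      rw [hus, real_inner_comm]; exact huf i
    refine ⟨m + 1, Fin.cons e₀ f, ?_, ?_, ?_, ?_⟩
    · intro i
      refine Fin.cases ?_ (fun i => ?_) i
      · rw [Fin.cons_zero]; exact he₀Z
      · rw [Fin.cons_succ]; exact ((hmem _).1 (hfZ i)).1
    · intro i j
      refine Fin.cases ?_ (fun i => ?_) i
      · refine Fin.cases ?_ (fun j => ?_) j
        · rw [Fin.cons_zero, if_pos rfl]; exact hww
        · rw [Fin.cons_zero, Fin.cons_succ, if_neg (Fin.succ_ne_zero j).symm]; exact hwf j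
      · refine Fin.cases ?_ (fun j => ?_) j
        · rw [Fin.cons_zero, Fin.cons_succ, if_neg (Fin.succ_ne_zero i)]; exact hwf' i
        · rw [Fin.cons_succ, Fin.cons_succ, hfw i j]
          by_cases h : i = j
          · rw [if_pos h, if_pos (by rw [h])]
          · rw [if_neg h, if_neg fun h' => h (Fin.succ_injective _ h')]
    · intro i j
      refine Fin.cases ?_ (fun i => ?_) i
      · refine Fin.cases ?_ (fun j => ?_) j
        · intro h; exact absurd rfl h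
        · intro _
          rw [Fin.cons_zero, Fin.cons_succ]; exact huf j
      · refine Fin.cases ?_ (fun j => ?_) j
        · intro _
          rw [Fin.cons_zero, Fin.cons_succ]; exact huf' i
        · intro h
          rw [Fin.cons_succ, Fin.cons_succ]
          exact hfu i j fun h' => h (by rw [h'])
    · intro z hz
      rw [Fin.sum_univ_succ, Fin.cons_zero]
      simp only [Fin.cons_succ]
      have hz' : z - ⟪w z, e₀⟫_ℝ • e₀ ∈ Z' := by
        rw [hmem]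
        refine ⟨Z.sub_mem hz (Z.smul_mem _ he₀Z), ?_⟩
        rw [inner_sub_right, real_inner_smul_right, hww, mul_one, hws z e₀, real_inner_comm]
        ring
      have h1 := hfz _ hz'
      have h2 : ∀ i, ⟪w (z - ⟪w z, e₀⟫_ℝ • e₀), f i⟫_ℝ = ⟪w z, f i⟫_ℝ := by
        intro i
        rw [map_sub, map_smul, inner_sub_left, real_inner_smul_left, hwf i, mul_zero, sub_zero]
      simp only [h2] at h1
      rw [← h1]
      abel

end Pool.Agent.NH64.GM.Simul

namespace Pool.Agent.NH64.GM.Simul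

/-- **GM0** -/
theorem simul (E : Type) [NormedAddCommGroup E] [InnerProductSpace ℝ E] [FiniteDimensional ℝ E] :
    St_simul E := fun Z w u hw hu h => aux _ Z w u le_rfl hw hu h

end Pool.Agent.NH64.GM.Simul
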