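import Pool.Agent.NH64.GM.Stm

/-!
# Project GM, module GM4: sufficiency

`suff : St_suff E` from `St_W`, `St_incl` and `St_bip`.
-/

open scoped InnerProductSpace BigOperators Topology
open Filter

namespace Pool.Agent.NH64.GM.Suff

open Pool.Agent.NH64.GM

set_option linter.unusedSectionVars false

variable {E : Type} [NormedAddCommGroup E] [InnerProductSpace ℝ E]

/-- The operator `∑ α_i ⟪γ_i, ·⟫ γ_i`. -/
noncomputable def op {k : ℕ} (α : Fin k → ℝ) (γ : Fin k → E) : E →L[ℝ] E :=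
  ∑ i, α i • (innerSL ℝ (γ i)).smulRight (γ i)

theorem op_inner {k : ℕ} (α : Fin k → ℝ) (γ : Fin k → E) (x y : E) :
    ⟪op α γ x, y⟫_ℝ = ∑ i, α i * (⟪γ i, x⟫_ℝ * ⟪γ i, y⟫_ℝ) := by
  unfold op
  rw [_root_.sum_apply, _root_.sum_inner]
  refine Finset.sum_congr rfl (fun i _ => ?_)
  show ⟪α i • (⟪γ i, x⟫_ℝ • γ i), y⟫_ℝ = _
  rw [real_inner_smul_left, real_inner_smul_left]

theorem op_psd {k : ℕ} {α : Fin k → ℝ} (hα : ∀ i, 0 ≤ α i) (γ : Fin k → E) : Psd (op α γ) := by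
  refine ⟨fun x y => ?_, fun x => ?_⟩
  · rw [real_inner_comm (op α γ y) x, op_inner, op_inner]
    exact Finset.sum_congr rfl (fun i _ => by ring)
  · rw [op_inner]
    exact Finset.sum_nonneg (fun i _ => mul_nonneg (hα i) (mul_self_nonneg _))

theorem mem_W {K T : Set E} {k : ℕ} {α : Fin k → ℝ} (hα : ∀ i, 0 ≤ α i) (γ : Fin k → E)
    (h1 : ∀ x ∈ K, ∑ i, ⟪γ i, x⟫_ℝ ^ 2 ≤ 1) (h2 : ∀ x ∈ T, ∑ i, α i ^ 2 * ⟪γ i, x⟫_ℝ ^ 2 ≤ 1) :
    (op α γ, op (fun _ => 1) γ, op (fun i => α i ^ 2) γ) ∈ Wset K T := by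
  refine ⟨op_psd hα γ, op_psd (fun _ => zero_le_one) γ, op_psd (fun i => sq_nonneg _) γ, ?_, ?_, ?_⟩
  · intro x hx
    show ⟪op (fun _ => 1) γ x, x⟫_ℝ ≤ 1
    rw [op_inner]
    refine le_trans (le_of_eq ?_) (h1 x hx)
    exact Finset.sum_congr rfl (fun i _ => by ring)
  · intro x hx
    show ⟪op (fun i => α i ^ 2) γ x, x⟫_ℝ ≤ 1
    rw [op_inner]
    refine le_trans (le_of_eq ?_) (h2 x hx)
    exact Finset.sum_congr rfl (fun i _ => by ring)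
  · intro x x'
    show 0 ≤ ⟪op (fun _ => 1) γ x, x⟫_ℝ + 2 * ⟪op α γ x, x'⟫_ℝ + ⟪op (fun i => α i ^ 2) γ x', x'⟫_ℝ
    rw [op_inner, op_inner, op_inner, Finset.mul_sum, ← Finset.sum_add_distrib,
      ← Finset.sum_add_distrib]
    refine Finset.sum_nonneg (fun i _ => ?_)
    have h3 : (1 : ℝ) * (⟪γ i, x⟫_ℝ * ⟪γ i, x⟫_ℝ) + 2 * (α i * (⟪γ i, x⟫_ℝ * ⟪γ i, x'⟫_ℝ)) +
        α i ^ 2 * (⟪γ i, x'⟫_ℝ * ⟪γ i, x'⟫_ℝ) = (⟪γ i, x⟫_ℝ + α i * ⟪γ i, x'⟫_ℝ) ^ 2 := by ring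
    rw [h3]
    exact sq_nonneg _

/-- Hahn-Banach for a seminorm, at a point. -/
theorem hb_point [FiniteDimensional ℝ E] (q : Seminorm ℝ E) (x₀ : E) :
    ∃ γ : E, (∀ x, |⟪γ, x⟫_ℝ| ≤ q x) ∧ ⟪γ, x₀⟫_ℝ = q x₀ := by
  obtain ⟨g, hg1, hg2⟩ : ∃ g : E →ₗ[ℝ] ℝ, (∀ x, g x ≤ q x) ∧ g x₀ = q x₀ := by
    by_cases hx : x₀ = 0
    · refine ⟨0, fun x => ?_, ?_⟩
      · exact apply_nonneg q x
      · rw [hx]
        simp
    · obtain ⟨g, h1, h2⟩ := exists_extension_of_le_sublinear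
        (LinearPMap.mkSpanSingleton (K := ℝ) x₀ (q x₀) hx) (fun x => q x) (fun c hc x => by
          show q (c • x) = c * q x
          rw [map_smul_eq_mul, Real.norm_of_nonneg hc.le])
        (fun x y => map_add_le_add q x y) (by
          rintro ⟨z, hz⟩
          obtain ⟨c, rfl⟩ := Submodule.mem_span_singleton.1 hz
          rw [LinearPMap.mkSpanSingleton'_apply]
          show c • q x₀ ≤ q (c • x₀)
          rw [map_smul_eq_mul, smul_eq_mul]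
          exact mul_le_mul_of_nonneg_right (le_abs_self c) (apply_nonneg q x₀))
      refine ⟨g, h2, ?_⟩
      have h3 := h1 ⟨x₀, Submodule.mem_span_singleton_self (R := ℝ) x₀⟩
      have h4 : (LinearPMap.mkSpanSingleton x₀ (q x₀) hx : E →ₗ.[ℝ] ℝ)
          ⟨x₀, Submodule.mem_span_singleton_self (R := ℝ) x₀⟩ = q x₀ :=
        LinearPMap.mkSpanSingleton_apply ℝ ℝ hx (q x₀)
      rw [h4] at h3
      exact h3
  refine ⟨(InnerProductSpace.toDual ℝ E).symm (LinearMap.toContinuousLinearMap g), ?_, ?_⟩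
  · intro x
    rw [InnerProductSpace.toDual_symm_apply]
    show |g x| ≤ q x
    refine abs_le.2 ⟨?_, hg1 x⟩
    have h1 := hg1 (-x)
    rw [map_neg, map_neg_eq_map] at h1
    linarith
  · rw [InnerProductSpace.toDual_symm_apply]
    exact hg2

theorem P_sum {k : ℕ} {P : Fin k → E →ₗ[ℝ] E} (hP : IsDecomp P) (e : Fin k → E)
    (he : ∀ i, P i (e i) = e i) (c : Fin k → ℝ) (j : Fin k) :
    P j (∑ i, c i • e i) = c j • e j := by
  rw [map_sum, Finset.sum_eq_single j]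
  · rw [map_smul, he]
  · intro i _ hij
    rw [map_smul, ← he i, hP.ortho j i (Ne.symm hij), smul_zero]
  · intro h'; exact absurd (Finset.mem_univ j) h'

/-- The polar estimate. -/
theorem polar_est {k : ℕ} {P : Fin k → E →ₗ[ℝ] E} (hP : IsDecomp P) (p : Fin k → Seminorm ℝ E)
    (β : Fin k → ℝ) (hβ : ∀ i, 0 < β i) (e : Fin k → E) (he : ∀ i, P i (e i) = e i)
    (hpe : ∀ i, p i (e i) ≤ 1) (y : E) (hy : y ∈ pol {x | ∑ i, β i * p i (P i x) ^ 2 ≤ 1}) :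
    ∑ i, (β i)⁻¹ * ⟪e i, y⟫_ℝ ^ 2 ≤ 1 := by
  obtain ⟨s, hs⟩ : ∃ s : ℝ, s = ∑ i, (β i)⁻¹ * ⟪e i, y⟫_ℝ ^ 2 := ⟨_, rfl⟩
  rw [← hs]
  have hs0 : 0 ≤ s := by
    rw [hs]
    exact Finset.sum_nonneg (fun i _ => mul_nonneg (inv_pos.2 (hβ i)).le (sq_nonneg _))
  rcases hs0.eq_or_lt' with h0 | h0
  · rw [h0]; exact zero_le_one
  have hr : 0 < √s := Real.sqrt_pos.2 h0
  have h1 : ∀ j, P j ((√s)⁻¹ • ∑ i, ((β i)⁻¹ * ⟪e i, y⟫_ℝ) • e i) =
      ((√s)⁻¹ * ((β j)⁻¹ * ⟪e j, y⟫_ℝ)) • e j := by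
    intro j
    rw [map_smul, P_sum hP e he, smul_smul]
  have h2 : (√s)⁻¹ • ∑ i, ((β i)⁻¹ * ⟪e i, y⟫_ℝ) • e i ∈ {x | ∑ i, β i * p i (P i x) ^ 2 ≤ 1} := by
    show ∑ j, β j * p j (P j ((√s)⁻¹ • ∑ i, ((β i)⁻¹ * ⟪e i, y⟫_ℝ) • e i)) ^ 2 ≤ 1
    have h3 : ∀ j ∈ Finset.univ, β j * p j (P j ((√s)⁻¹ • ∑ i, ((β i)⁻¹ * ⟪e i, y⟫_ℝ) • e i)) ^ 2 ≤
        s⁻¹ * ((β j)⁻¹ * ⟪e j, y⟫_ℝ ^ 2) := by
      intro j _
      rw [h1, map_smul_eq_mul, mul_pow, Real.norm_eq_abs, sq_abs]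
      have h4 : p j (e j) ^ 2 ≤ 1 := by
        have := pow_le_pow_left₀ (apply_nonneg (p j) (e j)) (hpe j) 2
        rwa [one_pow] at this
      have h5 : ((√s)⁻¹ * ((β j)⁻¹ * ⟪e j, y⟫_ℝ)) ^ 2 = s⁻¹ * ((β j)⁻¹ ^ 2 * ⟪e j, y⟫_ℝ ^ 2) := by
        rw [mul_pow, mul_pow, inv_pow, Real.sq_sqrt h0.le]
      rw [h5]
      have h6 : β j * (s⁻¹ * ((β j)⁻¹ ^ 2 * ⟪e j, y⟫_ℝ ^ 2) * p j (e j) ^ 2) =
          (s⁻¹ * ((β j)⁻¹ * ⟪e j, y⟫_ℝ ^ 2)) * p j (e j) ^ 2 := by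
        have := (hβ j).ne'
        field_simp
      rw [h6]
      have h7 : 0 ≤ s⁻¹ * ((β j)⁻¹ * ⟪e j, y⟫_ℝ ^ 2) := by
        have := hβ j
        positivity
      exact mul_le_of_le_one_right h7 h4
    refine (Finset.sum_le_sum h3).trans ?_
    rw [← Finset.mul_sum, ← hs, inv_mul_cancel₀ h0.ne']
  have h3 := hy _ h2
  rw [real_inner_smul_left, _root_.sum_inner] at h3
  have h4 : ∑ i, ⟪((β i)⁻¹ * ⟪e i, y⟫_ℝ) • e i, y⟫_ℝ = s := by
    rw [hs]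
    refine Finset.sum_congr rfl (fun i _ => ?_)
    rw [real_inner_smul_left]
    ring
  rw [h4] at h3
  have h5 : √s ≤ 1 := by
    have h6 : (√s)⁻¹ * s = √s := by
      nth_rewrite 2 [← Real.mul_self_sqrt h0.le]
      field_simp
    rwa [h6] at h3
  calc s = √s * √s := (Real.mul_self_sqrt h0.le).symm
    _ ≤ 1 * 1 := mul_le_mul h5 h5 hr.le zero_le_one
    _ = 1 := mul_one 1

variable [FiniteDimensional ℝ E]

theorem suff (hW : St_W E) (hi : St_incl E) (hb : St_bip E) : St_suff E := by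
  intro K T hK hT k P p lam hD
  obtain ⟨_, hK'⟩ := hb K hK
  obtain ⟨_, hT'⟩ := hb T hT
  obtain ⟨hi1, hi2⟩ := hi K T hK hT
  have ha : upperEnv K T ⊆ {x | ∑ i, lam i * p i (P i x) ^ 2 ≤ 1} := by
    intro x₀ hx₀
    rw [(hW K T hK hT).2.2] at hx₀
    choose γ hγ1 hγ2 using fun i => hb_point ((p i).comp (P i)) x₀
    have hsq : ∀ i x, ⟪γ i, x⟫_ℝ ^ 2 ≤ p i (P i x) ^ 2 := by
      intro i x
      rw [← sq_abs]
      exact pow_le_pow_left₀ (abs_nonneg _) (hγ1 i x) 2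
    have h1 := hx₀ _ (mem_W (K := K) (T := T) (fun i => (hD.pos i).le) γ (fun x hx => by
      rw [hD.eqK] at hx
      exact (Finset.sum_le_sum (fun i _ => hsq i x)).trans hx) (fun x hx => by
      rw [hD.eqT] at hx
      exact (Finset.sum_le_sum (fun i _ =>
        mul_le_mul_of_nonneg_left (hsq i x) (sq_nonneg _))).trans hx))
    rw [op_inner] at h1
    refine le_trans (le_of_eq ?_) h1
    refine Finset.sum_congr rfl (fun i _ => ?_)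
    rw [hγ2 i]
    show lam i * p i (P i x₀) ^ 2 = lam i * (p i (P i x₀) * p i (P i x₀))
    ring
  have hbb : {x | ∑ i, lam i * p i (P i x) ^ 2 ≤ 1} ⊆ lowerEnv K T := by
    intro x₀ hx₀ y₀ hy₀
    rw [(hW _ _ hK' hT').2.2] at hy₀
    obtain ⟨e, hed⟩ : ∃ e : Fin k → E, ∀ i, e i = (p i (P i x₀))⁻¹ • P i x₀ :=
      ⟨_, fun _ => rfl⟩
    have he : ∀ i, P i (e i) = e i := by
      intro i
      rw [hed, map_smul, hD.decomp.idem]
    have hpe : ∀ i, p i (e i) ≤ 1 := by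
      intro i
      rw [hed, map_smul_eq_mul, norm_inv, Real.norm_of_nonneg (apply_nonneg _ _)]
      exact inv_mul_le_one_of_le₀ le_rfl (apply_nonneg _ _)
    have hPx : ∀ i, P i x₀ = p i (P i x₀) • e i := by
      intro i
      by_cases h0 : P i x₀ = 0
      · rw [h0]
        simp
      · have h1 := hD.norm i x₀ h0
        rw [hed, smul_smul, mul_inv_cancel₀ h1.ne', one_smul]
    have h1 := hy₀ _ (mem_W (K := pol K) (T := pol T) (α := fun i => (lam i)⁻¹)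
      (fun i => (inv_pos.2 (hD.pos i)).le) e (fun y hy => by
        rw [hD.eqK] at hy
        have h2 := polar_est hD.decomp p (fun _ => 1) (fun _ => one_pos) e he hpe y (by
          simpa using hy)
        simpa using h2) (fun y hy => by
        rw [hD.eqT] at hy
        have h2 := polar_est hD.decomp p (fun i => lam i ^ 2)
          (fun i => pow_pos (hD.pos i) 2) e he hpe y hy
        refine le_trans (le_of_eq ?_) h2
        exact Finset.sum_congr rfl (fun i _ => by rw [inv_pow])))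
    rw [op_inner] at h1
    have h2 : ⟪y₀, x₀⟫_ℝ = ∑ i, p i (P i x₀) * ⟪e i, y₀⟫_ℝ := by
      rw [real_inner_comm]
      conv_lhs => rw [← hD.decomp.sum x₀]
      rw [_root_.sum_inner]
      refine Finset.sum_congr rfl (fun i _ => ?_)
      conv_lhs => rw [hPx i]
      rw [real_inner_smul_left]
    rw [h2]
    have h3 : ∀ i ∈ Finset.univ, p i (P i x₀) * ⟪e i, y₀⟫_ℝ ≤
        (1 / 2) * (lam i * p i (P i x₀) ^ 2) +
          (1 / 2) * ((lam i)⁻¹ * (⟪e i, y₀⟫_ℝ * ⟪e i, y₀⟫_ℝ)) := by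
      intro i _
      have h4 := hD.pos i
      have h5 : (1 / 2) * (lam i * p i (P i x₀) ^ 2) +
          (1 / 2) * ((lam i)⁻¹ * (⟪e i, y₀⟫_ℝ * ⟪e i, y₀⟫_ℝ)) - p i (P i x₀) * ⟪e i, y₀⟫_ℝ =
          (1 / 2) * (lam i)⁻¹ * (lam i * p i (P i x₀) - ⟪e i, y₀⟫_ℝ) ^ 2 := by
        field_simp
        ring
      have h6 : 0 ≤ (1 / 2) * (lam i)⁻¹ * (lam i * p i (P i x₀) - ⟪e i, y₀⟫_ℝ) ^ 2 := by
        positivity
      linarith
    refine (Finset.sum_le_sum h3).trans ?_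
    rw [Finset.sum_add_distrib, ← Finset.mul_sum, ← Finset.mul_sum]
    have h4 : ∑ i, lam i * p i (P i x₀) ^ 2 ≤ 1 := hx₀
    linarith
  have hGu : upperEnv K T ⊆ lowerEnv K T := ha.trans hbb
  refine ⟨?_, ?_, ?_⟩
  · exact Set.Subset.antisymm (hi2.trans ha) (hbb.trans hi1)
  · exact Set.Subset.antisymm hi1 (hi2.trans hGu)
  · exact Set.Subset.antisymm hi2 (hGu.trans hi1)

end Pool.Agent.NH64.GM.Suff
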