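import Pool.Agent.NH64.GM.Stm

/-!
# Project GM, module GM3: the compact convex set `Wset` and the upper envelope

`Wlem : St_W E` from `St_ell`.
-/

open scoped InnerProductSpace BigOperators Topology
open Filter

namespace Pool.Agent.NH64.GM.Wlem

open Pool.Agent.NH64.GM

set_option linter.unusedSectionVars false

variable {E : Type} [NormedAddCommGroup E] [InnerProductSpace ℝ E]

/-- Cauchy-Schwarz for positive semidefinite forms. -/
theorem psd_cs {A : E →L[ℝ] E} (hA : Psd A) (x y : E) :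
    ⟪A x, y⟫_ℝ ^ 2 ≤ ⟪A x, x⟫_ℝ * ⟪A y, y⟫_ℝ := by
  have h : ∀ t : ℝ, 0 ≤ ⟪A y, y⟫_ℝ * (t * t) + (2 * ⟪A x, y⟫_ℝ) * t + ⟪A x, x⟫_ℝ := by
    intro t
    have h1 := hA.2 (x + t • y)
    have h2 : ⟪A y, x⟫_ℝ = ⟪A x, y⟫_ℝ := by
      rw [hA.1, real_inner_comm]
    simp only [map_add, map_smul, _root_.inner_add_left, _root_.inner_add_right,
      real_inner_smul_left, real_inner_smul_right, h2] at h1
    linarith
  have h1 := discrim_le_zero h
  rw [discrim] at h1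
  nlinarith

/-- A psd operator with form bounded by `C |x|²` has norm at most `C`. -/
theorem psd_norm {A : E →L[ℝ] E} (hA : Psd A) {C : ℝ} (hC : 0 ≤ C)
    (h : ∀ x, ⟪A x, x⟫_ℝ ≤ C * ‖x‖ ^ 2) : ‖A‖ ≤ C := by
  refine A.opNorm_le_bound hC (fun x => ?_)
  have h1 := psd_cs hA x (A x)
  have h2 : ⟪A x, A x⟫_ℝ = ‖A x‖ ^ 2 := real_inner_self_eq_norm_sq _
  rw [h2] at h1
  by_cases h0 : ‖A x‖ = 0
  · rw [h0]; positivity
  have h0' : 0 < ‖A x‖ := lt_of_le_of_ne (norm_nonneg _) (Ne.symm h0)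
  have h3 : (‖A x‖ ^ 2) ^ 2 ≤ (C * ‖x‖ ^ 2) * (C * ‖A x‖ ^ 2) :=
    h1.trans (mul_le_mul (h x) (h (A x)) (hA.2 _) (by positivity))
  have h4 : ‖A x‖ ^ 2 ≤ (C * ‖x‖) ^ 2 := by
    have h5 : ‖A x‖ ^ 2 * ‖A x‖ ^ 2 ≤ ‖A x‖ ^ 2 * (C * ‖x‖) ^ 2 := by nlinarith
    exact le_of_mul_le_mul_left h5 (by positivity)
  exact (pow_le_pow_iff_left₀ (norm_nonneg _) (by positivity) two_ne_zero).1 h4

/-- `Dom` gives a bound for the mixed form. -/
theorem dom_le {w u v : E →L[ℝ] E} (hD : Dom w u v) {C : ℝ}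
    (hu : ∀ x, ⟪u x, x⟫_ℝ ≤ C * ‖x‖ ^ 2) (hv : ∀ x, ⟪v x, x⟫_ℝ ≤ C * ‖x‖ ^ 2) (x : E) :
    ⟪w x, x⟫_ℝ ≤ C * ‖x‖ ^ 2 := by
  have h1 := hD x (-x)
  rw [map_neg, _root_.inner_neg_right, _root_.inner_neg_right, _root_.inner_neg_left, neg_neg] at h1
  have h2 := hu x
  have h3 := hv x
  linarith

theorem ball_bound {K : Set E} (h0 : (0 : E) ∈ interior K) : ∃ C : ℝ, 0 < C ∧
    ∀ u : E →L[ℝ] E, (∀ x ∈ K, ⟪u x, x⟫_ℝ ≤ 1) → ∀ x, ⟪u x, x⟫_ℝ ≤ C * ‖x‖ ^ 2 := by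
  obtain ⟨r, hr, hb⟩ := Metric.isOpen_iff.1 isOpen_interior 0 h0
  refine ⟨((r / 2) ^ 2)⁻¹, by positivity, fun u hu x => ?_⟩
  by_cases hx : x = 0
  · rw [hx]
    simp
  have hn : 0 < ‖x‖ := norm_pos_iff.2 hx
  have h1 : (r / 2 * ‖x‖⁻¹) • x ∈ K := by
    refine interior_subset (hb ?_)
    rw [Metric.mem_ball, dist_zero_right, norm_smul, Real.norm_of_nonneg (by positivity)]
    have : r / 2 * ‖x‖⁻¹ * ‖x‖ = r / 2 := by field_simp
    rw [this]
    linarith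
  have h2 := hu _ h1
  rw [map_smul, real_inner_smul_left, real_inner_smul_right] at h2
  have h3 : ⟪u x, x⟫_ℝ = ((r / 2) ^ 2)⁻¹ * ‖x‖ ^ 2 *
      (r / 2 * ‖x‖⁻¹ * (r / 2 * ‖x‖⁻¹ * ⟪u x, x⟫_ℝ)) := by
    field_simp
  rw [h3]
  exact mul_le_of_le_one_right (by positivity) h2

theorem cont_form (x y : E) : Continuous (fun u : E →L[ℝ] E => ⟪u x, y⟫_ℝ) :=
  Continuous.inner (ContinuousLinearMap.apply ℝ E x).continuous continuous_const

theorem isClosed_psd : IsClosed {u : E →L[ℝ] E | Psd u} := by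
  have h : {u : E →L[ℝ] E | Psd u} =
      (⋂ x : E, ⋂ y : E, {u : E →L[ℝ] E | ⟪u x, y⟫_ℝ = ⟪x, u y⟫_ℝ}) ∩
        ⋂ x : E, {u : E →L[ℝ] E | 0 ≤ ⟪u x, x⟫_ℝ} := by
    ext u
    simp only [Set.mem_inter_iff, Set.mem_iInter]
    exact Iff.rfl
  rw [h]
  refine IsClosed.inter ?_ ?_
  · refine isClosed_iInter (fun x => isClosed_iInter (fun y => isClosed_eq (cont_form x y) ?_))
    exact Continuous.inner continuous_const (ContinuousLinearMap.apply ℝ E y).continuous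
  · exact isClosed_iInter (fun x => isClosed_le continuous_const (cont_form x x))

theorem isClosed_W (K T : Set E) : IsClosed (Wset K T) := by
  have h : Wset K T = {t | Psd t.1} ∩ ({t | Psd t.2.1} ∩ ({t | Psd t.2.2} ∩
      ((⋂ x ∈ K, {t : (E →L[ℝ] E) × (E →L[ℝ] E) × (E →L[ℝ] E) | ⟪t.2.1 x, x⟫_ℝ ≤ 1}) ∩
      ((⋂ x ∈ T, {t : (E →L[ℝ] E) × (E →L[ℝ] E) × (E →L[ℝ] E) | ⟪t.2.2 x, x⟫_ℝ ≤ 1}) ∩
      (⋂ x : E, ⋂ x' : E, {t : (E →L[ℝ] E) × (E →L[ℝ] E) × (E →L[ℝ] E) |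
        0 ≤ ⟪t.2.1 x, x⟫_ℝ + 2 * ⟪t.1 x, x'⟫_ℝ + ⟪t.2.2 x', x'⟫_ℝ}))))) := by
    ext t
    simp only [Set.mem_inter_iff, Set.mem_iInter]
    exact Iff.rfl
  rw [h]
  have c1 : ∀ x y : E, Continuous
      (fun t : (E →L[ℝ] E) × (E →L[ℝ] E) × (E →L[ℝ] E) => ⟪t.1 x, y⟫_ℝ) := fun x y =>
    (cont_form x y).comp continuous_fst
  have c2 : ∀ x y : E, Continuous
      (fun t : (E →L[ℝ] E) × (E →L[ℝ] E) × (E →L[ℝ] E) => ⟪t.2.1 x, y⟫_ℝ) := fun x y =>
    (cont_form x y).comp (continuous_fst.comp continuous_snd)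
  have c3 : ∀ x y : E, Continuous
      (fun t : (E →L[ℝ] E) × (E →L[ℝ] E) × (E →L[ℝ] E) => ⟪t.2.2 x, y⟫_ℝ) := fun x y =>
    (cont_form x y).comp (continuous_snd.comp continuous_snd)
  refine (isClosed_psd.preimage continuous_fst).inter ?_
  refine (isClosed_psd.preimage (continuous_fst.comp continuous_snd)).inter ?_
  refine (isClosed_psd.preimage (continuous_snd.comp continuous_snd)).inter ?_
  refine (isClosed_biInter (fun x _ => isClosed_le (c2 x x) continuous_const)).inter ?_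
  refine (isClosed_biInter (fun x _ => isClosed_le (c3 x x) continuous_const)).inter ?_
  exact isClosed_iInter (fun x => isClosed_iInter (fun x' => isClosed_le continuous_const
    (((c2 x x).add (continuous_const.mul (c1 x x'))).add (c3 x' x'))))

theorem psd_conv {u u' : E →L[ℝ] E} (h : Psd u) (h' : Psd u') {a b : ℝ} (ha : 0 ≤ a)
    (hb : 0 ≤ b) : Psd (a • u + b • u') := by
  refine ⟨fun x y => ?_, fun x => ?_⟩
  · show ⟪a • u x + b • u' x, y⟫_ℝ = ⟪x, a • u y + b • u' y⟫_ℝ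
    rw [_root_.inner_add_left, _root_.inner_add_right, real_inner_smul_left,
      real_inner_smul_left, real_inner_smul_right, real_inner_smul_right, h.1, h'.1]
  · show 0 ≤ ⟪a • u x + b • u' x, x⟫_ℝ
    rw [_root_.inner_add_left, real_inner_smul_left, real_inner_smul_left]
    exact add_nonneg (mul_nonneg ha (h.2 x)) (mul_nonneg hb (h'.2 x))

theorem convex_W (K T : Set E) : Convex ℝ (Wset K T) := by
  rintro ⟨w, u, v⟩ ⟨hw, hu, hv, huK, hvT, hD⟩ ⟨w', u', v'⟩ ⟨hw', hu', hv', huK', hvT', hD'⟩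
    a b ha hb hab
  dsimp only at hw hu hv huK hvT hD hw' hu' hv' huK' hvT' hD'
  have key : ∀ (A B : E →L[ℝ] E) (x y : E),
      ⟪(a • A + b • B) x, y⟫_ℝ = a * ⟪A x, y⟫_ℝ + b * ⟪B x, y⟫_ℝ := by
    intro A B x y
    show ⟪a • A x + b • B x, y⟫_ℝ = _
    rw [_root_.inner_add_left, real_inner_smul_left, real_inner_smul_left]
  refine ⟨psd_conv hw hw' ha hb, psd_conv hu hu' ha hb, psd_conv hv hv' ha hb, ?_, ?_, ?_⟩
  · intro x hx
    show ⟪(a • u + b • u') x, x⟫_ℝ ≤ 1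
    rw [key]
    have h1 := mul_le_mul_of_nonneg_left (huK x hx) ha
    have h2 := mul_le_mul_of_nonneg_left (huK' x hx) hb
    linarith
  · intro x hx
    show ⟪(a • v + b • v') x, x⟫_ℝ ≤ 1
    rw [key]
    have h1 := mul_le_mul_of_nonneg_left (hvT x hx) ha
    have h2 := mul_le_mul_of_nonneg_left (hvT' x hx) hb
    linarith
  · intro x x'
    show 0 ≤ ⟪(a • u + b • u') x, x⟫_ℝ + 2 * ⟪(a • w + b • w') x, x'⟫_ℝ +
      ⟪(a • v + b • v') x', x'⟫_ℝ
    rw [key, key, key]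
    have h1 := mul_nonneg ha (hD x x')
    have h2 := mul_nonneg hb (hD' x x')
    linarith

variable [FiniteDimensional ℝ E]

theorem Wlem (he : St_ell E) : St_W E := by
  intro K T hK hT
  obtain ⟨C₁, hC₁, hb₁⟩ := ball_bound hK.zero_mem
  obtain ⟨C₂, hC₂, hb₂⟩ := ball_bound hT.zero_mem
  refine ⟨?_, convex_W K T, ?_⟩
  · have : ProperSpace (E →L[ℝ] E) := FiniteDimensional.proper ℝ _
    refine Metric.isCompact_of_isClosed_isBounded (isClosed_W K T) ?_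
    refine isBounded_iff_forall_norm_le.2 ⟨C₁ + C₂, ?_⟩
    rintro ⟨w, u, v⟩ ⟨hw, hu, hv, huK, hvT, hD⟩
    dsimp only at hw hu hv huK hvT hD
    have e1 : ∀ x, ⟪u x, x⟫_ℝ ≤ (C₁ + C₂) * ‖x‖ ^ 2 := fun x => by
      have h1 := hb₁ u huK x
      have h2 : 0 ≤ C₂ * ‖x‖ ^ 2 := by positivity
      linarith
    have e2 : ∀ x, ⟪v x, x⟫_ℝ ≤ (C₁ + C₂) * ‖x‖ ^ 2 := fun x => by
      have h1 := hb₂ v hvT x
      have h2 : 0 ≤ C₁ * ‖x‖ ^ 2 := by positivity
      linarith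
    have e3 := dom_le hD e1 e2
    have hC : 0 ≤ C₁ + C₂ := by positivity
    rw [Prod.norm_def, Prod.norm_def]
    exact max_le (psd_norm hw hC e3) (max_le (psd_norm hu hC e1) (psd_norm hv hC e2))
  · ext x
    constructor
    · intro hx
      rintro ⟨w, u, v⟩ ⟨hw, hu, hv, huK, hvT, hD⟩
      dsimp only at hw hu hv huK hvT hD
      show ⟪w x, x⟫_ℝ ≤ 1
      obtain ⟨R₁, hR₁⟩ := hK.compact.isBounded.exists_norm_le
      obtain ⟨R₂, hR₂⟩ := hT.compact.isBounded.exists_norm_le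
      obtain ⟨R, hR0, hRK, hRT⟩ : ∃ R : ℝ, 0 < R ∧ (∀ x ∈ K, ‖x‖ ≤ R) ∧ (∀ x ∈ T, ‖x‖ ≤ R) := by
        refine ⟨max 1 (max R₁ R₂), lt_of_lt_of_le one_pos (le_max_left _ _), fun x hx => ?_,
          fun x hx => ?_⟩
        · exact (hR₁ x hx).trans ((le_max_left _ _).trans (le_max_right _ _))
        · exact (hR₂ x hx).trans ((le_max_right _ _).trans (le_max_right _ _))
      obtain ⟨c, hc⟩ : ∃ c : ℝ, c = (R ^ 2)⁻¹ := ⟨_, rfl⟩
      have hc0 : 0 < c := by rw [hc]; positivity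
      have hcle : ∀ z : E, ‖z‖ ≤ R → c * ‖z‖ ^ 2 ≤ 1 := by
        intro z hz
        rw [hc]
        have h1 : ‖z‖ ^ 2 ≤ R ^ 2 := pow_le_pow_left₀ (norm_nonneg z) hz 2
        calc (R ^ 2)⁻¹ * ‖z‖ ^ 2 ≤ (R ^ 2)⁻¹ * R ^ 2 :=
              mul_le_mul_of_nonneg_left h1 (by positivity)
          _ = 1 := inv_mul_cancel₀ (by positivity)
      have key : ∀ (A : E →L[ℝ] E) (ε : ℝ) (x y : E),
          ⟪((1 - ε) • A + (ε * c) • ContinuousLinearMap.id ℝ E) x, y⟫_ℝ =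
            (1 - ε) * ⟪A x, y⟫_ℝ + ε * c * ⟪x, y⟫_ℝ := by
        intro A ε x y
        show ⟪(1 - ε) • A x + (ε * c) • x, y⟫_ℝ = _
        rw [_root_.inner_add_left, real_inner_smul_left, real_inner_smul_left]
      have hidpsd : Psd (ContinuousLinearMap.id ℝ E) :=
        ⟨fun x y => rfl, fun x => real_inner_self_nonneg⟩
      have hpd : ∀ A : E →L[ℝ] E, Psd A → ∀ ε : ℝ, 0 < ε → ε < 1 →
          Pd ((1 - ε) • A + (ε * c) • ContinuousLinearMap.id ℝ E) := by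
        intro A hA ε hε0 hε1
        refine ⟨(psd_conv hA hidpsd (by linarith) (by positivity)).1, fun z hz => ?_⟩
        rw [key, real_inner_self_eq_norm_sq]
        have h1 : 0 ≤ (1 - ε) * ⟪A z, z⟫_ℝ := mul_nonneg (by linarith) (hA.2 z)
        have h2 := norm_pos_iff.2 hz
        have h3 : 0 < ε * c * ‖z‖ ^ 2 := by positivity
        linarith
      have main : ∀ ε : ℝ, 0 < ε → ε < 1 → (1 - ε) * ⟪w x, x⟫_ℝ ≤ 1 := by
        intro ε hε0 hε1
        obtain ⟨g, hg, hgD, hgmax, hgell⟩ := he _ _ (hpd u hu ε hε0 hε1) (hpd v hv ε hε0 hε1)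
        have h1 : x ∈ geomMean (ell ((1 - ε) • u + (ε * c) • ContinuousLinearMap.id ℝ E))
            (ell ((1 - ε) • v + (ε * c) • ContinuousLinearMap.id ℝ E)) := by
          refine hx _ _ ⟨_, hpd u hu ε hε0 hε1, rfl⟩ ⟨_, hpd v hv ε hε0 hε1, rfl⟩ ?_ ?_
          · intro z hz
            show ⟪((1 - ε) • u + (ε * c) • ContinuousLinearMap.id ℝ E) z, z⟫_ℝ ≤ 1
            rw [key, real_inner_self_eq_norm_sq]
            have h2 : (1 - ε) * ⟪u z, z⟫_ℝ ≤ (1 - ε) * 1 :=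
              mul_le_mul_of_nonneg_left (huK z hz) (by linarith)
            have h3 : ε * (c * ‖z‖ ^ 2) ≤ ε * 1 :=
              mul_le_mul_of_nonneg_left (hcle z (hRK z hz)) hε0.le
            linarith
          · intro z hz
            show ⟪((1 - ε) • v + (ε * c) • ContinuousLinearMap.id ℝ E) z, z⟫_ℝ ≤ 1
            rw [key, real_inner_self_eq_norm_sq]
            have h2 : (1 - ε) * ⟪v z, z⟫_ℝ ≤ (1 - ε) * 1 :=
              mul_le_mul_of_nonneg_left (hvT z hz) (by linarith)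
            have h3 : ε * (c * ‖z‖ ^ 2) ≤ ε * 1 :=
              mul_le_mul_of_nonneg_left (hcle z (hRT z hz)) hε0.le
            linarith
        rw [hgell] at h1
        have h2 := hgmax ((1 - ε) • w + (ε * c) • ContinuousLinearMap.id ℝ E)
          (psd_conv hw hidpsd (by linarith) (by positivity)).1 (by
            intro z z'
            rw [key, key, key]
            have h3 := mul_nonneg (by linarith : (0 : ℝ) ≤ 1 - ε) (hD z z')
            have h4 : 0 ≤ ε * c * ⟪z + z', z + z'⟫_ℝ :=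
              mul_nonneg (by positivity) real_inner_self_nonneg
            rw [real_inner_add_add_self] at h4
            linarith) x
        have h3 : ⟪g x, x⟫_ℝ ≤ 1 := h1
        rw [key, real_inner_self_eq_norm_sq] at h2
        have h4 : 0 ≤ ε * c * ‖x‖ ^ 2 := by positivity
        linarith
      by_contra hcon
      push Not at hcon
      obtain ⟨ω, hω⟩ : ∃ ω : ℝ, ω = ⟪w x, x⟫_ℝ := ⟨_, rfl⟩
      rw [← hω] at hcon
      have h1 := main ((ω - 1) / (2 * ω)) (by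
        have : 0 < ω - 1 := by linarith
        positivity) (by
        rw [div_lt_one (by linarith)]
        linarith)
      rw [← hω] at h1
      have h2 : (1 - (ω - 1) / (2 * ω)) * ω = (ω + 1) / 2 := by
        field_simp
        ring
      rw [h2] at h1
      linarith
    · intro hx A B hA hB hKA hTB
      obtain ⟨u, hu, rfl⟩ := hA
      obtain ⟨v, hv, rfl⟩ := hB
      obtain ⟨g, hg, hgD, _, hgell⟩ := he u v hu hv
      rw [hgell]
      have hps : ∀ {A : E →L[ℝ] E}, Pd A → Psd A := by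
        intro A hA
        refine ⟨hA.1, fun z => ?_⟩
        by_cases hz : z = 0
        · rw [hz]
          simp
        · exact (hA.2 z hz).le
      exact hx (g, u, v) ⟨hps hg, hps hu, hps hv, fun z hz => hKA hz, fun z hz => hTB hz, hgD⟩

end Pool.Agent.NH64.GM.Wlem
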