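import Pool.Agent.NH64.GM.Ell
import Pool.Agent.NH64.GM.Simul
import Pool.Agent.NH64.GM.Pairs
import Pool.Agent.NH64.GM.Frame
import Pool.Agent.NH64.GM.Comp
import Pool.Agent.NH64.GM.Mat
import Pool.Agent.NH64.GM.Cpt
import Pool.Agent.NH64.GM.Wlem
import Pool.Agent.NH64.GM.Dir
import Pool.Agent.NH64.GM.Conv
import Pool.Agent.NH64.GM.Decomp
import Pool.Agent.NH64.GM.Suff

/-! Assembly of project GM. -/

open scoped InnerProductSpace BigOperators Topology

namespace Pool.Agent.NH64.GM.Main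

variable (E : Type) [NormedAddCommGroup E] [InnerProductSpace ℝ E] [FiniteDimensional ℝ E]

theorem stW : St_W E := Wlem.Wlem (Ell.ell_mean E (Simul.simul E))

theorem stdecomp : St_decomp E := by
  have hb : St_bip E := Incl.bip E
  have hi : St_interp := Mat.interp
  have hl : St_LA := Mat.LA
  have hc : St_comp E := Comp.comp hb hi
  have hv : St_val E := Comp.val hb hi hl
  have hk : St_cpt E := Cpt.cpt
  have hcont : St_cont E := Dir.cont hc hv hk
  have hd : St_dir E := Dir.dir hc hv hk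
  exact Decomp.decomp (Comp.mem hb) hc hv (Conv.conv hc hv hcont hd hl)

theorem necess (K T : Set E) (hK : IsBody K) (hT : IsBody T) (h : upperEnv K T = lowerEnv K T) :
    ∃ (k : ℕ) (P : Fin k → E →ₗ[ℝ] E) (p : Fin k → Seminorm ℝ E) (lam : Fin k → ℝ),
      IsData K T P p lam := by
  have hb : St_bip E := Incl.bip E
  refine stdecomp E K T hK hT fun x => ?_
  obtain ⟨t, ht, s, hs, hx⟩ := Pairs.pairs (stW E) hb K T hK hT h x
  exact Frame.frame (Simul.simul E) hb K T hK hT t ht s hs x hx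

theorem main (K T : Set E) (hK : IsBody K) (hT : IsBody T) :
    ((lowerEnv K T = geomMean K T ∧ geomMean K T = upperEnv K T) ↔
      ∃ (k : ℕ) (P : Fin k → E →ₗ[ℝ] E) (p : Fin k → Seminorm ℝ E) (lam : Fin k → ℝ),
        IsData K T P p lam) ∧
    ∀ (k : ℕ) (P : Fin k → E →ₗ[ℝ] E) (p : Fin k → Seminorm ℝ E) (lam : Fin k → ℝ),
      IsData K T P p lam → geomMean K T = {x | ∑ i, lam i * p i (P i x) ^ 2 ≤ 1} := by
  have hs := Suff.suff (stW E) (Incl.incl E) (Incl.bip E) K T hK hT
  refine ⟨⟨fun h => necess E K T hK hT (h.1.trans h.2).symm, ?_⟩, fun k P p lam h =>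
    (hs k P p lam h).1⟩
  rintro ⟨k, P, p, lam, h⟩
  exact (hs k P p lam h).2

end Pool.Agent.NH64.GM.Main
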