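import Pool.Agent.NH64.GM.Def

/-!
Statements of the modules of project GM (MP_105f6a_gt). Each `St_...` is a proposition about
one finite dimensional inner product space `E`.
-/

open scoped InnerProductSpace BigOperators Topology
open Filter

namespace Pool.Agent.NH64.GM

section general

variable (E : Type) [NormedAddCommGroup E] [InnerProductSpace ℝ E] [FiniteDimensional ℝ E]

/-! #### GM0: simultaneous diagonalisation -/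

def St_simul : Prop := ∀ (Z : Submodule ℝ E) (w u : E →L[ℝ] E), Sym w → Sym u →
  (∀ z ∈ Z, z ≠ 0 → 0 < ⟪w z, z⟫_ℝ) →
  ∃ (m : ℕ) (e : Fin m → E), (∀ i, e i ∈ Z) ∧
    (∀ i j, ⟪w (e i), e j⟫_ℝ = if i = j then 1 else 0) ∧
    (∀ i j, i ≠ j → ⟪u (e i), e j⟫_ℝ = 0) ∧
    (∀ z ∈ Z, z = ∑ i, ⟪w z, e i⟫_ℝ • e i)

/-! #### GM1: polars and the inclusions -/

/-- Bipolar theorem and the polar of a body. -/
def St_bip : Prop := ∀ K : Set E, IsBody K → pol (pol K) = K ∧ IsBody (pol K)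

/-- `G̲ ⊆ G ⊆ Ḡ`. -/
def St_incl : Prop := ∀ K T : Set E, IsBody K → IsBody T →
  lowerEnv K T ⊆ geomMean K T ∧ geomMean K T ⊆ upperEnv K T

/-! #### GM2: the geometric mean of two ellipsoids -/

def St_ell : Prop := ∀ u v : E →L[ℝ] E, Pd u → Pd v → ∃ g : E →L[ℝ] E, Pd g ∧ Dom g u v ∧
  (∀ w : E →L[ℝ] E, Sym w → Dom w u v → ∀ x, ⟪w x, x⟫_ℝ ≤ ⟪g x, x⟫_ℝ) ∧
  geomMean (ell u) (ell v) = ell g

/-! #### GM3: the set `Wset` and the upper envelope -/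

def St_W : Prop := ∀ K T : Set E, IsBody K → IsBody T →
  IsCompact (Wset K T) ∧ Convex ℝ (Wset K T) ∧
    upperEnv K T = {x | ∀ t ∈ Wset K T, ⟪t.1 x, x⟫_ℝ ≤ 1}

/-! #### GM4: sufficiency -/

def St_suff : Prop := ∀ K T : Set E, IsBody K → IsBody T →
  ∀ (k : ℕ) (P : Fin k → E →ₗ[ℝ] E) (p : Fin k → Seminorm ℝ E) (lam : Fin k → ℝ),
    IsData K T P p lam →
    geomMean K T = {x | ∑ i, lam i * p i (P i x) ^ 2 ≤ 1} ∧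
    lowerEnv K T = geomMean K T ∧ geomMean K T = upperEnv K T

/-! #### GM5: dual pairs -/

def St_pairs : Prop := ∀ K T : Set E, IsBody K → IsBody T → upperEnv K T = lowerEnv K T →
  ∀ x : E, ∃ t ∈ Wset K T, ∃ s ∈ Wset (pol K) (pol T), s.1 (t.1 x) = x

/-! #### GM6: frames from dual pairs -/

def St_frame : Prop := ∀ K T : Set E, IsBody K → IsBody T →
  ∀ t ∈ Wset K T, ∀ s ∈ Wset (pol K) (pol T), ∀ x : E, s.1 (t.1 x) = x →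
    ∃ (m : ℕ) (a : Fin m → ℝ) (e f : Fin m → E), Fr K T a e f ∧ At e f x

/-! #### GM8: comparison of frames -/

/-- Membership in `K` and `T` is read off a frame. -/
def St_mem : Prop := ∀ K T : Set E, IsBody K → IsBody T →
  ∀ (m : ℕ) (a : Fin m → ℝ) (e f : Fin m → E), Fr K T a e f → ∀ x, At e f x →
    (x ∈ K ↔ ∑ i, a i * ⟪x, f i⟫_ℝ ^ 2 ≤ 1) ∧ (x ∈ T ↔ ∑ i, (a i)⁻¹ * ⟪x, f i⟫_ℝ ^ 2 ≤ 1)

/-- The matrix `N i j = ⟪e' j, f i⟫` of two frames satisfies the two inequalities of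
`St_LA` and `St_interp`. -/
def St_comp : Prop := ∀ K T : Set E, IsBody K → IsBody T →
  ∀ (m : ℕ) (a : Fin m → ℝ) (e f : Fin m → E) (k : ℕ) (b : Fin k → ℝ) (e' f' : Fin k → E),
    Fr K T a e f → Fr K T b e' f' → ∀ t : Fin k → ℝ,
    ∑ i, a i * (∑ j, ⟪e' j, f i⟫_ℝ * t j) ^ 2 ≤ ∑ j, b j * t j ^ 2 ∧
    ∑ i, (a i)⁻¹ * (∑ j, ⟪e' j, f i⟫_ℝ * t j) ^ 2 ≤ ∑ j, (b j)⁻¹ * t j ^ 2 ∧
    ∑ i, (∑ j, ⟪e' j, f i⟫_ℝ * t j) ^ 2 ≤ ∑ j, t j ^ 2 ∧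
    ∀ l : ℝ, 0 < l →
      ∑ i, (∑ j, ⟪e' j, f i⟫_ℝ * t j) ^ 2 / (a i + l) ≤ ∑ j, t j ^ 2 / (b j + l)

/-- The value `Mv` is well defined. -/
def St_val : Prop := ∀ K T : Set E, IsBody K → IsBody T →
  ∀ (m : ℕ) (a : Fin m → ℝ) (e f : Fin m → E), Fr K T a e f → ∀ x, At e f x →
    ∀ φ : ℝ → ℝ, Mv K T φ x = ∑ i, φ (a i) * ⟪x, f i⟫_ℝ ^ 2

/-! #### GM9: compactness of frames -/

def St_cpt : Prop := ∀ K T : Set E, IsBody K → IsBody T → AllFr K T →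
  ∀ (x : ℕ → E) (x₀ : E), Tendsto x atTop (𝓝 x₀) →
  ∃ (m : ℕ) (a : ℕ → Fin m → ℝ) (e f : ℕ → Fin m → E) (a₀ : Fin m → ℝ) (e₀ f₀ : Fin m → E)
    (ψ : ℕ → ℕ), StrictMono ψ ∧
    (∀ k, Fr K T (a k) (e k) (f k) ∧ At (e k) (f k) (x (ψ k))) ∧
    Fr K T a₀ e₀ f₀ ∧ At e₀ f₀ x₀ ∧
    Tendsto a atTop (𝓝 a₀) ∧ Tendsto e atTop (𝓝 e₀) ∧ Tendsto f atTop (𝓝 f₀)

/-! #### GM10: continuity and directional derivatives of `Mv` -/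

def St_cont : Prop := ∀ K T : Set E, IsBody K → IsBody T → AllFr K T →
  ∀ (A₀ : ℝ) (L : Finset ℝ) (A : ℝ → ℝ), (∀ l ∈ L, 0 < l) → Continuous (Mv K T (phi A₀ L A))

def St_dir : Prop := ∀ K T : Set E, IsBody K → IsBody T → AllFr K T → ∀ x h : E,
  ∃ (m : ℕ) (a : Fin m → ℝ) (e f : Fin m → E), Fr K T a e f ∧ At e f x ∧
    ∃ τ : ℕ → ℝ, (∀ k, 0 < τ k) ∧ Tendsto τ atTop (𝓝 0) ∧
      ∀ (A₀ : ℝ) (L : Finset ℝ) (A : ℝ → ℝ), (∀ l ∈ L, 0 < l) →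
        Tendsto (fun k => (Mv K T (phi A₀ L A) (x + τ k • h) - Mv K T (phi A₀ L A) x) / τ k)
          atTop (𝓝 (2 * ∑ i, phi A₀ L A (a i) * ⟪x, f i⟫_ℝ * ⟪h, f i⟫_ℝ))

/-! #### GM11: convexity of `Mv` -/

def St_conv : Prop := ∀ K T : Set E, IsBody K → IsBody T → AllFr K T →
  ∀ (A₀ : ℝ) (L : Finset ℝ) (A : ℝ → ℝ), (∀ l ∈ L, 0 < l) → (∀ s, 0 < s → 0 ≤ phi A₀ L A s) →
  ∀ (m : ℕ) (a : Fin m → ℝ) (e f : Fin m → E), Fr K T a e f → ∀ x₀, At e f x₀ →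
    ∀ x, 2 * ∑ i, phi A₀ L A (a i) * ⟪x₀, f i⟫_ℝ * ⟪x, f i⟫_ℝ - Mv K T (phi A₀ L A) x₀
      ≤ Mv K T (phi A₀ L A) x

/-! #### GM12: the decomposition -/

def St_decomp : Prop := ∀ K T : Set E, IsBody K → IsBody T → AllFr K T →
  ∃ (k : ℕ) (P : Fin k → E →ₗ[ℝ] E) (p : Fin k → Seminorm ℝ E) (lam : Fin k → ℝ),
    IsData K T P p lam

end general

/-! #### GM7: two matrix lemmas -/

/-- Interpolation of two weighted contractions. -/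
def St_interp : Prop := ∀ (m k : ℕ) (a : Fin m → ℝ) (b : Fin k → ℝ) (N : Fin m → Fin k → ℝ),
  (∀ i, 0 < a i) → (∀ j, 0 < b j) →
  (∀ t : Fin k → ℝ, ∑ i, a i * (∑ j, N i j * t j) ^ 2 ≤ ∑ j, b j * t j ^ 2) →
  (∀ t : Fin k → ℝ, ∑ i, (a i)⁻¹ * (∑ j, N i j * t j) ^ 2 ≤ ∑ j, (b j)⁻¹ * t j ^ 2) →
  ∀ t : Fin k → ℝ, ∑ i, (∑ j, N i j * t j) ^ 2 ≤ ∑ j, t j ^ 2

/-- Equality forces equality of the spectral measures. -/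
def St_LA : Prop := ∀ (m k : ℕ) (a : Fin m → ℝ) (b : Fin k → ℝ) (N : Fin m → Fin k → ℝ)
  (α : Fin m → ℝ) (β : Fin k → ℝ), (∀ i, 0 < a i) → (∀ j, 0 < b j) →
  (∀ t : Fin k → ℝ, ∑ i, a i * (∑ j, N i j * t j) ^ 2 ≤ ∑ j, b j * t j ^ 2) →
  (∀ t : Fin k → ℝ, ∑ i, (a i)⁻¹ * (∑ j, N i j * t j) ^ 2 ≤ ∑ j, (b j)⁻¹ * t j ^ 2) →
  (∀ j, ∑ i, N i j * α i = β j) → ∑ i, α i ^ 2 = ∑ j, β j ^ 2 →
  ∀ g : ℝ → ℝ, ∑ i, g (a i) * α i ^ 2 = ∑ j, g (b j) * β j ^ 2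

end Pool.Agent.NH64.GM
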